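import Pool.Agent.Lib.MP_ef3f0f_gt.III.Spec

set_option autoImplicit false

/-!
# MP_ef3f0f_gt, Part III: two edges and loops
-/

namespace Pool.Agent.MPEF

open MeasureTheory Topology
open scoped ENNReal Pointwise

section General

variable (P H : Type) [Group P] [Group H] [TopologicalSpace P] [TopologicalSpace H]
  [IsTopologicalGroup P] [IsTopologicalGroup H] [LocallyCompactSpace P] [LocallyCompactSpace H]
  [T2Space P] [T2Space H] [SecondCountableTopology P] [SecondCountableTopology H]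
  [MeasurableSpace P] [MeasurableSpace H] [BorelSpace P] [BorelSpace H]

/-- The integral of a product of tensor kernels. -/
private theorem six_int (h1 : S_inst P H) (h2 : S_nu P H) (D : Dat P H) (hD : D.Ok)
    (k k' : P → ℝ≥0∞) (hk : Measurable k) (hk' : Measurable k') (n m : ℕ) (hn : 1 ≤ n)
    (hm : 1 ≤ m) (g : P × H) :
    ∫⁻ q, D.tk k n (g * q) * D.tk k' m q ∂D.μ =
      D.tk (fun s => ∫⁻ q, k (s * q) * k' q ∂D.μ₁) (n + m) g := by
  obtain ⟨i1, i2, i3, i4, i5, i6, i7, i8, -⟩ := h1 D hD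
  obtain ⟨hnm, -, -, hni, -, hnc, -⟩ := h2 D hD
  have := hD.haar₂
  have h3 : ∀ q : P × H, D.tk k n (g * q) * D.tk k' m q =
      (k (g.1 * q.1) * k' q.1) * (D.nu n (g.2 * q.2) * D.nu m q.2) := by
    intro q
    unfold Dat.tk
    simp only [Prod.fst_mul, Prod.snd_mul]
    ring
  have h4 : ∫⁻ h, D.nu n (g.2 * h) * D.nu m h ∂D.μ₂ = D.nu (n + m) g.2 := by
    rw [← hnc n m hn hm g.2,
      ← lintegral_mul_left_eq_self (fun h => D.nu n h * D.nu m (h⁻¹ * g.2)) g.2]
    refine lintegral_congr fun h => ?_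
    congr 1
    rw [← hni m h]
    congr 1
    group
  simp only [h3]
  unfold Dat.μ
  rw [lintegral_prod_mul (f := fun a => k (g.1 * a) * k' a)
    (g := fun b => D.nu n (g.2 * b) * D.nu m b)
    ((hk.comp (continuous_const_mul g.1).measurable).mul hk').aemeasurable
    (((hnm n).comp (continuous_const_mul g.2).measurable).mul (hnm m)).aemeasurable, h4]
  rfl

theorem tsix (h1 : S_inst P H) (h2 : S_nu P H) (h3 : S_unf P H) : S_six P H := by
  classical
  intro D hD k k' hk hk' n m hn hm Φ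
  obtain ⟨i1, i2, i3, i4, i5, i6, i7, i8, -⟩ := h1 D hD
  have hnm := (h2 D hD).1
  have htk : ∀ (k : P → ℝ≥0∞) (n : ℕ), Measurable k → Measurable (D.tk k n) := by
    intro k n hk
    unfold Dat.tk
    exact (hk.comp measurable_fst).mul ((hnm n).comp measurable_snd)
  have hmulm : ∀ g : P × H, Measurable fun x : P × H => g * x := fun g =>
    (continuous_const_mul g).measurable
  unfold Dat.T2 Dat.II
  congr 1
  funext x
  have e1 : ∀ y : P × H, ∑' u : D.Γ, ∑' v : D.Γ, D.tk k n (x⁻¹ * (u : P × H) * y) *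
      D.tk k' m (x⁻¹ * (v : P × H) * y) * Φ (u * v⁻¹) =
      ∑' v : D.Γ, (fun z : P × H => ∑' e : D.Γ, D.tk k n (x⁻¹ * (e : P × H) * z) *
        D.tk k' m (x⁻¹ * z) * Φ e) ((v : P × H) * y) := by
    intro y
    rw [ENNReal.tsum_comm]
    refine tsum_congr fun v => ?_
    rw [← (Equiv.mulRight v).tsum_eq (fun u : D.Γ => D.tk k n (x⁻¹ * (u : P × H) * y) *
      D.tk k' m (x⁻¹ * (v : P × H) * y) * Φ (u * v⁻¹))]
    refine tsum_congr fun e => ?_
    simp only [Equiv.coe_mulRight, Subgroup.coe_mul, mul_assoc, mul_inv_cancel, mul_one]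
  have e2 : ∀ e : D.Γ, Measurable fun z : P × H => D.tk k n (x⁻¹ * (e : P × H) * z) *
        D.tk k' m (x⁻¹ * z) * Φ e := by
    intro e
    exact (((htk k n hk).comp (hmulm _)).mul ((htk k' m hk').comp (hmulm _))).mul_const _
  simp only [e1]
  rw [h3 D hD _ (Measurable.tsum e2), lintegral_tsum fun e => (e2 e).aemeasurable]
  refine tsum_congr fun e => ?_
  have e3 : Measurable fun z : P × H => D.tk k n (x⁻¹ * (e : P × H) * z) *
      D.tk k' m (x⁻¹ * z) :=
    ((htk k n hk).comp (hmulm _)).mul ((htk k' m hk').comp (hmulm _))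
  refine (lintegral_mul_const (Φ e) e3).trans ?_
  rw [← six_int P H h1 h2 D hD k k' hk hk' n m hn hm]
  congr 1
  rw [← lintegral_mul_left_eq_self _ x]
  refine lintegral_congr fun q => ?_
  rw [inv_mul_cancel_left, mul_assoc (x⁻¹ * (e : P × H)) x q]

end General

end Pool.Agent.MPEF
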