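import Pool.Agent.Lib.MP_ef3f0f_gt.III.Spec

set_option autoImplicit false
set_option linter.unusedSectionVars false

/-! MP_ef3f0f_gt, part III, module finK: finiteness of `T2`, `T3`. -/

namespace Pool.Agent.MPEF

open MeasureTheory Topology
open scoped ENNReal Pointwise

section General

variable (P H : Type) [Group P] [Group H] [TopologicalSpace P] [TopologicalSpace H]
  [IsTopologicalGroup P] [IsTopologicalGroup H] [LocallyCompactSpace P] [LocallyCompactSpace H]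
  [T2Space P] [T2Space H] [SecondCountableTopology P] [SecondCountableTopology H]
  [MeasurableSpace P] [MeasurableSpace H] [BorelSpace P] [BorelSpace H]

private theorem fin_tk (h2 : S_nu P H) (D : Dat P H) (hD : D.Ok) (k : P → ℝ≥0∞) (n : ℕ)
    (hk : KB k) : KC (D.tk k n) := by
  obtain ⟨n1, -, -, -, -, -, ⟨C, hC, hC1⟩, n8⟩ := h2 D hD
  obtain ⟨A, hA, hA1⟩ := hk.bdd
  obtain ⟨Z, hZ, hZ1⟩ := hk.supp
  obtain ⟨Y, hY, hY1⟩ := n8 n
  refine ⟨?_, ⟨A * C, ENNReal.mul_ne_top hA hC, fun g => ?_⟩, ⟨Z ×ˢ Y, hZ.prod hY, fun g hg => ?_⟩⟩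
  · exact (hk.meas.comp measurable_fst).mul ((n1 n).comp measurable_snd)
  · exact mul_le_mul' (hA1 _) (hC1 _ _)
  · unfold Dat.tk
    by_cases h3 : g.1 ∈ Z
    · rw [hY1 g.2 (fun h4 => hg ⟨h3, h4⟩), mul_zero]
    · rw [hZ1 g.1 h3, zero_mul]

private theorem fin_wr (h2 : S_nu P H) (D : Dat P H) (hD : D.Ok) (k : P → ℝ≥0∞) (r : ℕ)
    (hk : KB k) : KC (D.wr k r) := by
  obtain ⟨n1, -, -, -, -, -, ⟨C, hC, hC1⟩, n8⟩ := h2 D hD
  obtain ⟨A, hA, hA1⟩ := hk.bdd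
  obtain ⟨Z, hZ, hZ1⟩ := hk.supp
  choose Y hY hY1 using n8
  refine ⟨?_, ⟨A * ∑ n ∈ Finset.Icc r (4 * r), C,
    ENNReal.mul_ne_top hA (ENNReal.sum_ne_top.2 fun n _ => hC), fun g => ?_⟩,
    ⟨Z ×ˢ (⋃ n ∈ Finset.Icc r (4 * r), Y n),
      hZ.prod ((Finset.Icc r (4 * r)).isCompact_biUnion fun n _ => hY n), fun g hg => ?_⟩⟩
  · have h3 : Measurable fun g : P × H => ∑ n ∈ Finset.Icc r (4 * r), D.nu n g.2 :=
      Finset.measurable_fun_sum _ fun n _ => (n1 n).comp measurable_snd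
    exact (hk.meas.comp measurable_fst).mul h3
  · exact mul_le_mul' (hA1 _) (Finset.sum_le_sum fun n _ => hC1 _ _)
  · unfold Dat.wr
    by_cases h3 : g.1 ∈ Z
    · have h4 : ∑ n ∈ Finset.Icc r (4 * r), D.nu n g.2 = 0 := by
        refine Finset.sum_eq_zero fun n hn => hY1 n g.2 fun h5 => hg ⟨h3, ?_⟩
        exact Set.mem_biUnion hn h5
      rw [h4, mul_zero]
    · rw [hZ1 g.1 h3, zero_mul]

/-- A double integral over the fundamental set is bounded by the supremum. -/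
private theorem fin_IM (D : Dat P H) (hD : D.Ok) (X : Set (P × H)) (hX : ∀ x, x ∉ X → D.χ x = 0)
    (f : P × H → ℝ≥0∞) (B : ℝ≥0∞) (h : ∀ x ∈ X, f x ≤ B) : D.IM f ≤ B := by
  unfold Dat.IM
  have h3 : ∀ x, D.χ x * f x ≤ D.χ x * B := by
    intro x
    by_cases h4 : x ∈ X
    · exact mul_le_mul_right (h x h4) _
    · rw [hX x h4, zero_mul, zero_mul]
  calc ∫⁻ x, D.χ x * f x ∂D.μ ≤ ∫⁻ x, D.χ x * B ∂D.μ := lintegral_mono h3
    _ = B := by rw [lintegral_mul_const B hD.χm, hD.mass, one_mul]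

/-- The finite set of the elements which occur. -/
private theorem fin_set (D : Dat P H) (hD : D.Ok) (X Z : Set (P × H)) (hX : IsCompact X)
    (hZ : IsCompact Z) : ∃ F : Finset D.Γ, ∀ x ∈ X, ∀ y ∈ X, ∀ u : D.Γ,
      x⁻¹ * (u : P × H) * y ∈ Z → u ∈ F := by
  have h1 : IsCompact (X * Z * X⁻¹) := (hX.mul hZ).mul hX.inv
  have h2 := hD.disc _ h1
  have h3 : {u : D.Γ | (u : P × H) ∈ X * Z * X⁻¹}.Finite := by
    have h4 : {u : D.Γ | (u : P × H) ∈ X * Z * X⁻¹} =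
        (Subtype.val : D.Γ → P × H) ⁻¹' {γ : P × H | γ ∈ D.Γ ∧ γ ∈ X * Z * X⁻¹} := by
      ext u
      exact ⟨fun h => ⟨u.2, h⟩, fun h => h.2⟩
    rw [h4]
    exact h2.preimage Subtype.val_injective.injOn
  refine ⟨h3.toFinset, fun x hx y hy u hu => ?_⟩
  rw [Set.Finite.mem_toFinset]
  have h5 : (u : P × H) = x * (x⁻¹ * (u : P × H) * y) * y⁻¹ := by group
  show (u : P × H) ∈ X * Z * X⁻¹
  rw [h5]
  exact Set.mul_mem_mul (Set.mul_mem_mul hx hu) (Set.inv_mem_inv.2 hy)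

private theorem fin_sum {ι : Type} (F : Finset ι) (f g : ι → ℝ≥0∞) (h0 : ∀ i, i ∉ F → f i = 0)
    (h1 : ∀ i ∈ F, f i ≤ g i) : ∑' i, f i ≤ ∑ i ∈ F, g i := by
  rw [tsum_eq_sum h0]
  exact Finset.sum_le_sum h1

theorem tfinK (h1 : S_inst P H) (h2 : S_nu P H) : S_finK P H := by
  have _ := h1
  intro D hD
  refine ⟨fin_tk P H h2 D hD, fin_wr P H h2 D hD, fun K₁ K₂ K₃ k1 k2 k3 => ?_⟩
  obtain ⟨X, hX, hX0⟩ := hD.χK
  obtain ⟨Z₁, hZ₁, z1⟩ := k1.supp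
  obtain ⟨Z₂, hZ₂, z2⟩ := k2.supp
  obtain ⟨Z₃, hZ₃, z3⟩ := k3.supp
  obtain ⟨C₁, c1, d1⟩ := k1.bdd
  obtain ⟨C₂, c2, d2⟩ := k2.bdd
  obtain ⟨C₃, c3, d3⟩ := k3.bdd
  obtain ⟨F, hF⟩ := fin_set P H D hD X (Z₁ ∪ Z₂ ∪ Z₃) hX ((hZ₁.union hZ₂).union hZ₃)
  have e1 : ∀ x ∈ X, ∀ y ∈ X, ∀ u : D.Γ, u ∉ F → K₁ (x⁻¹ * (u : P × H) * y) = 0 := by
    intro x hx y hy u hu
    exact z1 _ fun h => hu (hF x hx y hy u (Or.inl (Or.inl h)))
  have e2 : ∀ x ∈ X, ∀ y ∈ X, ∀ u : D.Γ, u ∉ F → K₂ (x⁻¹ * (u : P × H) * y) = 0 := by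
    intro x hx y hy u hu
    exact z2 _ fun h => hu (hF x hx y hy u (Or.inl (Or.inr h)))
  have e3 : ∀ x ∈ X, ∀ y ∈ X, ∀ u : D.Γ, u ∉ F → K₃ (x⁻¹ * (u : P × H) * y) = 0 := by
    intro x hx y hy u hu
    exact z3 _ fun h => hu (hF x hx y hy u (Or.inr h))
  constructor
  · intro Φ hΦ
    have hB : ∑ u ∈ F, ∑ v ∈ F, C₁ * C₂ * Φ u v ≠ ∞ :=
      ENNReal.sum_ne_top.2 fun u _ => ENNReal.sum_ne_top.2 fun v _ =>
        ENNReal.mul_ne_top (ENNReal.mul_ne_top c1 c2) (hΦ u v)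
    refine ne_top_of_le_ne_top hB ?_
    unfold Dat.T2
    refine fin_IM P H D hD X hX0 _ _ fun x hx => ?_
    refine fin_IM P H D hD X hX0 _ _ fun y hy => ?_
    refine fin_sum F _ _ (fun u hu => ?_) fun u _ => fin_sum F _ _ (fun v hv => ?_) fun v _ => ?_
    · simp only [e1 x hx y hy u hu, zero_mul, tsum_zero]
    · rw [e2 x hx y hy v hv, mul_zero, zero_mul]
    · exact mul_le_mul' (mul_le_mul' (d1 _) (d2 _)) le_rfl
  · intro Φ hΦ
    have hB : ∑ u ∈ F, ∑ v ∈ F, ∑ w ∈ F, C₁ * C₂ * C₃ * Φ u v w ≠ ∞ :=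
      ENNReal.sum_ne_top.2 fun u _ => ENNReal.sum_ne_top.2 fun v _ =>
        ENNReal.sum_ne_top.2 fun w _ =>
        ENNReal.mul_ne_top (ENNReal.mul_ne_top (ENNReal.mul_ne_top c1 c2) c3) (hΦ u v w)
    refine ne_top_of_le_ne_top hB ?_
    unfold Dat.T3
    refine fin_IM P H D hD X hX0 _ _ fun x hx => ?_
    refine fin_IM P H D hD X hX0 _ _ fun y hy => ?_
    refine fin_sum F _ _ (fun u hu => ?_) fun u _ => fin_sum F _ _ (fun v hv => ?_) fun v _ =>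
      fin_sum F _ _ (fun w hw => ?_) fun w _ => ?_
    · simp only [e1 x hx y hy u hu, zero_mul, tsum_zero]
    · simp only [e2 x hx y hy v hv, mul_zero, zero_mul, tsum_zero]
    · rw [e3 x hx y hy w hw, mul_zero, zero_mul]
    · exact mul_le_mul' (mul_le_mul' (mul_le_mul' (d1 _) (d2 _)) (d3 _)) le_rfl

end General

end Pool.Agent.MPEF
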