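import Pool.Agent.Lib.MP_ef3f0f_gt.III.Spec

set_option autoImplicit false

/-!
# MP_ef3f0f_gt, Part III: exact balance from a flip (III.1)
-/

namespace Pool.Agent.MPEF

open MeasureTheory Topology
open scoped ENNReal Pointwise

section General

variable (P H : Type) [Group P] [Group H] [TopologicalSpace P] [TopologicalSpace H]
  [IsTopologicalGroup P] [IsTopologicalGroup H] [LocallyCompactSpace P] [LocallyCompactSpace H]
  [T2Space P] [T2Space H] [SecondCountableTopology P] [SecondCountableTopology H]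
  [MeasurableSpace P] [MeasurableSpace H] [BorelSpace P] [BorelSpace H]

/-- The function `x ↦ tk ψ N (x⁻¹ γ x)`. -/
private noncomputable def bal1f {P H : Type} [Group P] [Group H] [MeasurableSpace P]
    [MeasurableSpace H] (D : Dat P H) (ψ : P → ℝ≥0∞) (N : ℕ) (γ : D.Γ) (x : P × H) : ℝ≥0∞ :=
  D.tk ψ N (x⁻¹ * (γ : P × H) * x)

open scoped Classical in
/-- The flip on `P × H`. -/
private noncomputable def bal1T {P H : Type} [Group P] [Group H] [MeasurableSpace P]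
    [MeasurableSpace H] (D : Dat P H) (Hyp : Set P) (T : P → P → P) (γ : D.Γ) (x : P × H) :
    P × H :=
  if (γ : P × H).1 ∈ Hyp then (T (γ : P × H).1 x.1, x.2) else x

private theorem bal1f_conj {P H : Type} [Group P] [Group H] [MeasurableSpace P]
    [MeasurableSpace H] (D : Dat P H) (ψ : P → ℝ≥0∞) (N : ℕ) (g γ : D.Γ) (x : P × H) :
    bal1f D ψ N γ ((g : P × H)⁻¹ * x) = bal1f D ψ N (g * γ * g⁻¹) x := by
  unfold bal1f
  congr 1
  simp only [Subgroup.coe_mul, Subgroup.coe_inv, mul_inv_rev, inv_inv]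
  group

private theorem bal1_pres (h1 : S_inst P H) (D : Dat P H) (hD : D.Ok) (S : P → P)
    (hS : Measurable S)
    (hp : ∀ f : P → ℝ≥0∞, Measurable f → ∫⁻ x, f (S x) ∂D.μ₁ = ∫⁻ x, f x ∂D.μ₁)
    (F : P × H → ℝ≥0∞) (hF : Measurable F) :
    ∫⁻ x, F (S x.1, x.2) ∂D.μ = ∫⁻ x, F x ∂D.μ := by
  obtain ⟨i1, i2, -⟩ := h1 D hD
  have hm : Measurable fun x : P × H => F (S x.1, x.2) :=
    hF.comp ((hS.comp measurable_fst).prodMk measurable_snd)
  unfold Dat.μ
  rw [lintegral_prod_symm _ hm.aemeasurable, lintegral_prod_symm _ hF.aemeasurable]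
  refine lintegral_congr fun y => ?_
  exact hp (fun x => F (x, y)) (hF.comp (measurable_id.prodMk measurable_const))

theorem tBal1 (h1 : S_inst P H) (h2 : S_nu P H) : S_Bal1 P H := by
  classical
  intro D hD Hyp T hT ψ hψm _ _ hψH N _ Φ hΦ
  obtain ⟨i1, i2, i3, i4, i5, i6, i7, i8, -⟩ := h1 D hD
  have hnum : ∀ n, Measurable (D.nu n) := (h2 D hD).1
  have hnui : ∀ n h, D.nu n h⁻¹ = D.nu n h := (h2 D hD).2.2.2.1
  have htk : Measurable (D.tk ψ N) := by
    unfold Dat.tk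
    exact (hψm.comp measurable_fst).mul ((hnum N).comp measurable_snd)
  have hfm : ∀ γ : D.Γ, Measurable (bal1f D ψ N γ) := by
    intro γ
    unfold bal1f
    exact htk.comp (by fun_prop : Continuous fun x : P × H => x⁻¹ * (γ : P × H) * x).measurable
  have hχ : Measurable D.χ := hD.χm
  -- the support
  have hHinv : ∀ l ∈ Hyp, l⁻¹ ∈ Hyp := by
    intro l hl
    have h3 := hT.flip l hl 1
    have h4 : (T l 1) * l * (T l 1)⁻¹ ∈ Hyp := hT.conj l hl _
    have h5 : l⁻¹ = T l 1 * l * (T l 1)⁻¹ := by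
      have h6 : (T l 1)⁻¹ * l⁻¹ * T l 1 = l := by simpa using h3
      calc l⁻¹ = T l 1 * ((T l 1)⁻¹ * l⁻¹ * T l 1) * (T l 1)⁻¹ := by group
        _ = T l 1 * l * (T l 1)⁻¹ := by rw [h6]
    rw [h5]
    exact h4
  have hf0 : ∀ (γ : D.Γ) (x : P × H), (γ : P × H).1 ∉ Hyp → bal1f D ψ N γ x = 0 := by
    intro γ x hγ
    unfold bal1f Dat.tk
    rw [hψH, zero_mul]
    intro hx
    apply hγ
    have h3 := hT.conj _ hx x.1
    have h4 : x.1 * (x⁻¹ * (γ : P × H) * x).1 * x.1⁻¹ = (γ : P × H).1 := by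
      simp only [Prod.fst_mul, Prod.fst_inv]
      group
    rwa [h4] at h3
  -- the flip
  have hTm : ∀ γ : D.Γ, Measurable (bal1T D Hyp T γ) := by
    intro γ
    by_cases hγ : (γ : P × H).1 ∈ Hyp
    · have : bal1T D Hyp T γ = fun x : P × H => (T (γ : P × H).1 x.1, x.2) := by
        funext x
        simp [bal1T, hγ]
      rw [this]
      exact ((hT.meas _ hγ).comp measurable_fst).prodMk measurable_snd
    · have : bal1T D Hyp T γ = id := by
        funext x
        simp [bal1T, hγ]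
      rw [this]
      exact measurable_id
  have hTequi : ∀ (g γ : D.Γ) (x : P × H), bal1T D Hyp T γ ((g : P × H)⁻¹ * x) =
      (g : P × H)⁻¹ * bal1T D Hyp T (g * γ * g⁻¹) x := by
    intro g γ x
    by_cases hγ : (γ : P × H).1 ∈ Hyp
    · have hγ' : ((g * γ * g⁻¹ : D.Γ) : P × H).1 ∈ Hyp := by
        have := hT.conj _ hγ (g : P × H).1
        simpa using this
      have h3 := hT.equi _ hγ (g : P × H).1 ((g : P × H)⁻¹ * x).1
      have h4 : (g : P × H).1 * ((g : P × H)⁻¹ * x).1 = x.1 := by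
        simp
      rw [h4] at h3
      have h5 : ((g * γ * g⁻¹ : D.Γ) : P × H).1 =
          (g : P × H).1 * (γ : P × H).1 * (g : P × H).1⁻¹ := by
        simp
      simp only [bal1T, if_pos hγ, if_pos hγ']
      rw [h5, h3]
      ext
      · simp
      · simp
    · have hγ' : ((g * γ * g⁻¹ : D.Γ) : P × H).1 ∉ Hyp := by
        intro h
        apply hγ
        have := hT.conj _ h (g : P × H).1⁻¹
        have h4 : (g : P × H).1⁻¹ * ((g * γ * g⁻¹ : D.Γ) : P × H).1 * ((g : P × H).1⁻¹)⁻¹ =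
            (γ : P × H).1 := by
          simp only [Subgroup.coe_mul, Subgroup.coe_inv, Prod.fst_mul, Prod.fst_inv]
          group
        rwa [h4] at this
      simp only [bal1T, if_neg hγ, if_neg hγ']
  -- the integrals
  set W : D.Γ → ℝ≥0∞ := fun γ => ∫⁻ x, D.χ x * bal1f D ψ N γ x ∂D.μ with hW
  set A : D.Γ → D.Γ → ℝ≥0∞ := fun g γ =>
    ∫⁻ x, D.χ x * (D.χ ((g : P × H)⁻¹ * bal1T D Hyp T γ x) * bal1f D ψ N γ x) ∂D.μ with hA
  have hII : ∀ Ψ : D.Γ → ℝ≥0∞, D.II ψ N Ψ = ∑' γ : D.Γ, Ψ γ * W γ := by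
    intro Ψ
    unfold Dat.II Dat.IM
    have h3 : ∀ x, D.χ x * ∑' γ : D.Γ, D.tk ψ N (x⁻¹ * (γ : P × H) * x) * Ψ γ =
        ∑' γ : D.Γ, Ψ γ * (D.χ x * bal1f D ψ N γ x) := by
      intro x
      rw [← ENNReal.tsum_mul_left]
      refine tsum_congr fun γ => ?_
      unfold bal1f
      ring
    simp only [h3]
    rw [lintegral_tsum]
    · refine tsum_congr fun γ => ?_
      exact lintegral_const_mul (Ψ γ) (hχ.mul (hfm γ))
    · intro γ
      exact ((hχ.mul (hfm γ)).const_mul _).aemeasurable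
  have hmulm : ∀ g : P × H, Measurable fun x : P × H => g * x := fun g =>
    (continuous_const_mul g).measurable
  have hV : ∀ γ : D.Γ, W γ⁻¹ = ∫⁻ x, D.χ (bal1T D Hyp T γ x) * bal1f D ψ N γ x ∂D.μ := by
    intro γ
    by_cases hγ : (γ : P × H).1 ∈ Hyp
    · have h3 := bal1_pres P H h1 D hD (T (γ : P × H).1) (hT.meas _ hγ) (hT.pres _ hγ)
        (fun x => D.χ x * bal1f D ψ N γ⁻¹ x) (hχ.mul (hfm _))
      simp only [hW]
      rw [← h3]
      refine lintegral_congr fun x => ?_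
      have h4 : bal1T D Hyp T γ x = (T (γ : P × H).1 x.1, x.2) := by simp [bal1T, hγ]
      rw [h4]
      congr 1
      unfold bal1f Dat.tk
      have h5 := hT.flip _ hγ x.1
      have h6 : (((T (γ : P × H).1 x.1, x.2) : P × H)⁻¹ * ((γ⁻¹ : D.Γ) : P × H) *
          (T (γ : P × H).1 x.1, x.2)).1 = (x⁻¹ * (γ : P × H) * x).1 := by
        simp only [Prod.fst_mul, Prod.fst_inv, Subgroup.coe_inv]
        exact h5
      have h7 : (((T (γ : P × H).1 x.1, x.2) : P × H)⁻¹ * ((γ⁻¹ : D.Γ) : P × H) *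
          (T (γ : P × H).1 x.1, x.2)).2 = ((x⁻¹ * (γ : P × H) * x).2)⁻¹ := by
        simp only [Prod.snd_mul, Prod.snd_inv, Subgroup.coe_inv]
        group
      rw [h6, h7, hnui]
    · have hγ' : ((γ⁻¹ : D.Γ) : P × H).1 ∉ Hyp := by
        intro h
        apply hγ
        have := hHinv _ h
        simpa using this
      simp only [hW, hf0 _ _ hγ, hf0 _ _ hγ', mul_zero]
  have hVA : ∀ γ : D.Γ, W γ⁻¹ = ∑' g : D.Γ, A g (g * γ * g⁻¹) := by
    intro γ
    rw [hV]
    have h3 : ∀ x, D.χ (bal1T D Hyp T γ x) * bal1f D ψ N γ x =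
        ∑' g : D.Γ, D.χ ((g : P × H) * x) * (D.χ (bal1T D Hyp T γ x) * bal1f D ψ N γ x) := by
      intro x
      rw [ENNReal.tsum_mul_right, hD.χs, one_mul]
    rw [lintegral_congr h3, lintegral_tsum]
    · refine tsum_congr fun g => ?_
      simp only [hA]
      rw [← lintegral_mul_left_eq_self _ (g : P × H)⁻¹]
      refine lintegral_congr fun x => ?_
      rw [mul_inv_cancel_left, hTequi, bal1f_conj]
    · intro g
      exact ((hχ.comp (hmulm _)).mul ((hχ.comp (hTm γ)).mul (hfm γ))).aemeasurable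
  have hAs : ∀ γ : D.Γ, ∑' g : D.Γ, A g γ = W γ := by
    intro γ
    simp only [hA, hW]
    rw [← lintegral_tsum]
    · refine lintegral_congr fun x => ?_
      rw [ENNReal.tsum_mul_left, ENNReal.tsum_mul_right]
      have h3 : ∑' g : D.Γ, D.χ ((g : P × H)⁻¹ * bal1T D Hyp T γ x) = 1 := by
        rw [← hD.χs (bal1T D Hyp T γ x)]
        exact (Equiv.inv D.Γ).tsum_eq (fun g : D.Γ => D.χ ((g : P × H) * bal1T D Hyp T γ x))
      rw [h3, one_mul]
    · intro g
      exact (hχ.mul ((hχ.comp ((hmulm _).comp (hTm γ))).mul (hfm γ))).aemeasurable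
  rw [hII, hII]
  have h8 : ∑' γ : D.Γ, Φ γ⁻¹ * W γ = ∑' γ : D.Γ, Φ γ * W γ⁻¹ := by
    rw [← (Equiv.inv D.Γ).tsum_eq (fun γ : D.Γ => Φ γ * W γ⁻¹)]
    simp
  rw [h8]
  symm
  calc ∑' γ : D.Γ, Φ γ * W γ⁻¹ = ∑' γ : D.Γ, ∑' g : D.Γ, Φ (g * γ * g⁻¹) * A g (g * γ * g⁻¹) := by
        refine tsum_congr fun γ => ?_
        rw [hVA, ← ENNReal.tsum_mul_left]
        simp only [hΦ]
    _ = ∑' g : D.Γ, ∑' γ : D.Γ, Φ (g * γ * g⁻¹) * A g (g * γ * g⁻¹) := ENNReal.tsum_comm
    _ = ∑' g : D.Γ, ∑' γ : D.Γ, Φ γ * A g γ := by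
        refine tsum_congr fun g => ?_
        exact (MulAut.conj g).toEquiv.tsum_eq (fun γ : D.Γ => Φ γ * A g γ)
    _ = ∑' γ : D.Γ, ∑' g : D.Γ, Φ γ * A g γ := ENNReal.tsum_comm
    _ = ∑' γ : D.Γ, Φ γ * W γ := by
        refine tsum_congr fun γ => ?_
        rw [ENNReal.tsum_mul_left, hAs]

end General

end Pool.Agent.MPEF
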