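import Pool.Agent.Lib.MP_ef3f0f_gt.III.Spec

set_option autoImplicit false

namespace Pool.Agent.MPEF

open MeasureTheory Topology
open scoped ENNReal Pointwise

section

variable (H : Type) [Group H] [TopologicalSpace H] [IsTopologicalGroup H]
  [LocallyCompactSpace H] [T2Space H] [SecondCountableTopology H] [MeasurableSpace H]
  [BorelSpace H]

/-- **III.1 for SL₂(ℝ)**. -/
theorem tBalSL (h1 : S_Flip) (h2 : S_Bal1 SL2 H) : S_BalSL H := by
  intro D hD
  obtain ⟨T, hT⟩ := h1 D.μ₁ hD.haar₁
  exact h2 D hD _ T hT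

end

end Pool.Agent.MPEF
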