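import Pool.Agent.Lib.MP_ef3f0f_gt.Z.Spec
import Pool.Agent.Lib.MP_ef3f0f_gt.A.Spec
import Pool.Agent.Lib.MP_ef3f0f_gt.G.Spec
import Pool.Agent.Lib.MP_ef3f0f_gt.Q.Defs

set_option autoImplicit false

/-!
# MP_ef3f0f_gt, Part III (exact balance, the contradiction, matching): definitions
-/

namespace Pool.Agent.MPEF

open MeasureTheory Topology
open scoped ENNReal Pointwise

/-- A flip: for every `l ∈ Hyp` a measure preserving map `T l : P → P`, equivariant under `P`, such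
that `T l x` conjugates `l⁻¹` to the same element as `x` conjugates `l`. -/
structure FlipP {P : Type} [Group P] [MeasurableSpace P] (μ : Measure P) (Hyp : Set P)
    (T : P → P → P) : Prop where
  meas : ∀ l ∈ Hyp, Measurable (T l)
  pres : ∀ l ∈ Hyp, ∀ f : P → ℝ≥0∞, Measurable f → ∫⁻ x, f (T l x) ∂μ = ∫⁻ x, f x ∂μ
  equi : ∀ l ∈ Hyp, ∀ g x, T (g * l * g⁻¹) (g * x) = g * T l x
  flip : ∀ l ∈ Hyp, ∀ x, (T l x)⁻¹ * l⁻¹ * T l x = x⁻¹ * l * x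
  conj : ∀ l ∈ Hyp, ∀ g : P, g * l * g⁻¹ ∈ Hyp

/-- Bounded measurable kernels on `P × H` with compact support. -/
structure KC {P H : Type} [MeasurableSpace P] [MeasurableSpace H] [TopologicalSpace P]
    [TopologicalSpace H] (K : P × H → ℝ≥0∞) : Prop where
  meas : Measurable K
  bdd : ∃ C : ℝ≥0∞, C ≠ ∞ ∧ ∀ g, K g ≤ C
  supp : ∃ Z : Set (P × H), IsCompact Z ∧ ∀ g, g ∉ Z → K g = 0

section
variable {P H : Type} [Group P] [Group H] [MeasurableSpace P] [MeasurableSpace H]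

/-- `φ` is positive on the boundaries of all pants of size `r`. -/
def Pos (D : Dat P H) (ka : Ty → P → ℝ≥0∞) (r : ℕ) (φ : D.Γ → ℝ) : Prop :=
  ∀ t ∈ PTs, ∀ (x y : P × H) (u v w : D.Γ),
    D.wr (ka t.1) r (x⁻¹ * (u : P × H) * y) ≠ 0 → D.wr (ka t.2.1) r (x⁻¹ * (v : P × H) * y) ≠ 0 →
    D.wr (ka t.2.2) r (x⁻¹ * (w : P × H) * y) ≠ 0 → 0 < dl φ u v w

/-- The conclusion of Theorem 1 for the kernels `ka`, `kb`. -/
def Coer (D : Dat P H) (ka kb : Ty → P → ℝ≥0∞) : Prop :=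
  ∃ (C : ℝ≥0∞) (r₀ : ℕ), C ≠ ∞ ∧ ∀ r, r₀ ≤ r → ∀ φ : D.Γ → ℝ, OddC φ → ∀ β : ℝ≥0∞,
    D.QQ kb r φ 1 ≤ D.QQ kb r φ (-1) + β → D.QQ kb r φ (-1) ≤ D.QQ kb r φ 1 + β →
    ∃ h : D.Γ → ℝ, (∀ x y, h (x * y) = h x + h y) ∧
      D.AA ka r (fun x => φ x - h x) ≤ C * (r : ℝ≥0∞) ^ 3 * (D.EE ka r φ + β)

/-- The sum of the errors. -/
noncomputable def er (e : ℕ → ℝ≥0∞) (r : ℕ) : ℝ≥0∞ := ∑ n ∈ Finset.Icc r (4 * r), e n

/-- The projection of `Γ` to the first factor. -/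
def prD (D : Dat P H) : D.Γ →* P := (MonoidHom.fst P H).comp D.Γ.subtype

end

/-- The pants condition for the windows (the output of IV.2). -/
def PW (G : Geo SL2) (M : ℕ) : Prop :=
  ∀ a b c, PT a b c → ∀ g ∈ G.Om M a 0, ∀ g' ∈ G.Om M b 0, ∀ g'' ∈ G.Om M c 0,
    ∃ v : V2, PH (g * g'⁻¹) (g' * g''⁻¹) v

/-- **The windows exist** (0.4, IV.2; proof elsewhere). -/
def S_Win : Prop :=
  ∃ G : Geo SL2, G.Ok ∧ G.Hyp = {l | 2 < |tr2 l|} ∧ (∃ s : ℝ, 0 < s ∧ Bs s ⊆ G.B 0) ∧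
    ∃ M₁ : ℕ, ∀ M, M₁ ≤ M → PW G M

end Pool.Agent.MPEF
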