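import Pool.Agent.Lib.MP_ef3f0f_gt.III.Spec

set_option autoImplicit false

/-!
# MP_ef3f0f_gt, Part III: positivity and finiteness of E, A
-/

namespace Pool.Agent.MPEF

open MeasureTheory Topology
open scoped ENNReal Pointwise

attribute [local irreducible] PTs in
private theorem Epos_mem (t : Ty × Ty × Ty) (h : PT t.1 t.2.1 t.2.2) : t ∈ PTs := by
  simp only [PTs, Finset.mem_filter, Finset.mem_univ, true_and]
  exact h

private theorem Epos_PT : PT (0, 12) (2, 0) (3, 14) := by decide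

section

variable (P H : Type) [Group P] [Group H] [TopologicalSpace P] [TopologicalSpace H]
  [IsTopologicalGroup P] [IsTopologicalGroup H] [LocallyCompactSpace P] [LocallyCompactSpace H]
  [T2Space P] [T2Space H] [SecondCountableTopology P] [SecondCountableTopology H]
  [MeasurableSpace P] [MeasurableSpace H] [BorelSpace P] [BorelSpace H]

attribute [local irreducible] PTs

private theorem Epos_pt (t₁ t₂ t₃ : Ty) (h : PT t₁ t₂ t₃) : (t₁, t₂, t₃) ∈ PTs := Epos_mem _ h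

omit [LocallyCompactSpace P] [LocallyCompactSpace H] [T2Space P] [T2Space H]
  [IsTopologicalGroup P] [IsTopologicalGroup H] [SecondCountableTopology P]
  [SecondCountableTopology H] [BorelSpace P] [BorelSpace H] in
private theorem Epos_IM {P H : Type} [Group P] [Group H] [TopologicalSpace P] [TopologicalSpace H]
    [MeasurableSpace P] [MeasurableSpace H] {D : Dat P H} (hD : D.Ok) {f : P × H → ℝ≥0∞}
    (hf : Measurable f) (h0 : ∀ x, f x ≠ 0) : D.IM f ≠ 0 := by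
  intro h
  unfold Dat.IM at h
  replace h := (lintegral_eq_zero_iff (hD.χm.mul hf)).1 h
  have h2 : ∫⁻ x, D.χ x ∂D.μ = 0 := by
    rw [lintegral_eq_zero_iff hD.χm]
    filter_upwards [h] with x hx
    rcases mul_eq_zero.1 hx with h | h
    · exact h
    · exact absurd h (h0 x)
  rw [hD.mass] at h2
  exact one_ne_zero h2

private theorem Epos_meas (D : Dat P H) (hc : Countable D.Γ) {K₁ K₂ K₃ : P × H → ℝ≥0∞}
    (h1 : Measurable K₁) (h2 : Measurable K₂) (h3 : Measurable K₃)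
    (Φ : D.Γ → D.Γ → D.Γ → ℝ≥0∞) :
    Measurable fun q : (P × H) × (P × H) => ∑' u : D.Γ, ∑' v : D.Γ, ∑' w : D.Γ,
      K₁ (q.1⁻¹ * (u : P × H) * q.2) * K₂ (q.1⁻¹ * (v : P × H) * q.2) *
        K₃ (q.1⁻¹ * (w : P × H) * q.2) * Φ u v w := by
  have hm : ∀ u : D.Γ, Measurable fun q : (P × H) × (P × H) => q.1⁻¹ * (u : P × H) * q.2 := by
    intro u
    exact (measurable_fst.inv.mul_const _).mul measurable_snd
  refine Measurable.tsum fun u => Measurable.tsum fun v =>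
    Measurable.tsum fun w => ?_
  exact (((h1.comp (hm u)).mul (h2.comp (hm v))).mul (h3.comp (hm w))).mul_const _

private theorem Epos_T3 {D : Dat P H} (hD : D.Ok) (hc : Countable D.Γ) (hs : SigmaFinite D.μ)
    {K₁ K₂ K₃ : P × H → ℝ≥0∞} (h1 : Measurable K₁) (h2 : Measurable K₂) (h3 : Measurable K₃)
    (Φ : D.Γ → D.Γ → D.Γ → ℝ≥0∞) (h0 : ∀ x y : P × H, ∃ u v w : D.Γ,
      K₁ (x⁻¹ * (u : P × H) * y) ≠ 0 ∧ K₂ (x⁻¹ * (v : P × H) * y) ≠ 0 ∧
      K₃ (x⁻¹ * (w : P × H) * y) ≠ 0 ∧ Φ u v w ≠ 0) : D.T3 K₁ K₂ K₃ Φ ≠ 0 := by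
  have hm := Epos_meas P H D hc h1 h2 h3 Φ
  obtain ⟨F, hF⟩ : ∃ F : (P × H) × (P × H) → ℝ≥0∞, ∀ q, F q = ∑' u : D.Γ, ∑' v : D.Γ, ∑' w : D.Γ,
      K₁ (q.1⁻¹ * (u : P × H) * q.2) * K₂ (q.1⁻¹ * (v : P × H) * q.2) *
        K₃ (q.1⁻¹ * (w : P × H) * q.2) * Φ u v w := ⟨_, fun q => rfl⟩
  have hFm : Measurable F := by
    rw [show F = _ from funext hF]
    exact hm
  have hT : D.T3 K₁ K₂ K₃ Φ = D.IM fun x => D.IM fun y => F (x, y) := by
    unfold Dat.T3
    simp only [hF]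
  rw [hT]
  refine Epos_IM hD ?_ ?_
  · have : Measurable fun q : (P × H) × (P × H) => D.χ q.2 * F q :=
      (hD.χm.comp measurable_snd).mul hFm
    exact this.lintegral_prod_right'
  · intro x
    refine Epos_IM hD (hFm.comp measurable_prodMk_left) ?_
    intro y h
    obtain ⟨u, v, w, hu, hv, hw, hΦ⟩ := h0 x y
    rw [hF] at h
    have h' := ENNReal.tsum_eq_zero.1 (ENNReal.tsum_eq_zero.1 (ENNReal.tsum_eq_zero.1 h u) v) w
    exact mul_ne_zero (mul_ne_zero (mul_ne_zero hu hv) hw) hΦ h'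

theorem tEpos (h1 : S_inst P H) (h2 : S_Lo P H) (h3 : S_finK P H) (h4 : S_wr P H)
    (h5 : S_ker P H) : S_Epos P H := by
  intro D hD G hG M ka kb hk hne
  obtain ⟨-, -, hsig, hcount, -⟩ := h1 D hD
  have hKB := (h5 D hD G hG M ka kb hk).1
  have hKC : ∀ (a : Ty) (r : ℕ), KC (D.wr (ka a) r) := fun a r => (h3 D hD).2.1 (ka a) r (hKB a).1
  refine ⟨?_, ?_⟩
  · intro r φ
    unfold Dat.AA
    refine ENNReal.sum_ne_top.2 fun t _ => ?_
    exact ((h3 D hD).2.2 _ _ _ (hKC t.1 r) (hKC t.2.1 r) (hKC t.1 r)).1 _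
      fun u v => ENNReal.ofReal_ne_top
  · obtain ⟨c, hc, hal⟩ := hk.al
    have hLo : ∀ a : Ty, ∃ (b : ℕ) (c' : ℝ≥0∞), 1 ≤ b ∧ 0 < c' ∧ ∀ n, b ≤ n → ∀ (x y : P × H),
        c' ≤ D.N (D.tk (ka a) n) x y := by
      intro a
      obtain ⟨b, c', hb, hc', h⟩ := h2 D hD (ka a) (G.Om M a 2) c (hKB a).1.meas (hG.oo M a 2)
        (hne a) hc (hal a).1
      refine ⟨b, c', hb, hc', fun n hn x y => ?_⟩
      have := h n hn 1 1 x y
      simpa using this
    choose b c' hb hc' hN using hLo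
    refine ⟨Finset.univ.sup b, ?_⟩
    intro r hr φ hφ
    have hpos : ∀ (a : Ty) (x y : P × H), ∃ u : D.Γ, D.wr (ka a) r (x⁻¹ * (u : P × H) * y) ≠ 0 := by
      intro a x y
      have hbr : b a ≤ r := (Finset.le_sup (Finset.mem_univ a)).trans hr
      have hr1 : 1 ≤ r := (hb a).trans hbr
      have e := (h4 D hD (ka a) (ka a) (hKB a).1.meas (hKB a).1.meas r).2.2.1 x y
      have hmem : r ∈ Finset.Icc r (4 * r) := Finset.mem_Icc.2 ⟨le_rfl, by omega⟩
      have hle : D.N (D.tk (ka a) r) x y ≤ D.N (D.wr (ka a) r) x y := by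
        rw [e]
        exact Finset.single_le_sum (f := fun n => D.N (D.tk (ka a) n) x y)
          (fun _ _ => zero_le) hmem
      have hp : D.N (D.wr (ka a) r) x y ≠ 0 :=
        ((hc' a).trans_le ((hN a r hbr x y).trans hle)).ne'
      by_contra hcon
      push Not at hcon
      refine hp ?_
      unfold Dat.N
      exact ENNReal.tsum_eq_zero.2 hcon
    intro hE
    unfold Dat.EE at hE
    rw [Finset.sum_eq_zero_iff] at hE
    obtain ⟨t₁, t₂, t₃, ht⟩ : ∃ t₁ t₂ t₃ : Ty, PT t₁ t₂ t₃ := ⟨_, _, _, Epos_PT⟩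
    have ht' := Epos_pt t₁ t₂ t₃ ht
    have hT := hE _ ht'
    refine Epos_T3 P H hD hcount hsig (hKC t₁ r).meas (hKC t₂ r).meas (hKC t₃ r).meas
      (fun u v w => ab (dl φ u v w)) ?_ hT
    intro x y
    obtain ⟨u, hu⟩ := hpos t₁ x y
    obtain ⟨v, hv⟩ := hpos t₂ x y
    obtain ⟨w, hw⟩ := hpos t₃ x y
    have hd : 0 < dl φ u v w := hφ _ ht' x y u v w hu hv hw
    refine ⟨u, v, w, hu, hv, hw, ?_⟩
    unfold ab
    exact (ENNReal.ofReal_pos.2 (abs_pos.2 hd.ne')).ne'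

end

end Pool.Agent.MPEF
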