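import Pool.Agent.Lib.MP_ef3f0f_gt.III.Spec

set_option autoImplicit false

/-!
# MP_ef3f0f_gt, Part III: finitely many pants
-/

namespace Pool.Agent.MPEF

open MeasureTheory Topology
open scoped ENNReal Pointwise

section

variable (P H : Type) [Group P] [Group H] [TopologicalSpace P] [TopologicalSpace H]
  [IsTopologicalGroup P] [IsTopologicalGroup H] [LocallyCompactSpace P] [LocallyCompactSpace H]
  [T2Space P] [T2Space H] [SecondCountableTopology P] [SecondCountableTopology H]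
  [MeasurableSpace P] [MeasurableSpace H] [BorelSpace P] [BorelSpace H]

attribute [local irreducible] PTs

private theorem Ffin_w {G : Type} [Group G] (x y u a b : G) :
    (a * x)⁻¹ * (a * u * b⁻¹) * (b * y) = x⁻¹ * u * y := by group

private theorem Ffin_ph {G : Type} [Group G] {φ : G → ℝ} (h : OddC φ) (a b u v : G) :
    ph φ (a * u * b⁻¹) (a * v * b⁻¹) = ph φ u v := by
  unfold ph
  rw [← h.conj a (u * v⁻¹)]
  congr 1
  group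

private theorem Ffin_mem {G : Type} [Group G] {K Z : Set G} {x y u : G} (hx : x ∈ K) (hy : y ∈ K)
    (hu : x⁻¹ * u * y ∈ Z) : u ∈ K * Z * K⁻¹ := by
  refine ⟨x * (x⁻¹ * u * y), ⟨x, hx, _, hu, rfl⟩, y⁻¹, Set.inv_mem_inv.2 hy, ?_⟩
  group

theorem tFfin (h1 : S_inst P H) (h2 : S_finK P H) (h3 : S_ker P H) : S_Ffin P H := by
  intro D hD G hG M ka kb hk r
  obtain ⟨-, -, -, -, -, -, -, -, K, hK, hcov⟩ := h1 D hD
  have hKB := (h3 D hD G hG M ka kb hk).1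
  have hKC : ∀ a : Ty, KC (D.wr (ka a) r) := fun a => (h2 D hD).2.1 (ka a) r (hKB a).1
  choose Z hZ hZ0 using fun a => (hKC a).supp
  have hZc : IsCompact (⋃ a : Ty, Z a) := isCompact_iUnion hZ
  have hC : IsCompact (K * (⋃ a : Ty, Z a) * K⁻¹) := (hK.mul hZc).mul hK.inv
  have hfin := hD.disc _ hC
  have hfin2 : {u : D.Γ | (u : P × H) ∈ K * (⋃ a : Ty, Z a) * K⁻¹}.Finite := by
    refine Set.Finite.subset (hfin.preimage (f := fun u : D.Γ => (u : P × H))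
      (Subtype.val_injective.injOn)) ?_
    intro u hu
    exact ⟨u.2, hu⟩
  have hmem : ∀ (a : Ty) (x y : P × H) (u : D.Γ), x ∈ K → y ∈ K →
      D.wr (ka a) r (x⁻¹ * (u : P × H) * y) ≠ 0 →
      (u : P × H) ∈ K * (⋃ a : Ty, Z a) * K⁻¹ := by
    intro a x y u hx hy hu
    refine Ffin_mem hx hy ?_
    by_contra hcon
    refine hu (hZ0 a _ fun hz => hcon (Set.mem_iUnion.2 ⟨a, hz⟩))
  obtain ⟨S, hSd⟩ : ∃ S : Set (D.Γ × D.Γ × D.Γ), ∀ q, q ∈ S ↔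
      ∃ t : Ty × Ty × Ty, ∃ x y : P × H, t ∈ PTs ∧ x ∈ K ∧ y ∈ K ∧
        (D.wr (ka t.1) r (x⁻¹ * (q.1 : P × H) * y) ≠ 0 ∧
        D.wr (ka t.2.1) r (x⁻¹ * (q.2.1 : P × H) * y) ≠ 0 ∧
        D.wr (ka t.2.2) r (x⁻¹ * (q.2.2 : P × H) * y) ≠ 0) := ⟨{q | _}, fun q => Iff.rfl⟩
  have hS : S.Finite := by
    refine Set.Finite.subset (hfin2.prod (hfin2.prod hfin2)) ?_
    intro q hq
    obtain ⟨t, x, y, ht, hx, hy, h1, h2, h3⟩ := (hSd q).1 hq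
    exact Set.mk_mem_prod (hmem _ x y _ hx hy h1)
      (Set.mk_mem_prod (hmem _ x y _ hx hy h2) (hmem _ x y _ hx hy h3))
  refine ⟨hS.toFinset, ?_, ?_⟩
  · intro q hq
    obtain ⟨t, x, y, ht, hx, hy, h⟩ := (hSd q).1 (hS.mem_toFinset.1 hq)
    exact ⟨t, ht, x, y, h⟩
  · intro φ hφ hpos t ht x y u v w hu hv hw
    obtain ⟨γ, hγ, hγx⟩ := hcov x
    obtain ⟨γ', hγ', hγy⟩ := hcov y
    have hq := hpos (⟨γ, hγ⟩ * u * (⟨γ', hγ'⟩ : D.Γ)⁻¹, ⟨γ, hγ⟩ * v * (⟨γ', hγ'⟩ : D.Γ)⁻¹,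
      ⟨γ, hγ⟩ * w * (⟨γ', hγ'⟩ : D.Γ)⁻¹) (hS.mem_toFinset.2 <| (hSd _).2 ⟨t, γ * x, γ' * y, ht, hγx, hγy, by
        refine ⟨?_, ?_, ?_⟩
        · simpa only [Subgroup.coe_mul, InvMemClass.coe_inv, Ffin_w] using hu
        · simpa only [Subgroup.coe_mul, InvMemClass.coe_inv, Ffin_w] using hv
        · simpa only [Subgroup.coe_mul, InvMemClass.coe_inv, Ffin_w] using hw⟩)
    have e : dl φ (⟨γ, hγ⟩ * u * (⟨γ', hγ'⟩ : D.Γ)⁻¹) (⟨γ, hγ⟩ * v * (⟨γ', hγ'⟩ : D.Γ)⁻¹)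
        (⟨γ, hγ⟩ * w * (⟨γ', hγ'⟩ : D.Γ)⁻¹) = dl φ u v w := by
      unfold dl
      rw [Ffin_ph hφ, Ffin_ph hφ, Ffin_ph hφ]
    rw [← e]
    exact hq

end

end Pool.Agent.MPEF
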