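import Pool.Agent.Lib.MP_ef3f0f_gt.III.Spec
import Pool.Agent.Lib.MP_ef3f0f_gt.F.Spec

set_option autoImplicit false

/-!
# MP_ef3f0f_gt: `S_Final` from the theorem for `SL₂(ℝ)` and the lifting of the lattice
-/

namespace Pool.Agent.MPEF

theorem tFinal (h1 : S_SLfin) (h2 : S_pre) (h3 : S_post) : S_Final := by
  intro H _ _ _ _ _ _ hK Γ hd hc hD
  obtain ⟨hd', hc', hD'⟩ := h2 H Γ hd hc hD
  obtain ⟨g, hg, f, hf, hf1⟩ := h1 H hK (Γ.comap (prj H)) hd' hc' hD'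
  obtain ⟨f', hf', hi⟩ := h3 H Γ g (f.codRestrict (Γ.comap (prj H)) hf) fun x hx => hf1 x hx
  exact ⟨g, hg, f', hf', hi⟩

end Pool.Agent.MPEF
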