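import Pool.Agent.Lib.MP_ef3f0f_gt.III.Spec

set_option autoImplicit false

/-! MP_ef3f0f_gt, Part III, module Flip: the flip in `SL₂(ℝ)`. -/

namespace Pool.Agent.MPEF

open MeasureTheory Topology
open scoped ENNReal Pointwise

private theorem Flip_tr_comm (g h : SL2) : tr2 (g * h) = tr2 (h * g) := by
  unfold tr2
  rw [Matrix.SpecialLinearGroup.coe_mul, Matrix.SpecialLinearGroup.coe_mul, Matrix.mul_apply,
    Matrix.mul_apply, Matrix.mul_apply, Matrix.mul_apply, Fin.sum_univ_two, Fin.sum_univ_two,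
    Fin.sum_univ_two, Fin.sum_univ_two]
  ring

private theorem Flip_tr_conj (g l : SL2) : tr2 (g * l * g⁻¹) = tr2 l := by
  rw [Flip_tr_comm, inv_mul_cancel_left]

theorem tFlip (h1 : S_diag) (h2 : S_mp) (h3 : S_slflow) : S_Flip := by
  intro μ hμ
  obtain ⟨a, J, t, hac, haa, hJa, htm, hta, htJ, htd, hJd, had, hlast⟩ := h3
  have hch : ∀ l : SL2, ∃ h : SL2, 2 < |tr2 l| →
      ∃ (m : ℝ) (hm : m ≠ 0), 1 < |m| ∧ l = h * dgl m hm * h⁻¹ := by
    intro l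
    by_cases hl : 2 < |tr2 l|
    · obtain ⟨m, hm, h, hm1, hlh⟩ := h1 l hl
      exact ⟨h, fun _ => ⟨m, hm, hm1, hlh⟩⟩
    · exact ⟨1, fun h => absurd h hl⟩
  choose H hH using hch
  obtain ⟨T0, hT0⟩ : ∃ T0 : SL2 → SL2, T0 = fun y => a (2 * t y) * J * y := ⟨_, rfl⟩
  -- the flow commutes with the inverses of diagonal matrices
  have hadi : ∀ (l : ℝ) (hl : l ≠ 0) (s : ℝ), a s * (dgl l hl)⁻¹ = (dgl l hl)⁻¹ * a s := by
    intro l hl s
    rw [mul_inv_eq_iff_eq_mul, mul_assoc, had, inv_mul_cancel_left]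
  have hA : ∀ (c : ℝ) (hc : c ≠ 0) (y : SL2), T0 (dgl c hc * y) = dgl c hc * T0 y := by
    intro c hc y
    rw [hT0]
    show a (2 * t (dgl c hc * y)) * J * (dgl c hc * y) = dgl c hc * (a (2 * t y) * J * y)
    rw [htd, mul_add, haa, (hJd c hc).2.2]
    calc dgl c hc * dgl c hc * a (2 * t y) * J * (dgl c hc * y)
        = dgl c hc * dgl c hc * a (2 * t y) * (J * dgl c hc) * y := by simp only [mul_assoc]
      _ = dgl c hc * dgl c hc * (a (2 * t y) * (dgl c hc)⁻¹) * J * y := by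
          rw [(hJd c hc).1]
          simp only [mul_assoc]
      _ = dgl c hc * (a (2 * t y) * J * y) := by
          rw [hadi]
          simp only [mul_assoc, mul_inv_cancel_left]
  have hB : ∀ (l h h' : SL2) (m m' : ℝ) (hm : m ≠ 0) (hm' : m' ≠ 0), 1 < |m| → 1 < |m'| →
      l = h * dgl m hm * h⁻¹ → l = h' * dgl m' hm' * h'⁻¹ →
      ∀ x, h' * T0 (h'⁻¹ * x) = h * T0 (h⁻¹ * x) := by
    intro l h h' m m' hm hm' h1m h1m' hl hl' x
    have hg : h⁻¹ * h' * dgl m' hm' * (h⁻¹ * h')⁻¹ = dgl m hm := by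
      have e1 : h' * dgl m' hm' * h'⁻¹ = h * dgl m hm * h⁻¹ := by rw [← hl, ← hl']
      calc h⁻¹ * h' * dgl m' hm' * (h⁻¹ * h')⁻¹ = h⁻¹ * (h' * dgl m' hm' * h'⁻¹) * h := by
            group
        _ = dgl m hm := by
            rw [e1]
            group
    obtain ⟨-, c, hc, hgc⟩ := hlast m m' hm hm' _ h1m h1m' hg
    have hh' : h' = h * dgl c hc := by rw [← hgc, mul_inv_cancel_left]
    have e2 : T0 (h⁻¹ * x) = dgl c hc * T0 ((dgl c hc)⁻¹ * (h⁻¹ * x)) := by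
      rw [← hA, mul_inv_cancel_left]
    rw [hh', mul_inv_rev, e2]
    simp only [mul_assoc]
  have hTm : Measurable T0 := by
    rw [hT0]
    exact ((hac.measurable.comp (htm.const_mul 2)).mul_const J).mul measurable_id
  refine ⟨fun l x => H l * T0 ((H l)⁻¹ * x), ?_, ?_, ?_, ?_, ?_⟩
  · intro l _
    exact (hTm.comp (measurable_const_mul _)).const_mul _
  · intro l _ f hf
    show ∫⁻ x, f (H l * T0 ((H l)⁻¹ * x)) ∂μ = ∫⁻ x, f x ∂μ
    rw [lintegral_mul_left_eq_self (μ := μ) (fun x => f (H l * T0 x)) (H l)⁻¹]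
    have e1 := h2 SL2 μ a J t hac.measurable haa hJa htm hta htJ (fun y => f (H l * y))
      (hf.comp (measurable_const_mul _))
    rw [hT0]
    refine e1.trans ?_
    exact lintegral_mul_left_eq_self (μ := μ) f (H l)
  · intro l hl g x
    have hl' : 2 < |tr2 (g * l * g⁻¹)| := by rw [Flip_tr_conj]; exact hl
    obtain ⟨m, hm, h1m, hlm⟩ := hH l hl
    obtain ⟨m', hm', h1m', hlm'⟩ := hH _ hl'
    have e1 : g * l * g⁻¹ = (g * H l) * dgl m hm * (g * H l)⁻¹ := by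
      conv_lhs => rw [hlm]
      group
    have e2 := hB _ (g * H l) (H (g * l * g⁻¹)) m m' hm hm' h1m h1m' e1 hlm' (g * x)
    show H (g * l * g⁻¹) * T0 ((H (g * l * g⁻¹))⁻¹ * (g * x)) = g * (H l * T0 ((H l)⁻¹ * x))
    rw [e2, mul_assoc]
    congr 3
    group
  · intro l hl x
    obtain ⟨m, hm, h1m, hlm⟩ := hH l hl
    show (H l * T0 ((H l)⁻¹ * x))⁻¹ * l⁻¹ * (H l * T0 ((H l)⁻¹ * x)) = x⁻¹ * l * x
    obtain ⟨h, hh⟩ : ∃ h, h = H l := ⟨_, rfl⟩
    rw [← hh] at hlm ⊢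
    obtain ⟨y, hy⟩ : ∃ y, y = h⁻¹ * x := ⟨_, rfl⟩
    obtain ⟨s, hs⟩ : ∃ s, s = 2 * t y := ⟨_, rfl⟩
    have hTy : T0 y = a s * J * y := by rw [hT0, hs]
    have hx : x = h * y := by rw [hy, mul_inv_cancel_left]
    have e1 : J⁻¹ * (dgl m hm)⁻¹ * J = dgl m hm := by
      rw [mul_assoc, ← (hJd m hm).1, inv_mul_cancel_left]
    have e2 : (a s)⁻¹ * (dgl m hm)⁻¹ * a s = (dgl m hm)⁻¹ := by
      rw [mul_assoc, ← hadi, inv_mul_cancel_left]
    rw [← hy, hTy, hlm, hx]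
    calc (h * (a s * J * y))⁻¹ * (h * dgl m hm * h⁻¹)⁻¹ * (h * (a s * J * y))
        = y⁻¹ * (J⁻¹ * ((a s)⁻¹ * (dgl m hm)⁻¹ * a s) * J) * y := by group
      _ = y⁻¹ * dgl m hm * y := by rw [e2, e1]
      _ = (h * y)⁻¹ * (h * dgl m hm * h⁻¹) * (h * y) := by group
  · intro l hl g
    show 2 < |tr2 (g * l * g⁻¹)|
    rw [Flip_tr_conj]
    exact hl

end Pool.Agent.MPEF
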