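import Pool.Agent.Lib.MP_ef3f0f_gt.III.Spec

/-!
MP_ef3f0f_gt, part III: Gordan's theorem over the rational numbers (`S_Gordan`).
-/

set_option autoImplicit false

namespace Pool.Agent.MPEF

open MeasureTheory Topology
open scoped ENNReal Pointwise

private theorem gordan_aux (V ι : Type) [AddCommGroup V] [Module ℚ V] (s : Finset ι) :
    ∀ x : ι → V, (∃ f : V →ₗ[ℚ] ℚ, ∀ i ∈ s, 0 < f (x i)) ∨
      ∃ c : ι → ℚ, (∀ i, 0 ≤ c i) ∧ (∃ i ∈ s, c i ≠ 0) ∧ ∑ i ∈ s, c i • x i = 0 := by
  classical
  induction s using Finset.induction_on with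
  | empty =>
    intro x
    exact Or.inl ⟨0, fun i hi => absurd hi (Finset.notMem_empty i)⟩
  | insert a s ha ih =>
    intro x
    rcases ih x with ⟨f, hf⟩ | ⟨c, hc, ⟨i, hi, hci⟩, hs⟩
    swap
    · refine Or.inr ⟨fun j => if j ∈ s then c j else 0, fun j => ?_, ⟨i, Finset.mem_insert_of_mem hi, ?_⟩, ?_⟩
      · dsimp only
        by_cases hj : j ∈ s
        · rw [if_pos hj]
          exact hc j
        · rw [if_neg hj]
      · dsimp only
        rw [if_pos hi]
        exact hci
      · dsimp only
        rw [Finset.sum_insert ha, if_neg ha, zero_smul, zero_add, ← hs]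
        exact Finset.sum_congr rfl fun j hj => by rw [if_pos hj]
    rcases lt_or_ge 0 (f (x a)) with hfa | hfa
    · refine Or.inl ⟨f, fun i hi => ?_⟩
      rcases Finset.mem_insert.1 hi with rfl | hi
      · exact hfa
      · exact hf i hi
    rcases s.eq_empty_or_nonempty with hse | hsne
    · subst hse
      by_cases hxa : x a = 0
      · refine Or.inr ⟨fun _ => 1, fun _ => zero_le_one, ⟨a, Finset.mem_insert_self _ _, one_ne_zero⟩, ?_⟩
        rw [Finset.sum_insert ha, Finset.sum_empty, add_zero, one_smul, hxa]
      · left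
        have h1 : ∃ φ : Module.Dual ℚ V, φ (x a) ≠ 0 := by
          by_contra hcon
          push Not at hcon
          exact hxa ((Module.forall_dual_apply_eq_zero_iff ℚ (x a)).1 hcon)
        obtain ⟨φ, hφ⟩ := h1
        rcases lt_or_gt_of_ne hφ with h | h
        · refine ⟨-φ, fun i hi => ?_⟩
          rcases Finset.mem_insert.1 hi with rfl | hi
          · rw [LinearMap.neg_apply]
            linarith
          · exact absurd hi (Finset.notMem_empty i)
        · refine ⟨φ, fun i hi => ?_⟩
          rcases Finset.mem_insert.1 hi with rfl | hi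
          · exact h
          · exact absurd hi (Finset.notMem_empty i)
    rcases ih (fun i => f (x i) • x a - f (x a) • x i) with ⟨g, hg⟩ | ⟨c, hc, ⟨i, hi, hci⟩, hs⟩
    · left
      have hg' : ∀ i ∈ s, f (x a) * g (x i) < f (x i) * g (x a) := by
        intro i hi
        have h := hg i hi
        simp only [map_sub, map_smul, smul_eq_mul] at h
        linarith
      rcases lt_or_eq_of_le hfa with hfa | hfa
      · -- `f (x a) < 0`
        have key : ∀ i ∈ s, g (x a) / f (x a) < g (x i) / f (x i) := by
          intro i hi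
          have h1 := hf i hi
          have h2 := hg' i hi
          rw [div_lt_iff_of_neg hfa, mul_comm, ← mul_div_assoc, div_lt_iff₀ h1]
          linarith
        have hex : ∃ q : ℚ, g (x a) / f (x a) < q ∧ ∀ i ∈ s, q < g (x i) / f (x i) := by
          have h1 : ∀ᶠ q : ℚ in 𝓝[>] (g (x a) / f (x a)), ∀ i ∈ s, q < g (x i) / f (x i) := by
            rw [Filter.eventually_all_finset]
            intro i hi
            exact (eventually_lt_nhds (key i hi)).filter_mono nhdsWithin_le_nhds
          have h2 : ∀ᶠ q : ℚ in 𝓝[>] (g (x a) / f (x a)), g (x a) / f (x a) < q :=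
            self_mem_nhdsWithin
          exact (h2.and h1).exists
        obtain ⟨q, hq1, hq2⟩ := hex
        refine ⟨g - q • f, fun i hi => ?_⟩
        rw [LinearMap.sub_apply, LinearMap.smul_apply, smul_eq_mul]
        rcases Finset.mem_insert.1 hi with rfl | hi
        · rw [div_lt_iff_of_neg hfa] at hq1
          linarith
        · have h1 := hq2 i hi
          rw [lt_div_iff₀ (hf i hi)] at h1
          linarith
      · -- `f (x a) = 0`
        obtain ⟨i0, hi0⟩ := hsne
        have hga : 0 < g (x a) := by
          have h1 := hg' i0 hi0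
          rw [hfa, zero_mul] at h1
          exact (pos_iff_pos_of_mul_pos h1).1 (hf i0 hi0)
        have hex : ∃ N : ℚ, ∀ i ∈ s, - g (x i) / f (x i) < N := by
          have h1 : ∀ᶠ N : ℚ in Filter.atTop, ∀ i ∈ s, - g (x i) / f (x i) < N := by
            rw [Filter.eventually_all_finset]
            intro i hi
            exact Filter.eventually_gt_atTop _
          exact h1.exists
        obtain ⟨N, hN⟩ := hex
        refine ⟨g + N • f, fun i hi => ?_⟩
        rw [LinearMap.add_apply, LinearMap.smul_apply, smul_eq_mul]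
        rcases Finset.mem_insert.1 hi with rfl | hi
        · rw [hfa, mul_zero, add_zero]
          exact hga
        · have h1 := hN i hi
          rw [div_lt_iff₀ (hf i hi)] at h1
          linarith
    · right
      have hpos : 0 < ∑ j ∈ s, c j * f (x j) := by
        refine Finset.sum_pos' (fun j hj => mul_nonneg (hc j) (hf j hj).le) ⟨i, hi, ?_⟩
        exact mul_pos (lt_of_le_of_ne (hc i) (Ne.symm hci)) (hf i hi)
      refine ⟨fun j => if j = a then ∑ j ∈ s, c j * f (x j) else c j * (-f (x a)), fun j => ?_,
        ⟨a, Finset.mem_insert_self _ _, ?_⟩, ?_⟩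
      · dsimp only
        by_cases hj : j = a
        · rw [if_pos hj]
          exact hpos.le
        · rw [if_neg hj]
          exact mul_nonneg (hc j) (by linarith)
      · dsimp only
        rw [if_pos rfl]
        exact hpos.ne'
      · dsimp only
        rw [Finset.sum_insert ha, if_pos rfl]
        have e1 : ∑ j ∈ s, (if j = a then ∑ j ∈ s, c j * f (x j) else c j * (-f (x a))) • x j =
            ∑ j ∈ s, (c j * (-f (x a))) • x j :=
          Finset.sum_congr rfl fun j hj => by
            have hja : j ≠ a := by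
              rintro rfl
              exact ha hj
            rw [if_neg hja]
        rw [e1, Finset.sum_smul, ← Finset.sum_add_distrib, ← hs]
        refine Finset.sum_congr rfl fun j _ => ?_
        rw [smul_sub, smul_smul, smul_smul, mul_neg, neg_smul, sub_eq_add_neg]

theorem tGordan : S_Gordan := by
  intro V ι _ _ _ x
  rcases gordan_aux V ι Finset.univ x with ⟨f, hf⟩ | ⟨c, hc, ⟨i, -, hi⟩, hs⟩
  · exact Or.inl ⟨f, fun i => hf i (Finset.mem_univ i)⟩
  right
  have hD : (∏ j, (c j).den) ≠ 0 := Finset.prod_ne_zero_iff.2 fun j _ => (c j).den_ne_zero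
  have h1 : ∀ j, ∃ n : ℕ, (n : ℚ) = ((∏ j, (c j).den : ℕ) : ℚ) * c j := by
    intro j
    obtain ⟨k, hk⟩ := Finset.dvd_prod_of_mem (fun j => (c j).den) (Finset.mem_univ j)
    refine ⟨k * (c j).num.toNat, ?_⟩
    have h2 : ((c j).num.toNat : ℤ) = (c j).num := Int.toNat_of_nonneg (Rat.num_nonneg.2 (hc j))
    have h3 : (((c j).num.toNat : ℕ) : ℚ) = ((c j).num : ℚ) := by
      exact_mod_cast congrArg (fun z : ℤ => (z : ℚ)) h2
    have h4 : ((c j).den : ℚ) * c j = (c j).num := Rat.den_mul_eq_num (c j)
    rw [hk]
    push_cast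
    rw [h3, ← h4]
    ring
  choose n hn using h1
  refine ⟨n, ?_, ?_⟩
  · intro h0
    have h2 := hn i
    rw [h0] at h2
    simp only [Pi.zero_apply, Nat.cast_zero] at h2
    have h3 : ((∏ j, (c j).den : ℕ) : ℚ) ≠ 0 := by exact_mod_cast hD
    exact (mul_ne_zero h3 hi) h2.symm
  · have e1 : ∀ j, n j • x j = ((∏ j, (c j).den : ℕ) : ℚ) • (c j • x j) := by
      intro j
      rw [← Nat.cast_smul_eq_nsmul ℚ, hn j, smul_smul]
    simp only [e1]
    rw [← Finset.smul_sum, hs, smul_zero]

end Pool.Agent.MPEF
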