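import Pool.Agent.Lib.MP_ef3f0f_gt.III.Spec

set_option autoImplicit false

/-!
# MP_ef3f0f_gt, Part III: the contradiction III.3
-/

namespace Pool.Agent.MPEF

open MeasureTheory Topology
open scoped ENNReal Pointwise

section General

variable (P H : Type) [Group P] [Group H] [TopologicalSpace P] [TopologicalSpace H]
  [IsTopologicalGroup P] [IsTopologicalGroup H] [LocallyCompactSpace P] [LocallyCompactSpace H]
  [T2Space P] [T2Space H] [SecondCountableTopology P] [SecondCountableTopology H]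
  [MeasurableSpace P] [MeasurableSpace H] [BorelSpace P] [BorelSpace H]

private theorem iii3_est (C C' R E E2 A X : ℝ≥0∞) (hX : X ≤ C * R * (3 * E * A + C' * E2 * A))
    (h : C * (3 + C') * R * (E + E2) ≤ 2⁻¹) : X ≤ 2⁻¹ * A := by
  refine hX.trans ?_
  have h1 : C * R * (3 * E * A + C' * E2 * A) ≤ C * (3 + C') * R * (E + E2) * A := by
    have h2 : 3 * E * A + C' * E2 * A ≤ (3 + C') * (E + E2) * A := by
      have : (3 + C') * (E + E2) * A = (3 * E * A + C' * E2 * A) + (C' * E * A + 3 * E2 * A) := by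
        ring
      rw [this]
      exact le_self_add
    calc C * R * (3 * E * A + C' * E2 * A) ≤ C * R * ((3 + C') * (E + E2) * A) := by gcongr
      _ = C * (3 + C') * R * (E + E2) * A := by ring
  exact h1.trans (by gcongr)

private theorem iii3_zero (c X : ℝ≥0∞) (hc : c ≠ ∞) (h : ∀ k : ℕ, X ≤ c * 2⁻¹ ^ k) : X = 0 := by
  have h1 : Filter.Tendsto (fun k : ℕ => c * (2⁻¹ : ℝ≥0∞) ^ k) Filter.atTop (nhds (c * 0)) :=
    ENNReal.Tendsto.const_mul
      (ENNReal.tendsto_pow_atTop_nhds_zero_of_lt_one (by norm_num)) (Or.inr hc)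
  rw [mul_zero] at h1
  exact le_antisymm (ge_of_tendsto' h1 h) bot_le

theorem tIII3 (h1 : S_er) (h2 : S_IIIa P H) (h3 : S_IIIb P H) (h4 : S_hsub P H)
    (h5 : S_Epos P H) : S_III3 P H := by
  intro D hD G hG hBal M ka kb hK hne e hR hEa hEb hCo
  obtain ⟨C, r₀, hC, hCo⟩ := hCo
  obtain ⟨C', hC', h3'⟩ := h3 D hD G hG hBal M ka kb hK
  obtain ⟨hAA, r₂, hE⟩ := h5 D hD G hG M ka kb hK hne
  obtain ⟨r₁, hr₁⟩ := h1 e hR (C * (3 + C'))
    (ENNReal.mul_ne_top hC (ENNReal.add_ne_top.2 ⟨by norm_num, hC'⟩))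
  refine ⟨max (max r₀ r₂) (max r₁ 3), fun r hr φ hφ hpos => ?_⟩
  have hr0 : r₀ ≤ r := le_trans (le_trans (le_max_left _ _) (le_max_left _ _)) hr
  have hr2 : r₂ ≤ r := le_trans (le_trans (le_max_right _ _) (le_max_left _ _)) hr
  have hr1 : r₁ ≤ r := le_trans (le_trans (le_max_left _ _) (le_max_right _ _)) hr
  have hr3 : 3 ≤ r := le_trans (le_trans (le_max_right _ _) (le_max_right _ _)) hr
  obtain ⟨hsmall, hfin⟩ := hr₁ r hr1
  have claim : ∀ k : ℕ, ∃ h : D.Γ → ℝ, (∀ x y, h (x * y) = h x + h y) ∧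
      D.AA ka r (fun x => φ x - h x) ≤ 2⁻¹ ^ k * D.AA ka r φ := by
    intro k
    induction k with
    | zero => exact ⟨fun _ => 0, fun _ _ => by simp, by simp⟩
    | succ k ih =>
      obtain ⟨h, hh, hle⟩ := ih
      obtain ⟨hφ', hdl, hEE, hPos⟩ := h4 D φ h hφ hh
      have hpos' := hPos ka r hpos
      set φ' : D.Γ → ℝ := fun x => φ x - h x with hφ'def
      obtain ⟨hQ1, hQ2⟩ := h3' e hEb r (by omega) φ' hφ'
      obtain ⟨h', hh', hA⟩ := hCo r hr0 φ' hφ' _ hQ1 hQ2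
      have hEE' := h2 D hD G hG hBal M ka kb hK e hEa r hr3 φ' hφ' hpos'
      refine ⟨fun x => h x + h' x, fun x y => by
        simp only [hh, hh']
        ring, ?_⟩
      have hfun : (fun x => φ x - (h x + h' x)) = fun x => φ' x - h' x := by
        funext x
        simp only [hφ'def]
        ring
      rw [hfun]
      have hX : D.AA ka r (fun x => φ' x - h' x) ≤ 2⁻¹ * D.AA ka r φ' := by
        refine iii3_est C C' ((r : ℝ≥0∞) ^ 3) (er e r) (e (2 * r)) _ _ (hA.trans ?_) hsmall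
        gcongr
      calc D.AA ka r (fun x => φ' x - h' x) ≤ 2⁻¹ * D.AA ka r φ' := hX
        _ ≤ 2⁻¹ * (2⁻¹ ^ k * D.AA ka r φ) := by gcongr
        _ = 2⁻¹ ^ (k + 1) * D.AA ka r φ := by rw [pow_succ']; ring
  apply hE r hr2 φ hpos
  apply iii3_zero (3 * er e r * D.AA ka r φ)
  · exact ENNReal.mul_ne_top (ENNReal.mul_ne_top (by norm_num) hfin) (hAA r φ)
  · intro k
    obtain ⟨h, hh, hle⟩ := claim k
    obtain ⟨hφ', hdl, hEE, hPos⟩ := h4 D φ h hφ hh
    rw [← hEE ka r]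
    refine (h2 D hD G hG hBal M ka kb hK e hEa r hr3 _ hφ' (hPos ka r hpos)).trans ?_
    calc 3 * er e r * D.AA ka r (fun x => φ x - h x)
        ≤ 3 * er e r * (2⁻¹ ^ k * D.AA ka r φ) := by gcongr
      _ = _ := by ring

end General

end Pool.Agent.MPEF
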