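import Pool.Agent.Lib.MP_ef3f0f_gt.III.Spec

set_option autoImplicit false

/-!
# MP_ef3f0f_gt, Part III: III.4, the pants and the matching (helper73)
-/

namespace Pool.Agent.MPEF

open MeasureTheory Topology
open scoped ENNReal Pointwise

private theorem iii4_tr (x a : SL2) : tr2 (x * a * x⁻¹) = tr2 a := by
  have h : ∀ g : SL2, tr2 g = Matrix.trace g.1 := fun g => (Matrix.trace_fin_two g.1).symm
  rw [h, h]
  have h1 : (x * a * x⁻¹ : SL2).1 = x.1 * a.1 * (x⁻¹ : SL2).1 := rfl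
  have h2 : (x⁻¹ : SL2).1 * x.1 = 1 := by
    have h3 : ((x⁻¹ * x : SL2)).1 = 1 := by rw [inv_mul_cancel]; rfl
    exact h3
  rw [h1, Matrix.trace_mul_cycle, h2, one_mul]

private theorem iii4_sm (x a : SL2) (z : V2) : (x * a * x⁻¹) • x • z = x • a • z := by
  rw [mul_smul, mul_smul, inv_smul_smul]

private theorem iii4_ph (h1 : S_cyc) {a b : SL2} {z : V2} (x : SL2) (h : PH a b z) :
    PH (x * a * x⁻¹) (x * b * x⁻¹) (x • z) := by
  have hab : x * a * x⁻¹ * (x * b * x⁻¹) = x * (a * b) * x⁻¹ := by group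
  have hdet := h1.1 x
  refine ⟨?_, ?_, ?_, ?_, ?_, ?_, ?_⟩
  · rw [iii4_tr]
    exact h.ta
  · rw [iii4_tr]
    exact h.tb
  · rw [hab, iii4_tr]
    exact h.tc
  · rw [iii4_tr, iii4_sm, iii4_sm, hdet]
    exact h.pa
  · rw [iii4_tr, iii4_sm, hdet]
    exact h.pb
  · rw [hab, iii4_tr, iii4_sm, iii4_sm, hdet]
    exact h.pc
  · rw [iii4_sm, iii4_sm]
    unfold cyc
    rw [hdet, hdet, hdet]
    exact h.cy

section SL

variable (H : Type) [Group H] [TopologicalSpace H] [IsTopologicalGroup H]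
  [LocallyCompactSpace H] [T2Space H] [SecondCountableTopology H] [MeasurableSpace H]
  [BorelSpace H]

theorem tIII4 (h1 : S_cyc) (h2 : S_Pants) (h3 : S_Match) (h4 : S_Ffin SL2 H) : S_III4 H := by
  intro D hD G hG M hPW ka kb hK r hno
  obtain ⟨F, hF1, hF2⟩ := h4 D hD G hG M ka kb hK r
  let d : {q // q ∈ F} → Fin 3 → D.Γ :=
    fun q => ![q.1.1 * q.1.2.1⁻¹, q.1.2.1 * q.1.2.2⁻¹, q.1.2.2 * q.1.1⁻¹]
  rcases h3 D.Γ {q // q ∈ F} d with ⟨φ, hφ, hpos⟩ | ⟨n, hn, f, σ, hσ1, hσ2, hσ3⟩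
  · exact absurd (hF2 φ hφ fun q hq => hpos ⟨q, hq⟩) (hno φ hφ)
  · refine ⟨n, hn, fun i => d (f i), fun i => ?_, σ, hσ1, hσ2, hσ3⟩
    change St arcSL (prD D) 0 3 (d (f i))
    generalize f i = q
    obtain ⟨⟨u, v, w⟩, hq⟩ := q
    obtain ⟨t, h0⟩ := hF1 _ hq
    rw [PTs, Finset.mem_filter] at h0
    obtain ⟨⟨-, ht'⟩, x, y, hu, hv, hw⟩ := h0
    have key : ∀ (a : Ty) (g : D.Γ), D.wr (ka a) r (x⁻¹ * (g : SL2 × H) * y) ≠ 0 →
        x.1⁻¹ * (g : SL2 × H).1 * y.1 ∈ G.Om M a 0 := by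
      intro a g hg
      by_contra hc
      apply hg
      have := hK.as a _ hc
      change ka a (x.1⁻¹ * (g : SL2 × H).1 * y.1) * _ = 0
      rw [this, zero_mul]
    obtain ⟨z, hz⟩ := hPW _ _ _ ht' _ (key _ _ hu) _ (key _ _ hv) _ (key _ _ hw)
    have h5 := iii4_ph h1 x.1 hz
    have h6 : ∀ g g' : D.Γ, x.1 * (x.1⁻¹ * (g : SL2 × H).1 * y.1 *
        (x.1⁻¹ * (g' : SL2 × H).1 * y.1)⁻¹) * x.1⁻¹ = prD D (g * g'⁻¹) := by
      intro g g'
      have h7 : prD D (g * g'⁻¹) = (g : SL2 × H).1 * ((g' : SL2 × H).1)⁻¹ := rfl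
      rw [h7]
      group
    rw [h6, h6] at h5
    have h8 := h2 D.Γ (prD D) _ _ _ h5
    have h9 : (u * v⁻¹ * (v * w⁻¹))⁻¹ = w * u⁻¹ := by group
    rw [h9] at h8
    exact h8

end SL

end Pool.Agent.MPEF
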