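import Pool.Agent.Lib.MP_ef3f0f_gt.III.Spec

set_option autoImplicit false

/-!
# MP_ef3f0f_gt, Part III: III.2 (i)
-/

namespace Pool.Agent.MPEF

open MeasureTheory Topology
open scoped ENNReal Pointwise

private theorem IIIa_pos5 {a b c : Fin 5} (h : posF a b c) : posF b c a := by
  unfold posF at *
  obtain ⟨a, ha⟩ := a
  obtain ⟨b, hb⟩ := b
  obtain ⟨c, hc⟩ := c
  simp only [Fin.val_sub] at *
  omega

private theorem IIIa_pos16 {a b c : Fin 16} (h : posF a b c) : posF b c a := by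
  unfold posF at *
  obtain ⟨a, ha⟩ := a
  obtain ⟨b, hb⟩ := b
  obtain ⟨c, hc⟩ := c
  simp only [Fin.val_sub] at *
  omega

private theorem IIIa_rot {a b c : Ty} (h : PT a b c) : PT b c a := by
  obtain ⟨h1, h2, h3, h4, h5⟩ := h
  exact ⟨IIIa_pos5 h1, IIIa_pos16 (IIIa_pos16 h2), h4, ⟨h5.2, h5.1⟩, ⟨h3.2, h3.1⟩⟩

private theorem IIIa_Cp {a b c : Ty} (h : PT a b c) : Cp a b := by
  refine ⟨?_, h.2.2.1⟩
  intro e
  have h1 := h.1.1
  rw [e, sub_self] at h1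
  exact lt_irrefl _ h1

attribute [local irreducible] PTs

private theorem IIIa_mem (t : Ty × Ty × Ty) : t ∈ PTs ↔ PT t.1 t.2.1 t.2.2 := by
  simp only [PTs, Finset.mem_filter, Finset.mem_univ, true_and]

private theorem IIIa_sum (f : Ty × Ty × Ty → ℝ≥0∞) :
    ∑ t ∈ PTs, f (t.2.1, t.2.2, t.1) = ∑ t ∈ PTs, f t := by
  refine Finset.sum_bij' (fun t _ => (t.2.1, t.2.2, t.1)) (fun t _ => (t.2.2, t.1, t.2.1))
    ?_ ?_ ?_ ?_ ?_
  · intro t ht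
    rw [IIIa_mem] at ht ⊢
    exact IIIa_rot ht
  · intro t ht
    rw [IIIa_mem] at ht ⊢
    exact IIIa_rot (IIIa_rot ht)
  · intro t _
    rfl
  · intro t _
    rfl
  · intro t _
    rfl

section

variable (P H : Type) [Group P] [Group H] [TopologicalSpace P] [TopologicalSpace H]
  [IsTopologicalGroup P] [IsTopologicalGroup H] [LocallyCompactSpace P] [LocallyCompactSpace H]
  [T2Space P] [T2Space H] [SecondCountableTopology P] [SecondCountableTopology H]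
  [MeasurableSpace P] [MeasurableSpace H] [BorelSpace P] [BorelSpace H]

private theorem IIIa_one {D : Dat P H} {K₁ K₂ K₃ : P × H → ℝ≥0∞} {φ : D.Γ → ℝ} {R : ℝ≥0∞}
    (hm : ∀ (Φ Ψ : D.Γ → D.Γ → D.Γ → ℝ≥0∞),
      (∀ (x y : P × H) (u v w : D.Γ), K₁ (x⁻¹ * (u : P × H) * y) ≠ 0 →
        K₂ (x⁻¹ * (v : P × H) * y) ≠ 0 → K₃ (x⁻¹ * (w : P × H) * y) ≠ 0 → Φ u v w ≤ Ψ u v w) →
        D.T3 K₁ K₂ K₃ Φ ≤ D.T3 K₁ K₂ K₃ Ψ) (h0 : D.T3 K₁ K₂ K₃ (fun _ _ _ => 0) = 0)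
    (hp : ∀ (x y : P × H) (u v w : D.Γ), K₁ (x⁻¹ * (u : P × H) * y) ≠ 0 →
        K₂ (x⁻¹ * (v : P × H) * y) ≠ 0 → K₃ (x⁻¹ * (w : P × H) * y) ≠ 0 → 0 < dl φ u v w)
    (hR : D.T3 K₁ K₂ K₃ (fun u v w => ENNReal.ofReal (dl φ u v w)) ≤
      D.T3 K₁ K₂ K₃ (fun u v w => ENNReal.ofReal (- dl φ u v w)) + R) :
    D.T3 K₁ K₂ K₃ (fun u v w => ab (dl φ u v w)) ≤ R := by
  have e1 : D.T3 K₁ K₂ K₃ (fun u v w => ab (dl φ u v w)) ≤
      D.T3 K₁ K₂ K₃ (fun u v w => ENNReal.ofReal (dl φ u v w)) := by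
    refine hm _ _ fun x y u v w hu hv hw => ?_
    show ENNReal.ofReal |dl φ u v w| ≤ ENNReal.ofReal (dl φ u v w)
    rw [abs_of_pos (hp x y u v w hu hv hw)]
  have e2 : D.T3 K₁ K₂ K₃ (fun u v w => ENNReal.ofReal (- dl φ u v w)) ≤ 0 := by
    rw [← h0]
    refine hm _ _ fun x y u v w hu hv hw => ?_
    have := hp x y u v w hu hv hw
    exact (ENNReal.ofReal_of_nonpos (by linarith)).le
  refine e1.trans (hR.trans ?_)
  calc _ ≤ 0 + R := by gcongr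
    _ = R := zero_add R

theorem tIIIa (h1 : S_T3m P H) (h2 : S_finK P H) (h3 : S_wr P H) (h4 : S_ker P H)
    (h5 : S_pair P H) (h6 : S_main P H) : S_IIIa P H := by
  intro D hD G hG hBal M ka kb hk e he r hr φ hφ hpos
  have hKB := (h4 D hD G hG M ka kb hk).1
  have hKC : ∀ a : Ty, KC (D.wr (ka a) r) := fun a => (h2 D hD).2.1 (ka a) r (hKB a).1
  obtain ⟨-, hmono, hzero⟩ := h1 D hD
  have hN : ∀ (a : Ty) (x y : P × H),
      D.N (D.wr (ka a) r) x y ≤ (∑ n ∈ Finset.Icc r (4 * r), ∫⁻ g, ka a g ∂D.μ₁) + er e r ∧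
      (∑ n ∈ Finset.Icc r (4 * r), ∫⁻ g, ka a g ∂D.μ₁) ≤ D.N (D.wr (ka a) r) x y + er e r := by
    intro a x y
    have hs := (h3 D hD (ka a) (ka a) (hKB a).1.meas (hKB a).1.meas r).2.2.1 x y
    rw [hs]
    unfold er
    rw [← Finset.sum_add_distrib, ← Finset.sum_add_distrib]
    refine ⟨Finset.sum_le_sum fun n hn => ?_, Finset.sum_le_sum fun n hn => ?_⟩
    · exact (he a n (hr.trans (Finset.mem_Icc.1 hn).1) x y).1
    · exact (he a n (hr.trans (Finset.mem_Icc.1 hn).1) x y).2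
  obtain ⟨A, hA⟩ : ∃ A : Ty × Ty × Ty → ℝ≥0∞, ∀ t, A t =
      D.T2 (D.wr (ka t.1) r) (D.wr (ka t.2.1) r) (fun u v => ab (ph φ u v)) := ⟨_, fun t => rfl⟩
  have hAA : D.AA ka r φ = ∑ t ∈ PTs, A t := by
    unfold Dat.AA
    exact Finset.sum_congr rfl fun t _ => (hA t).symm
  have hterm : ∀ t ∈ PTs, D.T3 (D.wr (ka t.1) r) (D.wr (ka t.2.1) r) (D.wr (ka t.2.2) r)
      (fun u v w => ab (dl φ u v w)) ≤
      er e r * (A t + A (t.2.1, t.2.2, t.1) + A (t.2.2, t.1, t.2.1)) := by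
    intro t ht
    have hPT := (IIIa_mem t).1 ht
    have hr1 : 1 ≤ r := by omega
    have hmain := (h6 D hD φ hφ (D.wr (ka t.1) r) (D.wr (ka t.2.1) r) (D.wr (ka t.2.2) r)
      _ _ _ (er e r) (hKC _) (hKC _) (hKC _) (hN t.1) (hN t.2.1) (hN t.2.2)
      ((h5 D hD G hG hBal M ka kb hk _ _ (IIIa_Cp hPT) φ hφ).1 r hr1)
      ((h5 D hD G hG hBal M ka kb hk _ _ (IIIa_Cp (IIIa_rot hPT)) φ hφ).1 r hr1)
      ((h5 D hD G hG hBal M ka kb hk _ _ (IIIa_Cp (IIIa_rot (IIIa_rot hPT))) φ hφ).1 r hr1)).1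
    rw [hA, hA, hA]
    exact IIIa_one P H (hmono _ _ _) (hzero _ _ _) (hpos t ht) hmain
  unfold Dat.EE
  refine (Finset.sum_le_sum hterm).trans ?_
  rw [← Finset.mul_sum, Finset.sum_add_distrib, Finset.sum_add_distrib, hAA]
  have s1 := IIIa_sum A
  have s2 : ∑ t ∈ PTs, A (t.2.2, t.1, t.2.1) = ∑ t ∈ PTs, A t := by
    rw [← s1]
    exact IIIa_sum fun t => A (t.2.1, t.2.2, t.1)
  rw [s1, s2]
  refine le_of_eq ?_
  ring

end

end Pool.Agent.MPEF
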