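import Pool.Agent.Lib.MP_ef3f0f_gt.III.Spec

set_option autoImplicit false
set_option maxRecDepth 20000

/-!
# MP_ef3f0f_gt, Part III: III.2 (ii)
-/

namespace Pool.Agent.MPEF

open MeasureTheory Topology
open scoped ENNReal Pointwise

private theorem IIIb_single {α : Type} (s : Finset α) (f : α → ℝ≥0∞) (t : α) (ht : t ∈ s) :
    f t ≤ ∑ x ∈ s, f x :=
  Finset.single_le_sum (fun _ _ => zero_le) ht

private theorem IIIb_mem (t : Ty × Ty × Ty) (hP : PT t.1 t.2.1 t.2.2) : t ∈ PTs := by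
  simp only [PTs, Finset.mem_filter, Finset.mem_univ, true_and]
  exact hP

private theorem IIIb_AA {P H : Type} [Group P] [Group H] [MeasurableSpace P] [MeasurableSpace H]
    (D : Dat P H) (ka : Ty → P → ℝ≥0∞) (r : ℕ) (φ : D.Γ → ℝ) (t : Ty × Ty × Ty) (ht : t ∈ PTs) :
    D.T2 (D.wr (ka t.1) r) (D.wr (ka t.2.1) r) (fun u v => ab (ph φ u v)) ≤ D.AA ka r φ := by
  unfold Dat.AA
  generalize PTs = S at ht ⊢
  exact IIIb_single S (fun t : Ty × Ty × Ty =>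
    D.T2 (D.wr (ka t.1) r) (D.wr (ka t.2.1) r) fun u v => ab (ph φ u v)) t ht

section General

variable (P H : Type) [Group P] [Group H] [TopologicalSpace P] [TopologicalSpace H]
  [IsTopologicalGroup P] [IsTopologicalGroup H] [LocallyCompactSpace P] [LocallyCompactSpace H]
  [T2Space P] [T2Space H] [SecondCountableTopology P] [SecondCountableTopology H]
  [MeasurableSpace P] [MeasurableSpace H] [BorelSpace P] [BorelSpace H]

private theorem IIIb_T2 (h1 : S_T3m P H) (h3 : S_wr P H) (D : Dat P H) (hD : D.Ok)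
    (ka kb : Ty → P → ℝ≥0∞) (hm : ∀ a, Measurable (ka a)) (C0 : ℝ≥0∞)
    (hc : ∀ a g, kb a g ≤ C0 * ka a g) (r : ℕ) (φ : D.Γ → ℝ) (a b c : Ty) (hP : PT a b c) :
    D.T2 (D.tk (kb a) (2 * r)) (D.tk (kb b) (2 * r)) (fun u v => ab (ph φ u v)) ≤
      C0 * C0 * D.AA ka r φ := by
  obtain ⟨ha, -, -, -, hwa⟩ := h3 D hD (ka a) (ka b) (hm a) (hm b) r
  obtain ⟨hb, -, -, -, hwb⟩ := h3 D hD (ka b) (ka a) (hm b) (hm a) r
  have hr : 2 * r ∈ Finset.Icc r (4 * r) := by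
    rw [Finset.mem_Icc]
    omega
  have hle : ∀ (x : Ty), (∀ g, D.tk (ka x) (2 * r) g ≤ D.wr (ka x) r g) →
      ∀ g, D.tk (kb x) (2 * r) g ≤ C0 * D.wr (ka x) r g := by
    intro x hx g
    calc D.tk (kb x) (2 * r) g = kb x g.1 * D.nu (2 * r) g.2 := rfl
      _ ≤ (C0 * ka x g.1) * D.nu (2 * r) g.2 := mul_le_mul_left (hc x g.1) _
      _ = C0 * D.tk (ka x) (2 * r) g := by
          rw [mul_assoc]
          rfl
      _ ≤ C0 * D.wr (ka x) r g := mul_le_mul_right (hx g) _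
  refine ((h1 D hD).1 _ _ _ _ C0 ha hb (hle a (hwa _ hr)) (hle b (hwb _ hr)) _).trans ?_
  refine mul_le_mul_right ?_ _
  exact IIIb_AA D ka r φ (a, b, c) (IIIb_mem (a, b, c) hP)

theorem tIIIb (h1 : S_T3m P H) (h2 : S_finK P H) (h3 : S_wr P H) (h4 : S_ker P H)
    (h5 : S_pair P H) (h6 : S_main P H) : S_IIIb P H := by
  intro D hD G hG hBal M ka kb hk
  obtain ⟨hKB, ⟨C0, hC0, hcmp⟩, -⟩ := h4 D hD G hG M ka kb hk
  refine ⟨3 * (C0 * C0), ENNReal.mul_ne_top (by norm_num) (ENNReal.mul_ne_top hC0 hC0), ?_⟩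
  intro e he r hr φ hφ
  have h12 : D.T2 (D.tk (kb (0, 12)) (2 * r)) (D.tk (kb (2, 0)) (2 * r))
      (fun u v => ab (ph φ u v)) ≤ C0 * C0 * D.AA ka r φ :=
    IIIb_T2 P H h1 h3 D hD ka kb hk.am C0 hcmp r φ (0, 12) (2, 0) (3, 14) (by decide)
  have h23 : D.T2 (D.tk (kb (2, 0)) (2 * r)) (D.tk (kb (3, 8)) (2 * r))
      (fun u v => ab (ph φ u v)) ≤ C0 * C0 * D.AA ka r φ :=
    IIIb_T2 P H h1 h3 D hD ka kb hk.am C0 hcmp r φ (2, 0) (3, 8) (4, 4) (by decide)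
  have h31 : D.T2 (D.tk (kb (3, 8)) (2 * r)) (D.tk (kb (0, 12)) (2 * r))
      (fun u v => ab (ph φ u v)) ≤ C0 * C0 * D.AA ka r φ :=
    IIIb_T2 P H h1 h3 D hD ka kb hk.am C0 hcmp r φ (3, 8) (0, 12) (1, 10) (by decide)
  have hsum : e (2 * r) * (D.T2 (D.tk (kb (0, 12)) (2 * r)) (D.tk (kb (2, 0)) (2 * r))
        (fun u v => ab (ph φ u v)) +
      D.T2 (D.tk (kb (2, 0)) (2 * r)) (D.tk (kb (3, 8)) (2 * r)) (fun u v => ab (ph φ u v)) +
      D.T2 (D.tk (kb (3, 8)) (2 * r)) (D.tk (kb (0, 12)) (2 * r)) (fun u v => ab (ph φ u v))) ≤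
      3 * (C0 * C0) * e (2 * r) * D.AA ka r φ := by
    calc _ ≤ e (2 * r) * (C0 * C0 * D.AA ka r φ + C0 * C0 * D.AA ka r φ +
          C0 * C0 * D.AA ka r φ) :=
          mul_le_mul_right (add_le_add (add_le_add h12 h23) h31) _
      _ = 3 * (C0 * C0) * e (2 * r) * D.AA ka r φ := by ring
  have hE : ∀ a : Ty, ∀ x y, D.N (D.tk (kb a) (2 * r)) x y ≤ (∫⁻ g, kb a g ∂D.μ₁) + e (2 * r) ∧
      (∫⁻ g, kb a g ∂D.μ₁) ≤ D.N (D.tk (kb a) (2 * r)) x y + e (2 * r) := fun a x y =>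
    he a (2 * r) (by omega) x y
  have hKC : ∀ a : Ty, KC (D.tk (kb a) (2 * r)) := fun a => (h2 D hD).1 _ _ (hKB a).2
  have hpair : ∀ a b : Ty, Cp a b →
      D.T2 (D.tk (kb a) (2 * r)) (D.tk (kb b) (2 * r)) (fun u v => ENNReal.ofReal (ph φ u v)) =
        D.T2 (D.tk (kb a) (2 * r)) (D.tk (kb b) (2 * r))
          (fun u v => ENNReal.ofReal (- ph φ u v)) := fun a b hab =>
    (h5 D hD G hG hBal M ka kb hk a b hab φ hφ).2 (2 * r) (by omega)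
  obtain ⟨hp, hn⟩ := h6 D hD φ hφ (D.tk (kb (0, 12)) (2 * r)) (D.tk (kb (2, 0)) (2 * r))
    (D.tk (kb (3, 8)) (2 * r)) _ _ _ (e (2 * r)) (hKC _) (hKC _) (hKC _) (hE _) (hE _) (hE _)
    (hpair _ _ (by decide)) (hpair _ _ (by decide)) (hpair _ _ (by decide))
  have hq1 : D.QQ kb r φ 1 = D.T3 (D.tk (kb (0, 12)) (2 * r)) (D.tk (kb (2, 0)) (2 * r))
      (D.tk (kb (3, 8)) (2 * r)) fun u v w => ENNReal.ofReal (dl φ u v w) := by
    unfold Dat.QQ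
    simp only [one_mul]
  have hq2 : D.QQ kb r φ (-1) = D.T3 (D.tk (kb (0, 12)) (2 * r)) (D.tk (kb (2, 0)) (2 * r))
      (D.tk (kb (3, 8)) (2 * r)) fun u v w => ENNReal.ofReal (- dl φ u v w) := by
    unfold Dat.QQ
    simp only [neg_mul, one_mul]
  rw [hq1, hq2]
  exact ⟨hp.trans (add_le_add le_rfl hsum), hn.trans (add_le_add le_rfl hsum)⟩

end General

end Pool.Agent.MPEF
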