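import Pool.Agent.Lib.MP_ef3f0f_gt.III.Spec

set_option autoImplicit false

/-!
# MP_ef3f0f_gt, Part III: matching of the cuffs
-/

namespace Pool.Agent.MPEF

open MeasureTheory Topology
open scoped ENNReal Pointwise

private theorem Match_inv {Γ : Type} [Group Γ] {a b : Γ} (h : IsConj a b) : IsConj a⁻¹ b⁻¹ := by
  rw [isConj_iff] at h ⊢
  obtain ⟨c, rfl⟩ := h
  exact ⟨c, by group⟩

/-- The class of `γ` minus the class of the inverse. -/
private noncomputable def Match_E {Γ : Type} [Group Γ] (γ : Γ) : ConjClasses Γ →₀ ℚ :=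
  Finsupp.single (ConjClasses.mk γ) 1 - Finsupp.single (ConjClasses.mk γ⁻¹) 1

private theorem Match_E_inv {Γ : Type} [Group Γ] (γ : Γ) : Match_E γ⁻¹ = - Match_E γ := by
  unfold Match_E
  rw [inv_inv, neg_sub]

private theorem Match_E_conj {Γ : Type} [Group Γ] (g γ : Γ) :
    Match_E (g * γ * g⁻¹) = Match_E γ := by
  unfold Match_E
  have h : IsConj γ (g * γ * g⁻¹) := isConj_iff.2 ⟨g, rfl⟩
  rw [ConjClasses.mk_eq_mk_iff_isConj.2 h, ConjClasses.mk_eq_mk_iff_isConj.2 (Match_inv h)]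

/-- Two maps with fibres of the same sizes differ by a bijection. -/
private theorem Match_bij {X Q : Type} [Fintype X] [DecidableEq Q] (f g : X → Q)
    (h : ∀ q, Fintype.card {x // f x = q} = Fintype.card {x // g x = q}) :
    ∃ τ : X ≃ X, ∀ x, f (τ x) = g x := by
  classical
  refine ⟨(Equiv.sigmaFiberEquiv g).symm.trans ((Equiv.sigmaCongrRight fun q =>
    Fintype.equivOfCardEq (h q).symm).trans (Equiv.sigmaFiberEquiv f)), fun x => ?_⟩
  have key : ∀ y : Σ q, {x // f x = q}, f (Equiv.sigmaFiberEquiv f y) = y.1 := fun y => y.2.2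
  exact key _

/-- The doubled involution. -/
private def Match_s {S : Type} (τ : S × Fin 3 ≃ S × Fin 3) (x : (S × Bool) × Fin 3) :
    (S × Bool) × Fin 3 :=
  bif x.1.2 then (((τ (x.1.1, x.2)).1, false), (τ (x.1.1, x.2)).2)
  else (((τ.symm (x.1.1, x.2)).1, true), (τ.symm (x.1.1, x.2)).2)

private theorem Match_s_s {S : Type} (τ : S × Fin 3 ≃ S × Fin 3) (x : (S × Bool) × Fin 3) :
    Match_s τ (Match_s τ x) = x := by
  obtain ⟨⟨s, b⟩, j⟩ := x
  cases b
  · change (((τ ((τ.symm (s, j)).1, (τ.symm (s, j)).2)).1, false),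
      (τ ((τ.symm (s, j)).1, (τ.symm (s, j)).2)).2) = ((s, false), j)
    rw [Prod.mk.eta, Equiv.apply_symm_apply]
  · change (((τ.symm ((τ (s, j)).1, (τ (s, j)).2)).1, true),
      (τ.symm ((τ (s, j)).1, (τ (s, j)).2)).2) = ((s, true), j)
    rw [Prod.mk.eta, Equiv.symm_apply_apply]

private theorem Match_s_ne {S : Type} (τ : S × Fin 3 ≃ S × Fin 3) (x : (S × Bool) × Fin 3) :
    Match_s τ x ≠ x := by
  obtain ⟨⟨s, b⟩, j⟩ := x
  intro h
  have h1 := congrArg (fun y : (S × Bool) × Fin 3 => y.1.2) h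
  cases b
  · exact absurd h1 (by
      change ¬ (true = false)
      decide)
  · exact absurd h1 (by
      change ¬ (false = true)
      decide)

private theorem Match_s_conj {Γ S : Type} [Group Γ] (τ : S × Fin 3 ≃ S × Fin 3)
    (D : S × Fin 3 → Γ) (hτ : ∀ x, IsConj (D (τ x)) (D x)⁻¹) (x : (S × Bool) × Fin 3) :
    IsConj (D (x.1.1, x.2)) (D ((Match_s τ x).1.1, (Match_s τ x).2))⁻¹ := by
  obtain ⟨⟨s, b⟩, j⟩ := x
  cases b
  · change IsConj (D (s, j)) (D ((τ.symm (s, j)).1, (τ.symm (s, j)).2))⁻¹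
    have h := hτ (τ.symm (s, j))
    rwa [Equiv.apply_symm_apply] at h
  · change IsConj (D (s, j)) (D ((τ (s, j)).1, (τ (s, j)).2))⁻¹
    have h := Match_inv (hτ (s, j))
    rw [inv_inv] at h
    exact h.symm

theorem tMatch (h1 : S_Gordan) : S_Match := by
  intro Γ ι _ _ d
  classical
  rcases h1 (ConjClasses Γ →₀ ℚ) ι
    (fun i => Match_E (d i 0) + Match_E (d i 1) + Match_E (d i 2)) with ⟨f, hf⟩ | ⟨c, hc, hs⟩
  · left
    refine ⟨fun γ => ((f (Match_E γ) : ℚ) : ℝ), ⟨fun g x => ?_, fun x => ?_⟩, fun i => ?_⟩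
    · simp only [Match_E_conj]
    · simp only [Match_E_inv, map_neg, Rat.cast_neg]
    · have h := hf i
      rw [map_add, map_add] at h
      have h' : (0 : ℝ) < ((f (Match_E (d i 0)) + f (Match_E (d i 1)) +
          f (Match_E (d i 2)) : ℚ) : ℝ) := by exact_mod_cast h
      rw [Rat.cast_add, Rat.cast_add] at h'
      exact h'
  · right
    -- the fibres
    have hfib : ∀ q : ConjClasses Γ,
        Fintype.card {x : (Σ i : ι, Fin (c i)) × Fin 3 // ConjClasses.mk (d x.1.1 x.2) = q} =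
        Fintype.card {x : (Σ i : ι, Fin (c i)) × Fin 3 //
          ConjClasses.mk (d x.1.1 x.2)⁻¹ = q} := by
      intro q
      have hcard : ∀ F : ι → Fin 3 → ConjClasses Γ,
          (Fintype.card {x : (Σ i : ι, Fin (c i)) × Fin 3 // F x.1.1 x.2 = q} : ℚ) =
            ∑ i, (c i : ℚ) * ∑ j, (if F i j = q then (1 : ℚ) else 0) := by
        intro F
        rw [Fintype.card_subtype, Finset.card_filter]
        push_cast
        rw [Fintype.sum_prod_type, Fintype.sum_sigma]
        refine Finset.sum_congr rfl fun i _ => ?_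
        change ∑ _y : Fin (c i), ∑ j, (if F i j = q then (1 : ℚ) else 0) = _
        rw [Finset.sum_const, Finset.card_univ, Fintype.card_fin, nsmul_eq_mul]
      have h2 := DFunLike.congr_fun hs q
      rw [Finsupp.finsetSum_apply] at h2
      have h3 : ∀ i, (c i • (Match_E (d i 0) + Match_E (d i 1) + Match_E (d i 2))) q =
          (c i : ℚ) * ∑ j, (if ConjClasses.mk (d i j) = q then (1 : ℚ) else 0) -
          (c i : ℚ) * ∑ j, (if ConjClasses.mk (d i j)⁻¹ = q then (1 : ℚ) else 0) := by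
        intro i
        rw [Finsupp.smul_apply, Finsupp.add_apply, Finsupp.add_apply, nsmul_eq_mul,
          Fin.sum_univ_three, Fin.sum_univ_three]
        unfold Match_E
        simp only [Finsupp.sub_apply, Finsupp.single_apply]
        ring
      simp only [h3] at h2
      rw [Finset.sum_sub_distrib, Finsupp.zero_apply, sub_eq_zero] at h2
      have h4 : (Fintype.card {x : (Σ i : ι, Fin (c i)) × Fin 3 //
          ConjClasses.mk (d x.1.1 x.2) = q} : ℚ) =
        Fintype.card {x : (Σ i : ι, Fin (c i)) × Fin 3 //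
          ConjClasses.mk (d x.1.1 x.2)⁻¹ = q} := by
        rw [hcard (fun i j => ConjClasses.mk (d i j)), hcard (fun i j => ConjClasses.mk (d i j)⁻¹)]
        exact h2
      exact_mod_cast h4
    obtain ⟨τ, hτ⟩ := Match_bij
      (fun x : (Σ i : ι, Fin (c i)) × Fin 3 => ConjClasses.mk (d x.1.1 x.2))
      (fun x => ConjClasses.mk (d x.1.1 x.2)⁻¹) hfib
    have hτ' : ∀ x, IsConj (d (τ x).1.1 (τ x).2) (d x.1.1 x.2)⁻¹ :=
      fun x => ConjClasses.mk_eq_mk_iff_isConj.1 (hτ x)
    obtain ⟨i₀, hi₀⟩ : ∃ i, c i ≠ 0 := by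
      by_contra hcon
      push Not at hcon
      exact hc (funext hcon)
    let e := Fintype.equivFin ((Σ i : ι, Fin (c i)) × Bool)
    refine ⟨Fintype.card ((Σ i : ι, Fin (c i)) × Bool), ?_, fun a => (e.symm a).1.1,
      fun x => (e (Match_s τ (e.symm x.1, x.2)).1, (Match_s τ (e.symm x.1, x.2)).2), ?_, ?_, ?_⟩
    · exact Fintype.card_pos_iff.2 ⟨(⟨i₀, ⟨0, Nat.pos_of_ne_zero hi₀⟩⟩, true)⟩
    · intro x
      simp only [Equiv.symm_apply_apply, Prod.mk.eta, Match_s_s, Equiv.apply_symm_apply]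
    · intro x hx
      have h5 := Match_s_ne τ (e.symm x.1, x.2)
      apply h5
      have h6 : (Match_s τ (e.symm x.1, x.2)).1 = e.symm x.1 := by
        rw [Equiv.eq_symm_apply]
        exact congrArg Prod.fst hx
      have h7 : (Match_s τ (e.symm x.1, x.2)).2 = x.2 := congrArg Prod.snd hx
      exact Prod.ext h6 h7
    · intro x
      simp only [Equiv.symm_apply_apply]
      exact Match_s_conj τ (fun y : (Σ i : ι, Fin (c i)) × Fin 3 => d y.1.1 y.2) hτ'
        (e.symm x.1, x.2)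

end Pool.Agent.MPEF
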