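import Pool.Agent.Lib.MP_ef3f0f_gt.III.Spec
import Pool.Agent.Lib.MP_ef3f0f_gt.Q.Spec

set_option autoImplicit false

/-!
# MP_ef3f0f_gt: Theorem S for `SL₂(ℝ)` from all the parts
-/

namespace Pool.Agent.MPEF

open MeasureTheory Topology
open scoped ENNReal Pointwise

/-- The analytic part: for data `D` with `P = SL₂(ℝ)` the pants can be glued. -/
private theorem SLfin_core (hWin : S_Win) (hArc : S_arcOk) (hGlue : S_Glue) (hEnd : S_SurfEnd)
    (hThm : S_Thm1) (H : Type) [Group H] [TopologicalSpace H] [IsTopologicalGroup H]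
    [LocallyCompactSpace H] [T2Space H] [SecondCountableTopology H] [MeasurableSpace H]
    [BorelSpace H] (hBal : S_BalSL H) (hkap : S_kap) (hWG : S_WG H) (hKer : S_KerOk SL2 H)
    (hEqui : S_Equi SL2 H) (hIII3 : S_III3 SL2 H) (hIII4 : S_III4 H) (D : Dat SL2 H)
    (hD : D.Ok) :
    ∃ g : ℕ, 2 ≤ g ∧ ∃ f : SurfaceGroup g →* D.Γ, ∀ x, prD D (f x) ∈ arcSL.N → x = 1 := by
  obtain ⟨G, hG, hHyp, ⟨s, hs, hsB⟩, M₁, hM₁⟩ := hWin
  have hB : Bal D G.Hyp := by
    rw [hHyp]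
    exact hBal D hD
  obtain ⟨κ, hκ⟩ := hkap D.μ₁ hD.haar₁ (min s (1 / 4)) (lt_min hs (by norm_num))
    (min_le_right _ _)
  have hsupp : ∀ g, g ∉ G.B 0 → κ g = 0 := by
    intro g hg
    apply hκ.supp
    intro hg'
    apply hg
    apply hsB
    exact lt_of_lt_of_le (show nrm (g.1 - 1) < min s (1 / 4) from hg') (min_le_left _ _)
  have hKBκ : KB κ := ⟨hκ.meas, hκ.bdd, closure (G.B 0), hG.bc 0, fun g hg =>
    hsupp g fun h => hg (subset_closure h)⟩
  have hW : WG D κ := hWG D hD κ (min s (1 / 4)) (min_le_right _ _) hκ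
  obtain ⟨M₂, hM₂⟩ := hG.big
  obtain ⟨M₀, hM₀⟩ := hThm SL2 H D G hD hG hB
  let M := max M₀ (max M₁ M₂)
  have hMa : M₀ ≤ M := le_max_left _ _
  have hMb : M₁ ≤ M := le_trans (le_max_left _ _) (le_max_right _ _)
  have hMc : M₂ ≤ M := le_trans (le_max_right _ _) (le_max_right _ _)
  obtain ⟨hK, hKBi⟩ := hKer D hD G hG κ hκ.meas hsupp hκ.int M
  obtain ⟨e, hR, hE1, hE2⟩ := hEqui D hD κ hKBκ hκ.int hW
    (fun a => (G.Om M a 1).indicator fun _ => 1) (fun a => (G.Om M a 5).indicator fun _ => 1)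
    (fun a => hKBi a 1) (fun a => hKBi a 5)
  have hC : Coer D (fun a => ksm D κ ((G.Om M a 1).indicator fun _ => 1))
      (fun a => ksm D κ ((G.Om M a 5).indicator fun _ => 1)) := hM₀ M hMa _ _ hK
  obtain ⟨r, hr⟩ := hIII3 D hD G hG hB M _ _ hK
    (fun a => (hM₂ M hMc).1 a 2 (by norm_num)) e hR hE1 hE2 hC
  obtain ⟨n, hn, d, hd, σ, hσ1, hσ2, hσ3⟩ := hIII4 D hD G hG M (hM₁ M hMb) _ _ hK r
    (hr r le_rfl)
  obtain ⟨h, hh, c, hc⟩ := hGlue SL2 V2 D.Γ arcSL hArc.1 hArc.2 (prD D) n hn d hd σ hσ1 hσ2 hσ3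
  obtain ⟨f, hf⟩ := hEnd SL2 V2 D.Γ arcSL (prD D) h c hc
  exact ⟨h, hh, f, hf⟩

theorem tSLfin (hDat : ∀ (H : Type) [Group H] [TopologicalSpace H] [IsTopologicalGroup H]
      [LocallyCompactSpace H] [T2Space H] [SecondCountableTopology H] [MeasurableSpace H]
      [BorelSpace H], S_Dat SL2 H)
    (hWin : S_Win) (hArc : S_arcOk) (hGlue : S_Glue) (hEnd : S_SurfEnd) (hThm : S_Thm1)
    (hBal : ∀ (H : Type) [Group H] [TopologicalSpace H] [IsTopologicalGroup H]
      [LocallyCompactSpace H] [T2Space H] [SecondCountableTopology H] [MeasurableSpace H]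
      [BorelSpace H], S_BalSL H)
    (hkap : S_kap)
    (hWG : ∀ (H : Type) [Group H] [TopologicalSpace H] [IsTopologicalGroup H]
      [LocallyCompactSpace H] [T2Space H] [SecondCountableTopology H] [MeasurableSpace H]
      [BorelSpace H], S_WG H)
    (hKer : ∀ (H : Type) [Group H] [TopologicalSpace H] [IsTopologicalGroup H]
      [LocallyCompactSpace H] [T2Space H] [SecondCountableTopology H] [MeasurableSpace H]
      [BorelSpace H], S_KerOk SL2 H)
    (hEqui : ∀ (H : Type) [Group H] [TopologicalSpace H] [IsTopologicalGroup H]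
      [LocallyCompactSpace H] [T2Space H] [SecondCountableTopology H] [MeasurableSpace H]
      [BorelSpace H], S_Equi SL2 H)
    (hIII3 : ∀ (H : Type) [Group H] [TopologicalSpace H] [IsTopologicalGroup H]
      [LocallyCompactSpace H] [T2Space H] [SecondCountableTopology H] [MeasurableSpace H]
      [BorelSpace H], S_III3 SL2 H)
    (hIII4 : ∀ (H : Type) [Group H] [TopologicalSpace H] [IsTopologicalGroup H]
      [LocallyCompactSpace H] [T2Space H] [SecondCountableTopology H] [MeasurableSpace H]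
      [BorelSpace H], S_III4 H) : S_SLfin := by
  intro H _ _ _ _ _ _ hK Γ hd hc hD
  let _ : MeasurableSpace H := borel H
  have _ : BorelSpace H := ⟨rfl⟩
  obtain ⟨D, hDok, hDΓ⟩ := hDat H Γ hd hc hD hK
  obtain ⟨g, hg, f, hf⟩ := SLfin_core hWin hArc hGlue hEnd hThm H (hBal H) hkap (hWG H)
    (hKer H) (hEqui H) (hIII3 H) (hIII4 H) D hDok
  refine ⟨g, hg, D.Γ.subtype.comp f, fun x => ?_, fun x hx => hf x ?_⟩
  · rw [← hDΓ]
    exact (f x).2
  · exact hx

end Pool.Agent.MPEF
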