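import Pool.Agent.Lib.MP_ef3f0f_gt.III.Defs

set_option autoImplicit false

/-!
# MP_ef3f0f_gt, Part III (exact balance, the contradiction, matching): the statements

Modules `III/X.lean`: `theorem tX : S_Y → ... → S_X` (for the statements with `P`, `H`: `S_X P H`, in a section with
the same `variable` line, explicit `P H`), namespace `Pool.Agent.MPEF`. The statements of Part 0 (`Z/Spec`: `S_inst`,
`S_nu`, `S_Lo`, ...) may be used as hypotheses.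
-/

namespace Pool.Agent.MPEF

open MeasureTheory Topology
open scoped ENNReal Pointwise

section Abstract

/-- **Measure preservation of the flip.** Proof. `β : ℝ → ℝ≥0∞` measurable, even, `∫ β = 1` (indicator of
`[-1/2, 1/2]`). For `F ≥ 0` measurable:
(*) `∫ F dμ = ∫ β(t x) ∫ F(a_s x) ds dμ(x)`: indeed `1 = ∫ β(t x - s) ds`, so `∫ F dμ = ∫∫ β(t x - s) F(x) dμ(x) ds`; replace `x` by
`a_s x` (left invariance) and use `t(a_s x) - s = t x`; Tonelli. Let `T(x) = a_{2t(x)} J x`. Then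
`T(a_s x) = a_{2s + 2t(x)} J a_s x = a_{s + 2t(x)} J x`. So by (*) `∫ f(T x) dμ = ∫ β(t x) ∫ f(a_{s+2t(x)} J x) ds dμ =
∫ β(t x) ∫ f(a_s J x) ds dμ`, and `β(t x) = β(- t x) = β(t(J x))`, so with `G(y) = β(t y) ∫ f(a_s y) ds` this is
`∫ G(J x) dμ = ∫ G dμ = ∫ f dμ` by left invariance and (*). -/
def S_mp : Prop :=
  ∀ (P : Type) [Group P] [MeasurableSpace P] [MeasurableMul₂ P] (μ : Measure P) [SFinite μ]
    [μ.IsMulLeftInvariant] (a : ℝ → P) (J : P) (t : P → ℝ),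
    Measurable a → (∀ s s', a (s + s') = a s * a s') → (∀ s, J * a s = a (-s) * J) →
    Measurable t → (∀ s x, t (a s * x) = s + t x) → (∀ x, t (J * x) = - t x) →
    ∀ f : P → ℝ≥0∞, Measurable f → ∫⁻ x, f (a (2 * t x) * J * x) ∂μ = ∫⁻ x, f x ∂μ

/-- The flow in `SL₂(ℝ)`. Proof. `a s = dgl (exp s) _`, `J = (0 -1; 1 0)`,
`t x = (1/4) log ((x₀₀² + x₀₁²) / (x₁₀² + x₁₁²))` (the rows are not zero as the determinant is `1`). Multiplication by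
`dgl l` from the left multiplies the first row by `l` and the second one by `l⁻¹`; `J x` has the rows `- row₂`, `row₁`.
Last part: the off-diagonal entries of `g dgl l' = dgl l g` are `g₀₁ (l'⁻¹ - l) = 0` and `g₁₀ (l' - l⁻¹) = 0`; by the traces
`l + l⁻¹ = l' + l'⁻¹`, so `(l - l')(1 - (l l')⁻¹) = 0`, `l = l'`, and so `g₀₁ = g₁₀ = 0`. -/
def S_slflow : Prop :=
  ∃ (a : ℝ → SL2) (J : SL2) (t : SL2 → ℝ), Continuous a ∧ (∀ s s', a (s + s') = a s * a s') ∧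
    (∀ s, J * a s = a (-s) * J) ∧ Measurable t ∧ (∀ s x, t (a s * x) = s + t x) ∧
    (∀ x, t (J * x) = - t x) ∧
    (∀ (l : ℝ) (hl : l ≠ 0) (x : SL2), t (dgl l hl * x) = Real.log |l| + t x) ∧
    (∀ (l : ℝ) (hl : l ≠ 0), J * dgl l hl = (dgl l hl)⁻¹ * J ∧ J * (dgl l hl)⁻¹ = dgl l hl * J ∧
      a (2 * Real.log |l|) = dgl l hl * dgl l hl) ∧
    (∀ (l : ℝ) (hl : l ≠ 0) (s : ℝ), a s * dgl l hl = dgl l hl * a s) ∧
    (∀ (l l' : ℝ) (hl : l ≠ 0) (hl' : l' ≠ 0) (g : SL2), 1 < |l| → 1 < |l'| →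
      g * dgl l' hl' * g⁻¹ = dgl l hl → l = l' ∧ ∃ (c : ℝ) (hc : c ≠ 0), g = dgl c hc)

/-- **The flip in `SL₂(ℝ)`.** Proof. `T₀ y = a (2 t y) * J * y`. By `S_slflow`:
`T₀ (dgl c y) = a (2 log|c| + 2 t y) J dgl c y = a (2 log |c|) a (2 t y) (dgl c)⁻¹ J y = dgl c T₀ y`.
For `l` with `2 < |tr2 l|` choose (`S_diag`) `l = h dgl λ h⁻¹`, `1 < |λ|`, and put `T l x = h T₀ (h⁻¹ x)`; this does not depend on
the choice of `h`: if `l = h' dgl λ' h'⁻¹` then `λ = λ'`, `h' = h dgl c` (`S_slflow` last part for `g = h⁻¹ h'`) and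
`h' T₀ (h'⁻¹ x) = h dgl c T₀ (dgl c⁻¹ h⁻¹ x) = h T₀ (h⁻¹ x)`. `equi`: `g l g⁻¹ = (g h) dgl λ (g h)⁻¹`. `flip`: with `y = h⁻¹ x`:
`(T₀ y)⁻¹ (dgl λ)⁻¹ T₀ y = y⁻¹ J⁻¹ (dgl λ)⁻¹ J y = y⁻¹ dgl λ y` (`a s` commutes with `dgl`). `pres`: `S_mp` and left invariance
under `h`, `h⁻¹`. `conj`: the trace is a class function. (`μ` is σ-finite: Haar measure on a second countable
locally compact group.) -/
def S_Flip : Prop :=
  ∀ μ : Measure SL2, μ.IsHaarMeasure → ∃ T : SL2 → SL2 → SL2, FlipP μ {l | 2 < |tr2 l|} T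

/-- **Gordan's theorem** over `ℚ`. Proof. Prove it for a `Finset` of indices, or for `Fin n`, by induction on the number of
the vectors, for all `V` (universe `0`) and all families: either a linear form `f : V →ₗ[ℚ] ℚ` positive on all `x i`, or
a nonzero relation with coefficients in `ℚ≥0` (clear the denominators at the end).
Step: let `x₀, x₁, ..., x_n`. If some `x_i = 0`: relation. Suppose that there is no relation. Then (induction) there is `f` with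
`f(x_i) > 0` for `i ≥ 1`. If `f(x₀) > 0` done. If `f(x₀) ≤ 0`: for `i ≥ 1` put `y_i = f(x_i) x₀ - f(x₀) x_i`, for which `f(y_i) = 0`;
a relation `∑ c_i y_i = 0` between the `y_i`, `c_i ≥ 0` not all zero, is a relation
`(∑ c_i f(x_i)) x₀ + ∑ c_i (-f(x₀)) x_i = 0` with a positive coefficient at `x₀`. So by induction there is `g` with
`g(y_i) > 0` for all `i ≥ 1`, i.e. `f(x_i) g(x₀) > f(x₀) g(x_i)`. We look for `F = s f + t g` or similar with all values positive: take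
`F = g - q f` where `q = g(x₀)/f(x₀) + ε` resp.: if `f(x₀) < 0`: `(g - q f)(x₀) > 0` iff `q > g(x₀)/f(x₀)`, and `(g - q f)(x_i) > 0` iff
`q < g(x_i)/f(x_i)`, and `g(x₀)/f(x₀) < g(x_i)/f(x_i)` (divide by `f(x_i) f(x₀) < 0`): such a `q` exists (finitely many `i`).
If `f(x₀) = 0`: `f(x_i) g(x₀) > 0`, so `g(x₀) > 0` (if `n ≥ 1`), take `F = g + N f` with `N` large. If `n = 0`:
`x₀ ≠ 0`, so some `f` has `f(x₀) > 0` (a basis containing `x₀`: `exists_dual_forall_apply_eq_zero`/`Module.exists_dual..`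
or `LinearMap.exists_extend`; a linear form on `span {x₀}` extends). (Any other proof is fine.) -/
def S_Gordan : Prop :=
  ∀ (V ι : Type) [AddCommGroup V] [Module ℚ V] [Fintype ι] (x : ι → V),
    (∃ f : V →ₗ[ℚ] ℚ, ∀ i, 0 < f (x i)) ∨ ∃ c : ι → ℕ, c ≠ 0 ∧ ∑ i, c i • x i = 0

/-- **Matching.** Proof. `V = ConjClasses Γ →₀ ℚ`, `inv` the involution of `ConjClasses Γ` (`[γ] ↦ [γ⁻¹]`, well defined),
`e γ = single [γ] 1 - single [γ⁻¹] 1`, `x i = e (d i 0) + e (d i 1) + e (d i 2)`. Apply `S_Gordan`.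
(a) A linear form `f` with `f (x i) > 0`: `φ γ = (f (e γ) : ℝ)` is odd (`e γ⁻¹ = - e γ`) and a class function.
(b) `c : ι → ℕ`, not zero, `∑ c_i x_i = 0`. Let `X₀` be the finite type of all `(i, k, j)`, `i : ι`, `k : Fin (c i)`,
`j : Fin 3` (the cuffs of `c i` copies of `d i`), `cl (i, k, j) = [d i j]`. The coefficient at a class `q` of the relation is
`#{x | cl x = q} - #{x | inv (cl x) = q} = 0`. So the fibres of `cl` and of `inv ∘ cl` over every `q` have the same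
cardinality, and there is a bijection `τ : X₀ ≃ X₀` with `cl (τ x) = inv (cl x)` (sigma of the fibre bijections:
`Equiv.sigmaFiberEquiv`, `Fintype.equivOfCardEq`). Now double: `X = X₀ × Bool`,
`σ (x, true) = (τ x, false)`, `σ (y, false) = (τ⁻¹ y, true)`: an involution without fixed points, and
`cl (σ z) = inv (cl z)` (for `(y, false)`: `cl y = inv (cl (τ⁻¹ y))`). With `m = ∑ c_i ≥ 1` and a bijection of the type of the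
`((i, k), b)`, `k : Fin (c i)`, `b : Bool` with `Fin (2 m)`: `f` = the `ι` component. `cl = cl'` means conjugate
(`ConjClasses.mk_eq_mk_iff_isConj`). -/
def S_Match : Prop :=
  ∀ (Γ ι : Type) [Group Γ] [Fintype ι] (d : ι → Fin 3 → Γ),
    (∃ φ : Γ → ℝ, OddC φ ∧ ∀ i, 0 < φ (d i 0) + φ (d i 1) + φ (d i 2)) ∨
    ∃ n : ℕ, 1 ≤ n ∧ ∃ (f : Fin n → ι) (σ : Fin n × Fin 3 → Fin n × Fin 3),
      (∀ x, σ (σ x) = x) ∧ (∀ x, σ x ≠ x) ∧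
      ∀ x, IsConj (d (f x.1) x.2) (d (f (σ x).1) (σ x).2)⁻¹

/-- The errors are small. Proof. `Rate e`: for every `ε > 0`, `n⁴ e n ≤ ε` for `n ≥ n₀`. For `r ≥ n₀`, `r ≥ 1`: `e n ≤ ε / r⁴` for `n ≥ r`, so
`r³ er e r ≤ r³ (3r + 1) ε / r⁴ ≤ 4 ε` and `r³ e (2r) ≤ ε`. -/
def S_er : Prop :=
  ∀ e : ℕ → ℝ≥0∞, Rate e → ∀ C : ℝ≥0∞, C ≠ ∞ →
    ∃ r₁ : ℕ, ∀ r, r₁ ≤ r → C * (r : ℝ≥0∞) ^ 3 * (er e r + e (2 * r)) ≤ 2⁻¹ ∧ er e r ≠ ∞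

end Abstract

section General

variable (P H : Type) [Group P] [Group H] [TopologicalSpace P] [TopologicalSpace H]
  [IsTopologicalGroup P] [IsTopologicalGroup H] [LocallyCompactSpace P] [LocallyCompactSpace H]
  [T2Space P] [T2Space H] [SecondCountableTopology P] [SecondCountableTopology H]
  [MeasurableSpace P] [MeasurableSpace H] [BorelSpace P] [BorelSpace H]

/-- **Exact balance from a flip** (III.1). Proof. `f_γ(x) = tk ψ N (x⁻¹ γ x)`; it is zero if `γ₁ ∉ Hyp` (`Hyp` is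
invariant under conjugation, and closed under inverses by `flip`, `conj`). For `γ₁ ∈ Hyp` let
`T_γ x = (T γ₁ x₁, x₂)`, a `μ`-preserving map (Tonelli, `pres`). By `flip` and the symmetry of `ν^(N)`:
`f_{γ⁻¹}(T_γ x) = f_γ(x)`. Everything is `≥ 0`:
`II ψ N (Φ ∘ inv) = ∑_γ Φ(γ⁻¹) ∫ χ f_γ = ∑_γ Φ(γ) ∫ χ(x) f_{γ⁻¹}(x) = ∑_γ Φ(γ) ∫ χ(T_γ x) f_γ(x)` (sum over `γ₁ ∈ Hyp`)
`= ∑_γ ∑_g Φ(γ) ∫ χ(g x) χ(T_γ x) f_γ(x)` (`χs`)
`= ∑_g ∑_γ Φ(γ) ∫ χ(x) χ(T_γ(g⁻¹ x)) f_γ(g⁻¹ x)` (left invariance of `μ`). With `γ' = g γ g⁻¹`: `T_γ(g⁻¹ x) = g⁻¹ T_{γ'} x` (`equi`),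
`f_γ(g⁻¹ x) = f_{γ'}(x)`, `Φ(γ) = Φ(γ')`; reindex the sum over `γ` (for fixed `g`), exchange the sums:
`= ∑_{γ'} Φ(γ') ∫ χ(x) (∑_g χ(g⁻¹ T_{γ'} x)) f_{γ'}(x) = ∑_{γ'} Φ(γ') ∫ χ f_{γ'} = II ψ N Φ`. -/
def S_Bal1 : Prop :=
  ∀ D : Dat P H, D.Ok → ∀ (Hyp : Set P) (T : P → P → P), FlipP D.μ₁ Hyp T → Bal D Hyp

/-- **Two edges and loops.** Proof. `T2 = ∫_x χ(x) ∫_y χ(y) ∑_u ∑_v K(x⁻¹ u y) K'(x⁻¹ v y) Φ(u v⁻¹)`; put `u = e v`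
(reindex for fixed `v`), so the inner sum is `∑_v F_x(v y)` with `F_x(y) = ∑_e K(x⁻¹ e y) K'(x⁻¹ y) Φ(e)`; unfold (`S_unf`):
`∫ F_x(y) dy = ∑_e Φ(e) ∫ K(x⁻¹ e y) K'(x⁻¹ y) dy = ∑_e Φ(e) ∫ K(x⁻¹ e x q) K'(q) dq`, `y = x q`. And for `g ∈ P × H`:
`∫ tk k n (g q) tk k' m (q) dq = (∫ k(g₁ q) k'(q) dq) (∫ ν^(n)(g₂ h) ν^(m)(h) dh)` (Tonelli), where the last integral is
`∫ ν^(n)(p) ν^(m)(g₂⁻¹ p) dp = ∫ ν^(n)(p) ν^(m)(p⁻¹ g₂) dp = ν^(n+m)(g₂)` (left invariance, symmetry, `S_nu`). -/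
def S_six : Prop :=
  ∀ D : Dat P H, D.Ok → ∀ k k' : P → ℝ≥0∞, Measurable k → Measurable k' →
    ∀ n m : ℕ, 1 ≤ n → 1 ≤ m → ∀ Φ : D.Γ → ℝ≥0∞,
      D.T2 (D.tk k n) (D.tk k' m) (fun u v => Φ (u * v⁻¹)) =
        D.II (fun g => ∫⁻ q, k (g * q) * k' q ∂D.μ₁) (n + m) Φ

/-- Rules for `T2`, `T3` (1). Proof. `Γ` is countable, everything is measurable. (1) exchange of sums (`ENNReal.tsum_comm`, no
measurability needed). (2), (3) linearity of sums and integrals. (4), (5) the inner sum is `(∑_{u,v} K₁ K₂ Φ) N K₃ x y`. -/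
def S_T3r : Prop :=
  ∀ D : Dat P H, D.Ok → ∀ K₁ K₂ K₃ : P × H → ℝ≥0∞, Measurable K₁ → Measurable K₂ → Measurable K₃ →
    (∀ Φ : D.Γ → D.Γ → D.Γ → ℝ≥0∞,
      D.T3 K₁ K₂ K₃ Φ = D.T3 K₂ K₃ K₁ fun v w u => Φ u v w) ∧
    (∀ Φ Ψ : D.Γ → D.Γ → D.Γ → ℝ≥0∞,
      D.T3 K₁ K₂ K₃ (fun u v w => Φ u v w + Ψ u v w) = D.T3 K₁ K₂ K₃ Φ + D.T3 K₁ K₂ K₃ Ψ) ∧
    (∀ Φ Ψ : D.Γ → D.Γ → ℝ≥0∞,
      D.T2 K₁ K₂ (fun u v => Φ u v + Ψ u v) = D.T2 K₁ K₂ Φ + D.T2 K₁ K₂ Ψ) ∧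
    (∀ (Φ : D.Γ → D.Γ → ℝ≥0∞) (C : ℝ≥0∞), (∀ x y, D.N K₃ x y ≤ C) →
      D.T3 K₁ K₂ K₃ (fun u v _ => Φ u v) ≤ C * D.T2 K₁ K₂ Φ) ∧
    (∀ (Φ : D.Γ → D.Γ → ℝ≥0∞) (c E : ℝ≥0∞), (∀ x y, c ≤ D.N K₃ x y + E) →
      c * D.T2 K₁ K₂ Φ ≤ D.T3 K₁ K₂ K₃ (fun u v _ => Φ u v) + E * D.T2 K₁ K₂ Φ)

/-- Rules for `T2`, `T3` (2): monotonicity in the kernels, and comparison of the functions where the weights are not
zero. Proof. Termwise. -/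
def S_T3m : Prop :=
  ∀ D : Dat P H, D.Ok →
    (∀ (K₁ K₂ K₁' K₂' : P × H → ℝ≥0∞) (C : ℝ≥0∞), Measurable K₁' → Measurable K₂' →
      (∀ g, K₁ g ≤ C * K₁' g) → (∀ g, K₂ g ≤ C * K₂' g) → ∀ Φ : D.Γ → D.Γ → ℝ≥0∞,
        D.T2 K₁ K₂ Φ ≤ C * C * D.T2 K₁' K₂' Φ) ∧
    (∀ (K₁ K₂ K₃ : P × H → ℝ≥0∞) (Φ Ψ : D.Γ → D.Γ → D.Γ → ℝ≥0∞),
      (∀ (x y : P × H) (u v w : D.Γ), K₁ (x⁻¹ * (u : P × H) * y) ≠ 0 →
        K₂ (x⁻¹ * (v : P × H) * y) ≠ 0 → K₃ (x⁻¹ * (w : P × H) * y) ≠ 0 → Φ u v w ≤ Ψ u v w) →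
        D.T3 K₁ K₂ K₃ Φ ≤ D.T3 K₁ K₂ K₃ Ψ) ∧
    (∀ K₁ K₂ K₃ : P × H → ℝ≥0∞, D.T3 K₁ K₂ K₃ (fun _ _ _ => 0) = 0)

/-- Finiteness. Proof. `tk k n`, `wr k r`: `S_nu`. Let `χ` vanish outside the compact set `K` and the kernels outside the compact
set `Z`. For `x`, `y` with `χ x ≠ 0`, `χ y ≠ 0` and `u` with `x⁻¹ u y ∈ Z`: `u ∈ K Z K⁻¹`, compact, so `u` is in a finite set
`F ⊆ Γ` (`disc`). So the inner sum is at most `(#F)² C² max_F Φ < ∞` on the support of `χ χ`; and `∫ χ = 1`. -/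
def S_finK : Prop :=
  ∀ D : Dat P H, D.Ok →
    (∀ (k : P → ℝ≥0∞) (n : ℕ), KB k → KC (D.tk k n)) ∧
    (∀ (k : P → ℝ≥0∞) (r : ℕ), KB k → KC (D.wr k r)) ∧
    ∀ K₁ K₂ K₃ : P × H → ℝ≥0∞, KC K₁ → KC K₂ → KC K₃ →
      (∀ Φ : D.Γ → D.Γ → ℝ≥0∞, (∀ u v, Φ u v ≠ ∞) → D.T2 K₁ K₂ Φ ≠ ∞) ∧
      (∀ Φ : D.Γ → D.Γ → D.Γ → ℝ≥0∞, (∀ u v w, Φ u v w ≠ ∞) → D.T3 K₁ K₂ K₃ Φ ≠ ∞)

/-- The kernel `wr` is a sum. Proof. Finite sums; `ENNReal.tsum_add`/`Finset` sums commute with `tsum` and `lintegral`. -/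
def S_wr : Prop :=
  ∀ D : Dat P H, D.Ok → ∀ k k' : P → ℝ≥0∞, Measurable k → Measurable k' → ∀ r : ℕ,
    Measurable (D.wr k r) ∧ (∀ n, Measurable (D.tk k n)) ∧
    (∀ x y, D.N (D.wr k r) x y = ∑ n ∈ Finset.Icc r (4 * r), D.N (D.tk k n) x y) ∧
    (∀ Φ : D.Γ → D.Γ → ℝ≥0∞, D.T2 (D.wr k r) (D.wr k' r) Φ =
      ∑ n ∈ Finset.Icc r (4 * r), ∑ m ∈ Finset.Icc r (4 * r), D.T2 (D.tk k n) (D.tk k' m) Φ) ∧
    (∀ n ∈ Finset.Icc r (4 * r), ∀ g, D.tk k n g ≤ D.wr k r g)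

/-- The kernels: `KB` for `ka`, `kb`, comparison, and the kernels `ψ` of the loops. Proof. `Om M a 4 ⊆ Om M a 2 ⊆ Om M a 0` by `om` and
`1 ∈ B 9`. `kb a` vanishes outside `Om M a 4`, is bounded by `C₀`, and `ka a ≥ c₀` on `Om M a 2`, so `kb a ≤ (C₀ / c₀) ka a`.
`ψ(g) = ∫ k(g q) k'(q) dq ≠ 0` implies `g q ∈ Om M a 0`, `q ∈ Om M b 0` for some `q`, so `g ∈ Om M a 0 * (Om M b 0)⁻¹ ⊆ Hyp`, contained in the compact
set `closure (Om M a 0) * (closure (Om M b 0))⁻¹`; `ψ ≤ C₀² μ₁(closure (Om M b 0)) < ∞`. -/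
def S_ker : Prop :=
  ∀ D : Dat P H, D.Ok → ∀ G : Geo P, G.Ok → ∀ (M : ℕ) (ka kb : Ty → P → ℝ≥0∞), KerOk G M ka kb →
    (∀ a, KB (ka a) ∧ KB (kb a)) ∧ (∃ C : ℝ≥0∞, C ≠ ∞ ∧ ∀ a g, kb a g ≤ C * ka a g) ∧
    ∀ a b, Cp a b → ∀ k k' : P → ℝ≥0∞, (k = ka a ∨ k = kb a) → (k' = ka b ∨ k' = kb b) →
      KB (fun g => ∫⁻ q, k (g * q) * k' q ∂D.μ₁) ∧
      ∀ g, g ∉ G.Hyp → ∫⁻ q, k (g * q) * k' q ∂D.μ₁ = 0

/-- **Exact balance for two edges.** Proof. `ph φ u v = φ (u v⁻¹)`, `S_six` with `Φ γ = ofReal (φ γ)`, a class function, and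
`Bal` for `ψ` (`S_ker`): `Φ γ⁻¹ = ofReal (- φ γ)`. For `wr` sum over the lengths (`S_wr`). -/
def S_pair : Prop :=
  ∀ D : Dat P H, D.Ok → ∀ G : Geo P, G.Ok → Bal D G.Hyp → ∀ (M : ℕ) (ka kb : Ty → P → ℝ≥0∞),
    KerOk G M ka kb → ∀ a b, Cp a b → ∀ φ : D.Γ → ℝ, OddC φ →
      (∀ r, 1 ≤ r → D.T2 (D.wr (ka a) r) (D.wr (ka b) r) (fun u v => ENNReal.ofReal (ph φ u v)) =
        D.T2 (D.wr (ka a) r) (D.wr (ka b) r) (fun u v => ENNReal.ofReal (- ph φ u v))) ∧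
      ∀ n, 1 ≤ n →
        D.T2 (D.tk (kb a) n) (D.tk (kb b) n) (fun u v => ENNReal.ofReal (ph φ u v)) =
          D.T2 (D.tk (kb a) n) (D.tk (kb b) n) (fun u v => ENNReal.ofReal (- ph φ u v))

/-- **The main estimate**, abstract form. Proof. Write `p = ph φ u v`, `q = ph φ v w`, `s = ph φ w u`, `z⁺ = ofReal z`,
`z⁻ = ofReal (-z)`. `δ⁺ + (p⁻ + q⁻ + s⁻) = δ⁻ + (p⁺ + q⁺ + s⁺)` pointwise, so (`S_T3r`, (2))
`T3(δ⁺) + T3(p⁻) + T3(q⁻) + T3(s⁻) = T3(δ⁻) + T3(p⁺) + T3(q⁺) + T3(s⁺)`. By `S_T3r` (4), (5) (for `q`, `s` after a cyclic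
permutation, (1)): `T3(p⁺) ≤ (m₃ + E) T2(p⁺) = m₃ T2(p⁻) + E T2(p⁺) ≤ T3(p⁻) + E T2(p⁻) + E T2(p⁺) = T3(p⁻) + E T2(|p|)`. So
`T3(δ⁺) + X ≤ T3(δ⁻) + X + E (...)` with the finite number `X = T3(p⁻) + T3(q⁻) + T3(s⁻)` (`S_finK`); cancel `X`. The other
inequality by the symmetry `φ ↦ - φ` (exchange `+` and `-` everywhere). -/
def S_main : Prop :=
  ∀ D : Dat P H, D.Ok → ∀ (φ : D.Γ → ℝ), OddC φ → ∀ (K₁ K₂ K₃ : P × H → ℝ≥0∞)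
    (m₁ m₂ m₃ E : ℝ≥0∞), KC K₁ → KC K₂ → KC K₃ →
    (∀ x y, D.N K₁ x y ≤ m₁ + E ∧ m₁ ≤ D.N K₁ x y + E) →
    (∀ x y, D.N K₂ x y ≤ m₂ + E ∧ m₂ ≤ D.N K₂ x y + E) →
    (∀ x y, D.N K₃ x y ≤ m₃ + E ∧ m₃ ≤ D.N K₃ x y + E) →
    D.T2 K₁ K₂ (fun u v => ENNReal.ofReal (ph φ u v)) =
      D.T2 K₁ K₂ (fun u v => ENNReal.ofReal (- ph φ u v)) →
    D.T2 K₂ K₃ (fun u v => ENNReal.ofReal (ph φ u v)) =
      D.T2 K₂ K₃ (fun u v => ENNReal.ofReal (- ph φ u v)) →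
    D.T2 K₃ K₁ (fun u v => ENNReal.ofReal (ph φ u v)) =
      D.T2 K₃ K₁ (fun u v => ENNReal.ofReal (- ph φ u v)) →
    D.T3 K₁ K₂ K₃ (fun u v w => ENNReal.ofReal (dl φ u v w)) ≤
      D.T3 K₁ K₂ K₃ (fun u v w => ENNReal.ofReal (- dl φ u v w)) +
        E * (D.T2 K₁ K₂ (fun u v => ab (ph φ u v)) + D.T2 K₂ K₃ (fun u v => ab (ph φ u v)) +
          D.T2 K₃ K₁ (fun u v => ab (ph φ u v))) ∧
    D.T3 K₁ K₂ K₃ (fun u v w => ENNReal.ofReal (- dl φ u v w)) ≤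
      D.T3 K₁ K₂ K₃ (fun u v w => ENNReal.ofReal (dl φ u v w)) +
        E * (D.T2 K₁ K₂ (fun u v => ab (ph φ u v)) + D.T2 K₂ K₃ (fun u v => ab (ph φ u v)) +
          D.T2 K₃ K₁ (fun u v => ab (ph φ u v)))

/-- **III.2 (i).** Proof. For every `t = (a, b, c) ∈ PTs` use `S_main` for the kernels `wr (ka ·) r`, `m = ∑_{n = r}^{4r} ∫ ka`,
`E = er e r` (`S_wr`, `Equi`, `n ≥ 3`), `S_pair` (the types of `t` are pairwise compatible). By `Pos` `T3(δ⁻) = 0` and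
`T3(ab δ) = T3(δ⁺)` (`S_T3m`, second and third part). Sum over `t`: `PTs` is invariant under the cyclic rotation
`(a, b, c) ↦ (b, c, a)` (`posF a b c → posF b c a`; by `decide` on `Fin 5`, `Fin 16`), so each of the three sums of `T2` is `AA`. -/
def S_IIIa : Prop :=
  ∀ D : Dat P H, D.Ok → ∀ G : Geo P, G.Ok → Bal D G.Hyp → ∀ (M : ℕ) (ka kb : Ty → P → ℝ≥0∞),
    KerOk G M ka kb → ∀ e : ℕ → ℝ≥0∞, Equi D ka e → ∀ r, 3 ≤ r → ∀ φ : D.Γ → ℝ, OddC φ →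
      Pos D ka r φ → D.EE ka r φ ≤ 3 * er e r * D.AA ka r φ

/-- **III.2 (ii).** Proof. `S_main` for the kernels `tk (kb ·) (2r)`, `E = e (2r)`. The three pairs `((0,12), (2,0))`,
`((2,0), (3,8))`, `((3,8), (0,12))` are the first two entries of elements of `PTs` (third entry `(3,14)`, `(4,4)`, `(1,10)`), and
`tk (kb a) (2r) ≤ C wr (ka a) r` (`S_ker`, `S_wr`), so each `T2` is at most `C² AA` (`S_T3m`; one term of the sum `AA`). -/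
def S_IIIb : Prop :=
  ∀ D : Dat P H, D.Ok → ∀ G : Geo P, G.Ok → Bal D G.Hyp → ∀ (M : ℕ) (ka kb : Ty → P → ℝ≥0∞),
    KerOk G M ka kb → ∃ C : ℝ≥0∞, C ≠ ∞ ∧ ∀ e : ℕ → ℝ≥0∞, Equi D kb e → ∀ r, 2 ≤ r →
      ∀ φ : D.Γ → ℝ, OddC φ →
        D.QQ kb r φ 1 ≤ D.QQ kb r φ (-1) + C * e (2 * r) * D.AA ka r φ ∧
        D.QQ kb r φ (-1) ≤ D.QQ kb r φ 1 + C * e (2 * r) * D.AA ka r φ

/-- Subtracting a homomorphism. Proof. `h (x⁻¹) = - h x`, `h (g x g⁻¹) = h x`, and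
`h(u v⁻¹) + h(v w⁻¹) + h(w u⁻¹) = 0`. -/
def S_hsub : Prop :=
  ∀ (D : Dat P H) (φ h : D.Γ → ℝ), OddC φ → (∀ x y, h (x * y) = h x + h y) →
    OddC (fun x => φ x - h x) ∧ (∀ u v w, dl (fun x => φ x - h x) u v w = dl φ u v w) ∧
    (∀ ka r, D.EE ka r (fun x => φ x - h x) = D.EE ka r φ) ∧
    (∀ ka r, Pos D ka r φ → Pos D ka r fun x => φ x - h x)

/-- Positivity and finiteness. Proof. `S_Lo` for `k = ka a`, `U = Om M a 2`: `N (wr (ka a) r) ≥ N (tk (ka a) r) > 0` for `r ≥ b`, all `a`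
(finitely many types), `r ≥ 1`. If `T3(ab δ) = 0` for some `t ∈ PTs` then for `χμ × χμ`-almost all `(x, y)` (`lintegral_eq_zero_iff`, and `∫ χ = 1 ≠ 0`)
all terms vanish, but there are `u`, `v`, `w` with nonzero weights (`N > 0`), and `ab (dl φ u v w) ≠ 0` by `Pos`.
`PTs` is not empty: `((0,12), (2,0), (3,14))`. `AA` is finite by `S_finK`, `S_ker`. -/
def S_Epos : Prop :=
  ∀ D : Dat P H, D.Ok → ∀ G : Geo P, G.Ok → ∀ (M : ℕ) (ka kb : Ty → P → ℝ≥0∞),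
    KerOk G M ka kb → (∀ a, (G.Om M a 2).Nonempty) →
    (∀ r (φ : D.Γ → ℝ), D.AA ka r φ ≠ ∞) ∧
    ∃ r₂ : ℕ, ∀ r, r₂ ≤ r → ∀ φ : D.Γ → ℝ, Pos D ka r φ → D.EE ka r φ ≠ 0

/-- **III.3.** Proof. Let `C` be from `Coer`, `C'` from `S_IIIb`. By `S_er`
`C r³ (3 er e r + C' e(2r)) ≤ 1/2` for large `r` (apply it with the constant `C (3 + C')`). Let `φ` be odd with `Pos`. Claim: for
every `k` there is a homomorphism `h` with `AA(φ - h) ≤ 2^(-k) AA(φ)` (`k = 0`: `h = 0`; step: `φ' = φ - h` is odd, `Pos` (`S_hsub`);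
`Coer` with `β = C' e(2r) AA(φ')` gives `h'` with `AA(φ' - h') ≤ C r³ (EE φ' + β) ≤ C r³ (3 er + C' e(2r)) AA(φ') ≤ 2⁻¹ AA(φ')`
by `S_IIIa`, `S_IIIb`). So `EE φ = EE (φ - h) ≤ 3 er e r 2^(-k) AA(φ)` for all `k`, where `er e r ≠ ∞`, `AA(φ) ≠ ∞`: `EE φ = 0`.
Contradiction to `S_Epos`. -/
def S_III3 : Prop :=
  ∀ D : Dat P H, D.Ok → ∀ G : Geo P, G.Ok → Bal D G.Hyp → ∀ (M : ℕ) (ka kb : Ty → P → ℝ≥0∞),
    KerOk G M ka kb → (∀ a, (G.Om M a 2).Nonempty) → ∀ e : ℕ → ℝ≥0∞, Rate e → Equi D ka e →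
    Equi D kb e → Coer D ka kb →
    ∃ r₁ : ℕ, ∀ r, r₁ ≤ r → ∀ φ : D.Γ → ℝ, OddC φ → ¬ Pos D ka r φ

/-- Finitely many pants. Proof. `wr (ka a) r` vanishes outside a compact set `Z` (`S_finK`, `S_ker`), `K` compact with `Γ K = P × H`
(`S_inst`). Let `F` be the set of the `(u, v, w)` for which there are `t ∈ PTs` and `x, y ∈ K` with nonzero weights; `u, v, w ∈ K Z K⁻¹`, so
`F` is finite (`disc`). If `(x, y; u, v, w)` is arbitrary with nonzero weights, let `γ x, γ' y ∈ K`, `u' = γ u γ'⁻¹`, ...: the weights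
are the same, and `u' v'⁻¹ = γ u v⁻¹ γ⁻¹`, so `dl φ u v w = dl φ u' v' w'` for class functions. -/
def S_Ffin : Prop :=
  ∀ D : Dat P H, D.Ok → ∀ G : Geo P, G.Ok → ∀ (M : ℕ) (ka kb : Ty → P → ℝ≥0∞),
    KerOk G M ka kb → ∀ r : ℕ, ∃ F : Finset (D.Γ × D.Γ × D.Γ),
      (∀ q ∈ F, ∃ t ∈ PTs, ∃ x y : P × H,
        D.wr (ka t.1) r (x⁻¹ * (q.1 : P × H) * y) ≠ 0 ∧
        D.wr (ka t.2.1) r (x⁻¹ * (q.2.1 : P × H) * y) ≠ 0 ∧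
        D.wr (ka t.2.2) r (x⁻¹ * (q.2.2 : P × H) * y) ≠ 0) ∧
      ∀ φ : D.Γ → ℝ, OddC φ → (∀ q ∈ F, 0 < dl φ q.1 q.2.1 q.2.2) → Pos D ka r φ

end General

section SL

variable (H : Type) [Group H] [TopologicalSpace H] [IsTopologicalGroup H]
  [LocallyCompactSpace H] [T2Space H] [SecondCountableTopology H] [MeasurableSpace H]
  [BorelSpace H]

/-- **III.1 for `SL₂(ℝ)`**. Proof. `S_Flip`, `S_Bal1`. -/
def S_BalSL : Prop := ∀ D : Dat SL2 H, D.Ok → Bal D {l | 2 < |tr2 l|}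

/-- **III.4.** Proof. `F` from `S_Ffin`, `ι = F`, `d (u, v, w) = ![u v⁻¹, v w⁻¹, w u⁻¹]` (so `dl φ u v w` is the sum of the
`φ (d j)`). `S_Match`: the first alternative contradicts the hypothesis by `S_Ffin`. So we get `n`, `f`, `σ`.
For `(u, v, w) ∈ F`, `t ∈ PTs`, `x`, `y` with nonzero weights put `g_u = x₁⁻¹ u₁ y₁ ∈ Om M t.1 0` (`KerOk.as`), and similarly `g_v`, `g_w`. By `PW` there is
`z` with `PH (g_u g_v⁻¹) (g_v g_w⁻¹) z`, and then `PH (u₁ v₁⁻¹) (v₁ w₁⁻¹) (x₁ • z)` as `u₁ v₁⁻¹ = x₁ g_u g_v⁻¹ x₁⁻¹` (`PH` is invariant: traces, and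
`det2 (g • x) (g • y) = det2 x y`, `S_cyc` first part). `S_Pants` with `α = u v⁻¹`, `β = v w⁻¹`, `(α β)⁻¹ = w u⁻¹`. -/
def S_III4 : Prop :=
  ∀ D : Dat SL2 H, D.Ok → ∀ G : Geo SL2, G.Ok → ∀ (M : ℕ), PW G M → ∀ ka kb : Ty → SL2 → ℝ≥0∞,
    KerOk G M ka kb → ∀ r : ℕ, (∀ φ : D.Γ → ℝ, OddC φ → ¬ Pos D ka r φ) →
    ∃ n : ℕ, 1 ≤ n ∧ ∃ d : Fin n → Fin 3 → D.Γ, (∀ i, St arcSL (prD D) 0 3 (d i)) ∧
      ∃ σ : Fin n × Fin 3 → Fin n × Fin 3, (∀ x, σ (σ x) = x) ∧ (∀ x, σ x ≠ x) ∧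
        ∀ x, IsConj (d x.1 x.2) (d (σ x).1 (σ x).2)⁻¹

end SL

section Final

/-- **Theorem S for `SL₂(ℝ)`.** Proof. Give `H` its Borel σ-algebra. `D` from `S_Dat`; `G` from `S_Win`; `Bal D G.Hyp` from `S_BalSL`. Let `ε ≤ 1/4`
with `Bs ε ⊆ G.B 0`, `κ` from `S_kap`, `KB κ` (`Bs (1/4)` is contained in a compact set: closed bounded set of matrices), `WG D κ` from `S_WG`. `ka`, `kb` from `S_KerOk`, with `e` from
`S_Equi`. `M` larger than `M₀` from `S_Thm1`, `M₁` of `S_Win`, and `M₁` of `Geo.Ok.big`. `Coer D ka kb` from `S_Thm1`. `S_III3`: `r`; `S_III4`; `S_Glue`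
(`S_arcOk`) gives `h ≥ 2` and `St arcSL (prD D) h 0 c`; `S_SurfEnd`. -/
def S_SLfin : Prop :=
  ∀ (H : Type) [Group H] [TopologicalSpace H] [IsTopologicalGroup H] [LocallyCompactSpace H]
    [T2Space H] [SecondCountableTopology H],
    (∃ K : Set H, IsCompact K ∧ Subgroup.closure K = ⊤) →
    ∀ Γ : Subgroup (SL2 × H), DiscreteTopology Γ → CompactSpace ((SL2 × H) ⧸ Γ) →
      Dense (Prod.fst '' (Γ : Set (SL2 × H))) →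
      ∃ g : ℕ, 2 ≤ g ∧ ∃ f : SurfaceGroup g →* SL2 × H,
        (∀ x, f x ∈ Γ) ∧ ∀ x, ((f x).1.1 = 1 ∨ (f x).1.1 = -1) → x = 1

end Final

end Pool.Agent.MPEF
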