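import Pool.Agent.Lib.MP_ef3f0f_gt.III.Spec

set_option autoImplicit false

namespace Pool.Agent.MPEF

open MeasureTheory Topology
open scoped ENNReal Pointwise

section

variable (P H : Type) [Group P] [Group H] [TopologicalSpace P] [TopologicalSpace H]
  [IsTopologicalGroup P] [IsTopologicalGroup H] [LocallyCompactSpace P] [LocallyCompactSpace H]
  [T2Space P] [T2Space H] [SecondCountableTopology P] [SecondCountableTopology H]
  [MeasurableSpace P] [MeasurableSpace H] [BorelSpace P] [BorelSpace H]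

private theorem T3m_count (D : Dat P H) (hD : D.Ok) : Countable D.Γ := by
  have : (D.Γ : Set (P × H)) ⊆ ⋃ n, {γ : P × H | γ ∈ D.Γ ∧ γ ∈ compactCovering (P × H) n} := by
    intro γ hγ
    have : γ ∈ ⋃ n, compactCovering (P × H) n := by
      rw [iUnion_compactCovering]
      trivial
    obtain ⟨n, hn⟩ := Set.mem_iUnion.1 this
    exact Set.mem_iUnion.2 ⟨n, hγ, hn⟩
  have hc : (D.Γ : Set (P × H)).Countable :=
    (Set.countable_iUnion fun n =>
      (hD.disc _ (isCompact_compactCovering (P × H) n)).countable).mono this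
  exact hc.to_subtype

/-- Rules for `T2`, `T3` (2). -/
theorem tT3m : S_T3m P H := by
  intro D hD
  have := hD.haar₁
  have := hD.haar₂
  have : SFinite D.μ := by
    unfold Dat.μ
    infer_instance
  have := T3m_count P H D hD
  refine ⟨fun K₁ K₂ K₁' K₂' C hm₁ hm₂ h₁ h₂ Φ => ?_, fun K₁ K₂ K₃ Φ Ψ h => ?_,
    fun K₁ K₂ K₃ => ?_⟩
  · have hF : Measurable fun p : (P × H) × (P × H) => ∑' u : D.Γ, ∑' v : D.Γ,
        K₁' (p.1⁻¹ * (u : P × H) * p.2) * K₂' (p.1⁻¹ * (v : P × H) * p.2) * Φ u v := by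
      refine Measurable.tsum fun u => Measurable.tsum fun v => ?_
      refine Measurable.mul_const ?_ _
      refine Measurable.mul (hm₁.comp ?_) (hm₂.comp ?_)
      · exact (measurable_fst.inv.mul_const _).mul measurable_snd
      · exact (measurable_fst.inv.mul_const _).mul measurable_snd
    have hG : Measurable fun p : (P × H) × (P × H) => D.χ p.2 * ∑' u : D.Γ, ∑' v : D.Γ,
        K₁' (p.1⁻¹ * (u : P × H) * p.2) * K₂' (p.1⁻¹ * (v : P × H) * p.2) * Φ u v :=
      (hD.χm.comp measurable_snd).mul hF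
    have hG2 : Measurable fun x : P × H => D.χ x * ∫⁻ y, D.χ y * ∑' u : D.Γ, ∑' v : D.Γ,
        K₁' (x⁻¹ * (u : P × H) * y) * K₂' (x⁻¹ * (v : P × H) * y) * Φ u v ∂D.μ :=
      hD.χm.mul (hG.lintegral_prod_right' (ν := D.μ))
    have hle : ∀ x y : P × H, ∑' u : D.Γ, ∑' v : D.Γ,
        K₁ (x⁻¹ * (u : P × H) * y) * K₂ (x⁻¹ * (v : P × H) * y) * Φ u v ≤
        C * C * ∑' u : D.Γ, ∑' v : D.Γ,
          K₁' (x⁻¹ * (u : P × H) * y) * K₂' (x⁻¹ * (v : P × H) * y) * Φ u v := by
      intro x y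
      rw [← ENNReal.tsum_mul_left]
      refine ENNReal.tsum_le_tsum fun u => ?_
      rw [← ENNReal.tsum_mul_left]
      refine ENNReal.tsum_le_tsum fun v => ?_
      calc K₁ (x⁻¹ * (u : P × H) * y) * K₂ (x⁻¹ * (v : P × H) * y) * Φ u v
          ≤ (C * K₁' (x⁻¹ * (u : P × H) * y)) * (C * K₂' (x⁻¹ * (v : P × H) * y)) * Φ u v := by
            gcongr
            · exact h₁ _
            · exact h₂ _
        _ = C * C * (K₁' (x⁻¹ * (u : P × H) * y) * K₂' (x⁻¹ * (v : P × H) * y) * Φ u v) := by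
            ring
    refine le_trans ?_ (le_of_eq (lintegral_const_mul (C * C) hG2))
    refine lintegral_mono fun x => ?_
    have hx : Measurable fun y => D.χ y * ∑' u : D.Γ, ∑' v : D.Γ,
        K₁' (x⁻¹ * (u : P × H) * y) * K₂' (x⁻¹ * (v : P × H) * y) * Φ u v :=
      hG.comp measurable_prodMk_left
    calc D.χ x * ∫⁻ y, D.χ y * ∑' u : D.Γ, ∑' v : D.Γ,
          K₁ (x⁻¹ * (u : P × H) * y) * K₂ (x⁻¹ * (v : P × H) * y) * Φ u v ∂D.μ
        ≤ D.χ x * ∫⁻ y, C * C * (D.χ y * ∑' u : D.Γ, ∑' v : D.Γ,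
          K₁' (x⁻¹ * (u : P × H) * y) * K₂' (x⁻¹ * (v : P × H) * y) * Φ u v) ∂D.μ := by
          refine mul_le_mul_right (lintegral_mono fun y => ?_) _
          refine le_trans (mul_le_mul_right (hle x y) (D.χ y)) (le_of_eq ?_)
          ring
      _ = C * C * (D.χ x * ∫⁻ y, D.χ y * ∑' u : D.Γ, ∑' v : D.Γ,
          K₁' (x⁻¹ * (u : P × H) * y) * K₂' (x⁻¹ * (v : P × H) * y) * Φ u v ∂D.μ) := by
          rw [lintegral_const_mul _ hx]
          ring
  · unfold Dat.T3 Dat.IM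
    refine lintegral_mono fun x => ?_
    refine mul_le_mul_right (lintegral_mono fun y => ?_) _
    refine mul_le_mul_right ?_ _
    refine ENNReal.tsum_le_tsum fun u => ENNReal.tsum_le_tsum fun v =>
      ENNReal.tsum_le_tsum fun w => ?_
    by_cases a : K₁ (x⁻¹ * (u : P × H) * y) = 0
    · simp [a]
    by_cases b : K₂ (x⁻¹ * (v : P × H) * y) = 0
    · simp [b]
    by_cases c : K₃ (x⁻¹ * (w : P × H) * y) = 0
    · simp [c]
    gcongr
    exact h x y u v w a b c
  · simp [Dat.T3, Dat.IM]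

end

end Pool.Agent.MPEF
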