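import Pool.Agent.Lib.MP_ef3f0f_gt.III.Spec

set_option autoImplicit false
set_option linter.unusedSectionVars false

/-! MP_ef3f0f_gt, part III, module T3r: rules for `T2`, `T3`. -/

namespace Pool.Agent.MPEF

open MeasureTheory Topology
open scoped ENNReal Pointwise

section General

variable (P H : Type) [Group P] [Group H] [TopologicalSpace P] [TopologicalSpace H]
  [IsTopologicalGroup P] [IsTopologicalGroup H] [LocallyCompactSpace P] [LocallyCompactSpace H]
  [T2Space P] [T2Space H] [SecondCountableTopology P] [SecondCountableTopology H]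
  [MeasurableSpace P] [MeasurableSpace H] [BorelSpace P] [BorelSpace H]

/-- Measurability of one factor. -/
private theorem T3r_meas1 (K : P × H → ℝ≥0∞) (hK : Measurable K) (u : P × H) :
    Measurable fun q : (P × H) × (P × H) => K (q.1⁻¹ * u * q.2) := by
  refine hK.comp ?_
  have h1 : Continuous fun q : (P × H) × (P × H) => q.1⁻¹ * u * q.2 :=
    ((continuous_fst.inv).mul continuous_const).mul continuous_snd
  exact h1.measurable

private theorem T3r_m2 (D : Dat P H) [Countable D.Γ] (K₁ K₂ : P × H → ℝ≥0∞)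
    (h₁ : Measurable K₁) (h₂ : Measurable K₂) (Φ : D.Γ → D.Γ → ℝ≥0∞) :
    Measurable fun q : (P × H) × (P × H) => ∑' u : D.Γ, ∑' v : D.Γ,
      K₁ (q.1⁻¹ * (u : P × H) * q.2) * K₂ (q.1⁻¹ * (v : P × H) * q.2) * Φ u v := by
  refine Measurable.ennreal_tsum fun u => Measurable.ennreal_tsum fun v => ?_
  exact ((T3r_meas1 P H K₁ h₁ u).mul (T3r_meas1 P H K₂ h₂ v)).mul_const _

private theorem T3r_m3 (D : Dat P H) [Countable D.Γ] (K₁ K₂ K₃ : P × H → ℝ≥0∞)
    (h₁ : Measurable K₁) (h₂ : Measurable K₂) (h₃ : Measurable K₃)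
    (Φ : D.Γ → D.Γ → D.Γ → ℝ≥0∞) :
    Measurable fun q : (P × H) × (P × H) => ∑' u : D.Γ, ∑' v : D.Γ, ∑' w : D.Γ,
      K₁ (q.1⁻¹ * (u : P × H) * q.2) * K₂ (q.1⁻¹ * (v : P × H) * q.2) *
        K₃ (q.1⁻¹ * (w : P × H) * q.2) * Φ u v w := by
  refine Measurable.ennreal_tsum fun u => Measurable.ennreal_tsum fun v =>
    Measurable.ennreal_tsum fun w => ?_
  exact (((T3r_meas1 P H K₁ h₁ u).mul (T3r_meas1 P H K₂ h₂ v)).mul
    (T3r_meas1 P H K₃ h₃ w)).mul_const _

private theorem T3r_IMadd (D : Dat P H) (hχ : Measurable D.χ) (f g : P × H → ℝ≥0∞)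
    (hf : Measurable f) : D.IM (fun x => f x + g x) = D.IM f + D.IM g := by
  have hm : Measurable fun x => D.χ x * f x := hχ.mul hf
  unfold Dat.IM
  rw [← lintegral_add_left hm]
  refine lintegral_congr fun x => ?_
  exact mul_add _ _ _

private theorem T3r_IMmul (D : Dat P H) (hχ : Measurable D.χ) (c : ℝ≥0∞) (f : P × H → ℝ≥0∞)
    (hf : Measurable f) : D.IM (fun x => c * f x) = c * D.IM f := by
  have hm : Measurable fun x => D.χ x * f x := hχ.mul hf
  unfold Dat.IM
  rw [← lintegral_const_mul c hm]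
  refine lintegral_congr fun x => ?_
  ring

private theorem T3r_IMmono (D : Dat P H) (f g : P × H → ℝ≥0∞) (h : ∀ x, f x ≤ g x) :
    D.IM f ≤ D.IM g := by
  unfold Dat.IM
  exact lintegral_mono fun x => mul_le_mul_right (h x) _

/-- Double integral of a jointly measurable function. -/
private theorem T3r_II_add (D : Dat P H) [SigmaFinite D.μ] (hχ : Measurable D.χ)
    (F G : P × H → P × H → ℝ≥0∞)
    (hF : Measurable fun q : (P × H) × (P × H) => F q.1 q.2) :
    D.IM (fun x => D.IM fun y => F x y + G x y) =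
      D.IM (fun x => D.IM fun y => F x y) + D.IM (fun x => D.IM fun y => G x y) := by
  have h1 : ∀ x, D.IM (fun y => F x y + G x y) = D.IM (fun y => F x y) + D.IM fun y => G x y := by
    intro x
    exact T3r_IMadd P H D hχ _ _ (hF.comp measurable_prodMk_left)
  have h2 : (fun x => D.IM fun y => F x y + G x y) =
      fun x => D.IM (fun y => F x y) + D.IM fun y => G x y := funext h1
  rw [h2]
  refine T3r_IMadd P H D hχ _ _ ?_
  unfold Dat.IM
  have h3 : Measurable fun q : (P × H) × (P × H) => D.χ q.2 * F q.1 q.2 :=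
    (hχ.comp measurable_snd).mul hF
  exact h3.lintegral_prod_right'

private theorem T3r_II_mul (D : Dat P H) [SigmaFinite D.μ] (hχ : Measurable D.χ) (c : ℝ≥0∞)
    (F : P × H → P × H → ℝ≥0∞)
    (hF : Measurable fun q : (P × H) × (P × H) => F q.1 q.2) :
    D.IM (fun x => D.IM fun y => c * F x y) = c * D.IM (fun x => D.IM fun y => F x y) := by
  have h1 : ∀ x, D.IM (fun y => c * F x y) = c * D.IM (fun y => F x y) := by
    intro x
    exact T3r_IMmul P H D hχ c _ (hF.comp measurable_prodMk_left)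
  have h2 : (fun x => D.IM fun y => c * F x y) = fun x => c * D.IM (fun y => F x y) := funext h1
  rw [h2]
  refine T3r_IMmul P H D hχ c _ ?_
  unfold Dat.IM
  have h3 : Measurable fun q : (P × H) × (P × H) => D.χ q.2 * F q.1 q.2 :=
    (hχ.comp measurable_snd).mul hF
  exact h3.lintegral_prod_right'

/-- The inner sum for a function of two edges. -/
private theorem T3r_inner (D : Dat P H) (K₁ K₂ K₃ : P × H → ℝ≥0∞) (Φ : D.Γ → D.Γ → ℝ≥0∞)
    (x y : P × H) :
    (∑' u : D.Γ, ∑' v : D.Γ, ∑' w : D.Γ,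
      K₁ (x⁻¹ * (u : P × H) * y) * K₂ (x⁻¹ * (v : P × H) * y) * K₃ (x⁻¹ * (w : P × H) * y) *
        Φ u v) =
      D.N K₃ x y * ∑' u : D.Γ, ∑' v : D.Γ,
        K₁ (x⁻¹ * (u : P × H) * y) * K₂ (x⁻¹ * (v : P × H) * y) * Φ u v := by
  unfold Dat.N
  rw [← ENNReal.tsum_mul_left]
  refine tsum_congr fun u => ?_
  rw [← ENNReal.tsum_mul_left]
  refine tsum_congr fun v => ?_
  rw [← ENNReal.tsum_mul_right]
  refine tsum_congr fun w => ?_
  ring

theorem tT3r (h1 : S_inst P H) : S_T3r P H := by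
  intro D hD K₁ K₂ K₃ m₁ m₂ m₃
  obtain ⟨s1, s2, s3, cΓ, -⟩ := h1 D hD
  have hχ := hD.χm
  refine ⟨?_, ?_, ?_, ?_, ?_⟩
  · intro Φ
    unfold Dat.T3
    congr 1
    funext x
    congr 1
    funext y
    rw [ENNReal.tsum_comm]
    refine tsum_congr fun b => ?_
    rw [ENNReal.tsum_comm]
    refine tsum_congr fun c => ?_
    refine tsum_congr fun a => ?_
    ring
  · intro Φ Ψ
    unfold Dat.T3
    rw [← T3r_II_add P H D hχ _ _ (T3r_m3 P H D K₁ K₂ K₃ m₁ m₂ m₃ Φ)]
    congr 1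
    funext x
    congr 1
    funext y
    rw [← ENNReal.tsum_add]
    refine tsum_congr fun u => ?_
    rw [← ENNReal.tsum_add]
    refine tsum_congr fun v => ?_
    rw [← ENNReal.tsum_add]
    refine tsum_congr fun w => ?_
    rw [mul_add]
  · intro Φ Ψ
    unfold Dat.T2
    rw [← T3r_II_add P H D hχ _ _ (T3r_m2 P H D K₁ K₂ m₁ m₂ Φ)]
    congr 1
    funext x
    congr 1
    funext y
    rw [← ENNReal.tsum_add]
    refine tsum_congr fun u => ?_
    rw [← ENNReal.tsum_add]
    refine tsum_congr fun v => ?_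
    rw [mul_add]
  · intro Φ C hC
    unfold Dat.T3 Dat.T2
    rw [← T3r_II_mul P H D hχ C _ (T3r_m2 P H D K₁ K₂ m₁ m₂ Φ)]
    refine T3r_IMmono P H D _ _ fun x => T3r_IMmono P H D _ _ fun y => ?_
    rw [T3r_inner P H D K₁ K₂ K₃ Φ x y]
    exact mul_le_mul_left (hC x y) _
  · intro Φ c E hc
    unfold Dat.T3 Dat.T2
    rw [← T3r_II_mul P H D hχ c _ (T3r_m2 P H D K₁ K₂ m₁ m₂ Φ),
      ← T3r_II_mul P H D hχ E _ (T3r_m2 P H D K₁ K₂ m₁ m₂ Φ),
      ← T3r_II_add P H D hχ _ _ (T3r_m3 P H D K₁ K₂ K₃ m₁ m₂ m₃ fun u v _ => Φ u v)]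
    refine T3r_IMmono P H D _ _ fun x => T3r_IMmono P H D _ _ fun y => ?_
    rw [T3r_inner P H D K₁ K₂ K₃ Φ x y, ← add_mul]
    exact mul_le_mul_left (hc x y) _

end General

end Pool.Agent.MPEF
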