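import Pool.Agent.Lib.MP_ef3f0f_gt.III.Spec

set_option autoImplicit false

namespace Pool.Agent.MPEF

open MeasureTheory Topology
open scoped ENNReal Pointwise

/-- The errors are small. -/
theorem ter : S_er := by
  intro e he C hC
  have hC1 : 5 * (C + 1) ≠ ∞ :=
    ENNReal.mul_ne_top (by norm_num) (ENNReal.add_ne_top.2 ⟨hC, ENNReal.one_ne_top⟩)
  have hC0 : 5 * (C + 1) ≠ 0 := by
    refine mul_ne_zero (by norm_num) ?_
    intro h
    have := add_eq_zero.1 h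
    exact one_ne_zero this.2
  obtain ⟨ε, hε⟩ : ∃ ε : ℝ≥0∞, ε = 2⁻¹ / (5 * (C + 1)) := ⟨_, rfl⟩
  have hε0 : 0 < ε := by
    rw [hε]
    exact ENNReal.div_pos (by norm_num) hC1
  have hεt : ε ≠ ∞ := by
    rw [hε]
    exact ENNReal.div_ne_top (by norm_num) hC0
  have hεC : 5 * (C + 1) * ε = 2⁻¹ := by
    rw [hε]
    exact ENNReal.mul_div_cancel hC0 hC1
  obtain ⟨N, hN⟩ := ENNReal.tendsto_atTop_zero.1 he ε hε0
  refine ⟨max N 1, fun r hr => ?_⟩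
  have hr1 : 1 ≤ r := le_trans (le_max_right _ _) hr
  have hrN : N ≤ r := le_trans (le_max_left _ _) hr
  have hr0 : (r : ℝ≥0∞) ≠ 0 := Nat.cast_ne_zero.2 (by omega)
  have hrt : (r : ℝ≥0∞) ≠ ∞ := ENNReal.natCast_ne_top r
  have hr1' : (1 : ℝ≥0∞) ≤ r := by exact_mod_cast hr1
  have key : ∀ n, r ≤ n → (r : ℝ≥0∞) ^ 3 * e n ≤ ε / r := by
    intro n hn
    rw [ENNReal.le_div_iff_mul_le (Or.inl hr0) (Or.inl hrt)]
    have hrn : (r : ℝ≥0∞) ≤ n := by exact_mod_cast hn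
    calc (r : ℝ≥0∞) ^ 3 * e n * r = (r : ℝ≥0∞) ^ 4 * e n := by ring
      _ ≤ (n : ℝ≥0∞) ^ 4 * e n := by gcongr
      _ ≤ ε := hN n (le_trans hrN hn)
  have h1 : (r : ℝ≥0∞) ^ 3 * er e r ≤ 4 * ε := by
    unfold er
    rw [Finset.mul_sum]
    calc ∑ n ∈ Finset.Icc r (4 * r), (r : ℝ≥0∞) ^ 3 * e n
        ≤ ∑ n ∈ Finset.Icc r (4 * r), ε / r :=
          Finset.sum_le_sum fun n hn => key n (Finset.mem_Icc.1 hn).1
      _ = ((4 * r + 1 - r : ℕ) : ℝ≥0∞) * (ε / r) := by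
          rw [Finset.sum_const, Nat.card_Icc, nsmul_eq_mul]
      _ ≤ ((4 * r : ℕ) : ℝ≥0∞) * (ε / r) := by
          gcongr
          omega
      _ = 4 * (r * (ε / r)) := by
          push_cast
          ring
      _ = 4 * ε := by rw [ENNReal.mul_div_cancel hr0 hrt]
  have h2 : (r : ℝ≥0∞) ^ 3 * e (2 * r) ≤ ε := by
    refine le_trans (key (2 * r) (by omega)) ?_
    exact ENNReal.div_le_of_le_mul (le_mul_of_one_le_right' hr1')
  refine ⟨?_, ?_⟩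
  · calc C * (r : ℝ≥0∞) ^ 3 * (er e r + e (2 * r))
        = C * ((r : ℝ≥0∞) ^ 3 * er e r + (r : ℝ≥0∞) ^ 3 * e (2 * r)) := by ring
      _ ≤ C * (4 * ε + ε) := by gcongr
      _ = 5 * C * ε := by ring
      _ ≤ 5 * (C + 1) * ε := by
          gcongr
          exact le_self_add
      _ = 2⁻¹ := hεC
  · intro h
    rw [h, ENNReal.mul_top (pow_ne_zero 3 hr0)] at h1
    exact absurd (top_le_iff.1 h1) (ENNReal.mul_ne_top (by norm_num) hεt)

end Pool.Agent.MPEF
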