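import Pool.Agent.Lib.MP_ef3f0f_gt.III.Spec

set_option autoImplicit false

namespace Pool.Agent.MPEF

open MeasureTheory Topology
open scoped ENNReal Pointwise

section

variable (P H : Type) [Group P] [Group H] [TopologicalSpace P] [TopologicalSpace H]
  [IsTopologicalGroup P] [IsTopologicalGroup H] [LocallyCompactSpace P] [LocallyCompactSpace H]
  [T2Space P] [T2Space H] [SecondCountableTopology P] [SecondCountableTopology H]
  [MeasurableSpace P] [MeasurableSpace H] [BorelSpace P] [BorelSpace H]

attribute [local irreducible] PTs

/-- Subtracting a homomorphism. -/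
theorem thsub : S_hsub P H := by
  intro D φ h hφ hh
  have h1 : h 1 = 0 := by
    have := hh 1 1
    rw [mul_one] at this
    linarith
  have hi : ∀ x, h x⁻¹ = - h x := by
    intro x
    have := hh x x⁻¹
    rw [mul_inv_cancel, h1] at this
    linarith
  have hdl : ∀ u v w, dl (fun x => φ x - h x) u v w = dl φ u v w := by
    intro u v w
    unfold dl ph
    simp only [hh, hi]
    ring
  refine ⟨⟨fun g x => ?_, fun x => ?_⟩, hdl, fun ka r => ?_, fun ka r hP => ?_⟩
  · simp only [hh, hi, hφ.conj]
    ring
  · simp only [hi, hφ.inv]
    ring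
  · have he : (fun u v w : D.Γ => ab (dl (fun x => φ x - h x) u v w)) =
        fun u v w => ab (dl φ u v w) := by
      funext u v w
      rw [hdl]
    unfold Dat.EE
    rw [he]
  · unfold Pos at hP ⊢
    intro t ht x y u v w a b c
    rw [hdl]
    exact hP t ht x y u v w a b c

end

end Pool.Agent.MPEF
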