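import Pool.Agent.Lib.MP_ef3f0f_gt.III.Spec

set_option autoImplicit false
set_option linter.unusedSectionVars false

/-! MP_ef3f0f_gt, part III, module ker: the kernels `ka`, `kb` and the kernels of the loops. -/

namespace Pool.Agent.MPEF

open MeasureTheory Topology
open scoped ENNReal Pointwise

section General

variable (P H : Type) [Group P] [Group H] [TopologicalSpace P] [TopologicalSpace H]
  [IsTopologicalGroup P] [IsTopologicalGroup H] [LocallyCompactSpace P] [LocallyCompactSpace H]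
  [T2Space P] [T2Space H] [SecondCountableTopology P] [SecondCountableTopology H]
  [MeasurableSpace P] [MeasurableSpace H] [BorelSpace P] [BorelSpace H]

private theorem ker_sub (G : Geo P) (hG : G.Ok) (M : ℕ) (a : Ty) (l : ℕ) :
    G.Om M a (l + 1) ⊆ G.Om M a l := by
  intro g hg
  refine hG.om M a l ?_
  have h1 : g = 1 * g * 1 := by group
  rw [h1]
  exact Set.mul_mem_mul (Set.mul_mem_mul (hG.b1 9) hg) (hG.b1 9)

private theorem ker_conv (μ : Measure P) [SigmaFinite μ] [IsFiniteMeasureOnCompacts μ]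
    (k k' : P → ℝ≥0∞) (hk : KB k) (hk' : KB k') :
    KB fun g => ∫⁻ q, k (g * q) * k' q ∂μ := by
  obtain ⟨C, hC, hC1⟩ := hk.bdd
  obtain ⟨C', hC', hC1'⟩ := hk'.bdd
  obtain ⟨K, hK, hK1⟩ := hk.supp
  obtain ⟨K', hK', hK1'⟩ := hk'.supp
  refine ⟨?_, ⟨C * C' * μ K', ENNReal.mul_ne_top (ENNReal.mul_ne_top hC hC')
    hK'.measure_lt_top.ne, fun g => ?_⟩, ⟨K * K'⁻¹, hK.mul hK'.inv, fun g hg => ?_⟩⟩
  · have h1 : Measurable fun p : P × P => k (p.1 * p.2) * k' p.2 :=
      (hk.meas.comp (measurable_fst.mul measurable_snd)).mul (hk'.meas.comp measurable_snd)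
    exact h1.lintegral_prod_right'
  · have h2 : ∀ q, k (g * q) * k' q ≤ K'.indicator (fun _ => C * C') q := by
      intro q
      by_cases h3 : q ∈ K'
      · rw [Set.indicator_of_mem h3]
        exact mul_le_mul' (hC1 _) (hC1' _)
      · rw [hK1' q h3, mul_zero]
        exact bot_le
    calc ∫⁻ q, k (g * q) * k' q ∂μ ≤ ∫⁻ q, K'.indicator (fun _ => C * C') q ∂μ :=
          lintegral_mono h2
      _ = C * C' * μ K' := by
          rw [lintegral_indicator hK'.isClosed.measurableSet, setLIntegral_const]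
  · have h2 : ∀ q, k (g * q) * k' q = 0 := by
      intro q
      by_cases h3 : q ∈ K'
      · rw [hK1 (g * q), zero_mul]
        intro h4
        refine hg ?_
        have h5 : g = g * q * q⁻¹ := by group
        rw [h5]
        exact Set.mul_mem_mul h4 (Set.inv_mem_inv.2 h3)
      · rw [hK1' q h3, mul_zero]
    show ∫⁻ q, k (g * q) * k' q ∂μ = 0
    rw [lintegral_congr h2, lintegral_zero]

theorem tker (h1 : S_inst P H) : S_ker P H := by
  intro D hD G hG M ka kb hk
  obtain ⟨s1, -, -, -, -⟩ := h1 D hD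
  have i1 := hD.haar₁
  have s40 : ∀ a, G.Om M a 4 ⊆ G.Om M a 2 := fun a =>
    (ker_sub P G hG M a 3).trans (ker_sub P G hG M a 2)
  have s20 : ∀ a, G.Om M a 2 ⊆ G.Om M a 0 := fun a =>
    (ker_sub P G hG M a 1).trans (ker_sub P G hG M a 0)
  obtain ⟨C, hC, hC1⟩ := hk.ab
  have bA : ∀ a, KB (ka a) := fun a =>
    ⟨hk.am a, ⟨C, hC, fun g => (hC1 a g).1⟩, ⟨closure (G.Om M a 0), hG.oc M a 0,
      fun g hg => hk.as a g fun h => hg (subset_closure h)⟩⟩
  have bB : ∀ a, KB (kb a) := fun a =>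
    ⟨hk.bm a, ⟨C, hC, fun g => (hC1 a g).2⟩, ⟨closure (G.Om M a 4), hG.oc M a 4,
      fun g hg => hk.bs a g fun h => hg (subset_closure h)⟩⟩
  refine ⟨fun a => ⟨bA a, bB a⟩, ?_, ?_⟩
  · obtain ⟨c, hc, hc1⟩ := hk.al
    refine ⟨C / c, ENNReal.div_ne_top hC hc.ne', fun a g => ?_⟩
    by_cases h2 : g ∈ G.Om M a 4
    · have h3 : c ≤ ka a g := (hc1 a).1 g (s40 a h2)
      have h4 : c ≠ ∞ := ne_top_of_le_ne_top hC (h3.trans (hC1 a g).1)
      calc kb a g ≤ C := (hC1 a g).2
        _ = C / c * c := (ENNReal.div_mul_cancel hc.ne' h4).symm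
        _ ≤ C / c * ka a g := mul_le_mul_right h3 _
    · rw [hk.bs a g h2]
      exact bot_le
  · intro a b hab k k' hka hkb
    have h2 : ∀ g, k g ≠ 0 → g ∈ G.Om M a 0 := by
      intro g hg
      by_contra h3
      rcases hka with h4 | h4
      · rw [h4] at hg
        exact hg (hk.as a g h3)
      · rw [h4] at hg
        exact hg (hk.bs a g fun h => h3 (s20 a (s40 a h)))
    have h2' : ∀ g, k' g ≠ 0 → g ∈ G.Om M b 0 := by
      intro g hg
      by_contra h3
      rcases hkb with h4 | h4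
      · rw [h4] at hg
        exact hg (hk.as b g h3)
      · rw [h4] at hg
        exact hg (hk.bs b g fun h => h3 (s20 b (s40 b h)))
    have h3 : KB k := by
      rcases hka with h4 | h4
      · rw [h4]; exact bA a
      · rw [h4]; exact bB a
    have h3' : KB k' := by
      rcases hkb with h4 | h4
      · rw [h4]; exact bA b
      · rw [h4]; exact bB b
    refine ⟨ker_conv P D.μ₁ k k' h3 h3', fun g hg => ?_⟩
    have h5 : ∀ q, k (g * q) * k' q = 0 := by
      intro q
      by_contra h6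
      have h7 := mul_ne_zero_iff.1 h6
      refine hg (hG.hy M a b hab ?_)
      have h8 : g = g * q * q⁻¹ := by group
      rw [h8]
      exact Set.mul_mem_mul (h2 _ h7.1) (Set.inv_mem_inv.2 (h2' _ h7.2))
    rw [lintegral_congr h5, lintegral_zero]

end General

end Pool.Agent.MPEF
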