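import Pool.Agent.Lib.MP_ef3f0f_gt.III.Spec

set_option autoImplicit false

/-!
# MP_ef3f0f_gt, Part III: the main estimate, abstract form
-/

namespace Pool.Agent.MPEF

open MeasureTheory Topology
open scoped ENNReal Pointwise

private theorem main_ab (z : ℝ) : ENNReal.ofReal z + ENNReal.ofReal (-z) = ab z := by
  unfold ab
  rcases le_total 0 z with h | h
  · rw [abs_of_nonneg h, ENNReal.ofReal_of_nonpos (show -z ≤ 0 by linarith), add_zero]
  · rw [abs_of_nonpos h, ENNReal.ofReal_of_nonpos h, zero_add]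

private theorem main_ofm (z : ℝ) : ENNReal.ofReal z = ENNReal.ofReal (max z 0) := by
  rcases le_total 0 z with h | h
  · rw [max_eq_left h]
  · rw [max_eq_right h, ENNReal.ofReal_of_nonpos h, ENNReal.ofReal_zero]

private theorem main_max (z : ℝ) : max z 0 = max (-z) 0 + z := by
  rcases le_total 0 z with h | h
  · rw [max_eq_left h, max_eq_right (show -z ≤ 0 by linarith), zero_add]
  · rw [max_eq_right h, max_eq_left (show 0 ≤ -z by linarith)]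
    ring

private theorem main_pt (p q s : ℝ) :
    ENNReal.ofReal (p + q + s) + (ENNReal.ofReal (-p) + ENNReal.ofReal (-q) + ENNReal.ofReal (-s)) =
      ENNReal.ofReal (-(p + q + s)) + (ENNReal.ofReal p + ENNReal.ofReal q + ENNReal.ofReal s) := by
  rw [main_ofm (p + q + s), main_ofm (-p), main_ofm (-q), main_ofm (-s), main_ofm (-(p + q + s)),
    main_ofm p, main_ofm q, main_ofm s]
  have h0 : ∀ z : ℝ, 0 ≤ max z 0 := fun z => le_max_right _ _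
  rw [← ENNReal.ofReal_add (h0 _) (h0 _), ← ENNReal.ofReal_add (add_nonneg (h0 _) (h0 _)) (h0 _),
    ← ENNReal.ofReal_add (h0 _) (add_nonneg (add_nonneg (h0 _) (h0 _)) (h0 _)),
    ← ENNReal.ofReal_add (h0 _) (h0 _), ← ENNReal.ofReal_add (add_nonneg (h0 _) (h0 _)) (h0 _),
    ← ENNReal.ofReal_add (h0 _) (add_nonneg (add_nonneg (h0 _) (h0 _)) (h0 _))]
  congr 1
  rw [main_max (p + q + s), main_max p, main_max q, main_max s]
  ring

section General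

variable (P H : Type) [Group P] [Group H] [TopologicalSpace P] [TopologicalSpace H]
  [IsTopologicalGroup P] [IsTopologicalGroup H] [LocallyCompactSpace P] [LocallyCompactSpace H]
  [T2Space P] [T2Space H] [SecondCountableTopology P] [SecondCountableTopology H]
  [MeasurableSpace P] [MeasurableSpace H] [BorelSpace P] [BorelSpace H]

/-- one edge -/
private theorem main_edge (h1 : S_T3r P H) (D : Dat P H) (hD : D.Ok) (K₁ K₂ K₃ : P × H → ℝ≥0∞)
    (m E : ℝ≥0∞) (k1 : Measurable K₁) (k2 : Measurable K₂) (k3 : Measurable K₃)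
    (hm : ∀ x y, D.N K₃ x y ≤ m + E ∧ m ≤ D.N K₃ x y + E) (A B : D.Γ → D.Γ → ℝ≥0∞)
    (hb : D.T2 K₁ K₂ A = D.T2 K₁ K₂ B) :
    D.T3 K₁ K₂ K₃ (fun u v _ => A u v) ≤ D.T3 K₁ K₂ K₃ (fun u v _ => B u v) +
      E * D.T2 K₁ K₂ (fun u v => A u v + B u v) := by
  obtain ⟨-, -, t2, up, lo⟩ := h1 D hD K₁ K₂ K₃ k1 k2 k3
  have e1 : D.T3 K₁ K₂ K₃ (fun u v _ => A u v) ≤ (m + E) * D.T2 K₁ K₂ A :=
    up A (m + E) (fun x y => (hm x y).1)
  have e2 : m * D.T2 K₁ K₂ B ≤ D.T3 K₁ K₂ K₃ (fun u v _ => B u v) + E * D.T2 K₁ K₂ B :=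
    lo B m E (fun x y => (hm x y).2)
  have e3 : D.T2 K₁ K₂ (fun u v => A u v + B u v) = D.T2 K₁ K₂ A + D.T2 K₁ K₂ B := t2 A B
  calc D.T3 K₁ K₂ K₃ (fun u v _ => A u v) ≤ (m + E) * D.T2 K₁ K₂ A := e1
    _ = m * D.T2 K₁ K₂ B + E * D.T2 K₁ K₂ A := by rw [add_mul, hb]
    _ ≤ (D.T3 K₁ K₂ K₃ (fun u v _ => B u v) + E * D.T2 K₁ K₂ B) + E * D.T2 K₁ K₂ A :=
        add_le_add_left e2 _
    _ = D.T3 K₁ K₂ K₃ (fun u v _ => B u v) + E * D.T2 K₁ K₂ (fun u v => A u v + B u v) := by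
        rw [e3, mul_add, add_assoc, add_comm (E * D.T2 K₁ K₂ B)]

/-- one of the two inequalities, for an arbitrary function -/
private theorem main_half (h1 : S_T3r P H) (h2 : S_finK P H) (D : Dat P H) (hD : D.Ok) (φ : D.Γ → ℝ)
    (K₁ K₂ K₃ : P × H → ℝ≥0∞) (m₁ m₂ m₃ E : ℝ≥0∞) (k1 : KC K₁) (k2 : KC K₂) (k3 : KC K₃)
    (hm1 : ∀ x y, D.N K₁ x y ≤ m₁ + E ∧ m₁ ≤ D.N K₁ x y + E)
    (hm2 : ∀ x y, D.N K₂ x y ≤ m₂ + E ∧ m₂ ≤ D.N K₂ x y + E)
    (hm3 : ∀ x y, D.N K₃ x y ≤ m₃ + E ∧ m₃ ≤ D.N K₃ x y + E)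
    (b12 : D.T2 K₁ K₂ (fun u v => ENNReal.ofReal (ph φ u v)) =
      D.T2 K₁ K₂ (fun u v => ENNReal.ofReal (- ph φ u v)))
    (b23 : D.T2 K₂ K₃ (fun u v => ENNReal.ofReal (ph φ u v)) =
      D.T2 K₂ K₃ (fun u v => ENNReal.ofReal (- ph φ u v)))
    (b31 : D.T2 K₃ K₁ (fun u v => ENNReal.ofReal (ph φ u v)) =
      D.T2 K₃ K₁ (fun u v => ENNReal.ofReal (- ph φ u v))) :
    D.T3 K₁ K₂ K₃ (fun u v w => ENNReal.ofReal (dl φ u v w)) ≤
      D.T3 K₁ K₂ K₃ (fun u v w => ENNReal.ofReal (- dl φ u v w)) +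
        E * (D.T2 K₁ K₂ (fun u v => ab (ph φ u v)) + D.T2 K₂ K₃ (fun u v => ab (ph φ u v)) +
          D.T2 K₃ K₁ (fun u v => ab (ph φ u v))) := by
  obtain ⟨rot, add3, -, -, -⟩ := h1 D hD K₁ K₂ K₃ k1.meas k2.meas k3.meas
  obtain ⟨rot', -, -, -, -⟩ := h1 D hD K₂ K₃ K₁ k2.meas k3.meas k1.meas
  have hfin := ((h2 D hD).2.2 K₁ K₂ K₃ k1 k2 k3).2
  have hab : ∀ K K' : P × H → ℝ≥0∞,
      D.T2 K K' (fun u v => ENNReal.ofReal (ph φ u v) + ENNReal.ofReal (- ph φ u v)) =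
        D.T2 K K' (fun u v => ab (ph φ u v)) := by
    intro K K'
    have : (fun u v : D.Γ => ENNReal.ofReal (ph φ u v) + ENNReal.ofReal (- ph φ u v)) =
        fun u v => ab (ph φ u v) := by
      funext u v
      exact main_ab _
    rw [this]
  -- the three edges
  have ep : D.T3 K₁ K₂ K₃ (fun u v _ => ENNReal.ofReal (ph φ u v)) ≤
      D.T3 K₁ K₂ K₃ (fun u v _ => ENNReal.ofReal (- ph φ u v)) +
        E * D.T2 K₁ K₂ (fun u v => ab (ph φ u v)) := by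
    have := main_edge P H h1 D hD K₁ K₂ K₃ m₃ E k1.meas k2.meas k3.meas hm3 _ _ b12
    rw [hab] at this
    exact this
  have eq : D.T3 K₁ K₂ K₃ (fun _ v w => ENNReal.ofReal (ph φ v w)) ≤
      D.T3 K₁ K₂ K₃ (fun _ v w => ENNReal.ofReal (- ph φ v w)) +
        E * D.T2 K₂ K₃ (fun u v => ab (ph φ u v)) := by
    have := main_edge P H h1 D hD K₂ K₃ K₁ m₁ E k2.meas k3.meas k1.meas hm1 _ _ b23
    rw [hab] at this
    rw [rot (fun _ v w => ENNReal.ofReal (ph φ v w)), rot (fun _ v w => ENNReal.ofReal (- ph φ v w))]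
    exact this
  have es : D.T3 K₁ K₂ K₃ (fun u _ w => ENNReal.ofReal (ph φ w u)) ≤
      D.T3 K₁ K₂ K₃ (fun u _ w => ENNReal.ofReal (- ph φ w u)) +
        E * D.T2 K₃ K₁ (fun u v => ab (ph φ u v)) := by
    have := main_edge P H h1 D hD K₃ K₁ K₂ m₂ E k3.meas k1.meas k2.meas hm2 _ _ b31
    rw [hab] at this
    rw [rot (fun u _ w => ENNReal.ofReal (ph φ w u)), rot (fun u _ w => ENNReal.ofReal (- ph φ w u)),
      rot' (fun _ w u => ENNReal.ofReal (ph φ w u)), rot' (fun _ w u => ENNReal.ofReal (- ph φ w u))]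
    exact this
  -- the sum
  have esum : D.T3 K₁ K₂ K₃ (fun u v w => ENNReal.ofReal (dl φ u v w)) +
      (D.T3 K₁ K₂ K₃ (fun u v _ => ENNReal.ofReal (- ph φ u v)) +
        D.T3 K₁ K₂ K₃ (fun _ v w => ENNReal.ofReal (- ph φ v w)) +
        D.T3 K₁ K₂ K₃ (fun u _ w => ENNReal.ofReal (- ph φ w u))) =
      D.T3 K₁ K₂ K₃ (fun u v w => ENNReal.ofReal (- dl φ u v w)) +
      (D.T3 K₁ K₂ K₃ (fun u v _ => ENNReal.ofReal (ph φ u v)) +
        D.T3 K₁ K₂ K₃ (fun _ v w => ENNReal.ofReal (ph φ v w)) +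
        D.T3 K₁ K₂ K₃ (fun u _ w => ENNReal.ofReal (ph φ w u))) := by
    rw [← add3, ← add3, ← add3, ← add3, ← add3, ← add3]
    have : (fun u v w : D.Γ => ENNReal.ofReal (dl φ u v w) +
        (ENNReal.ofReal (- ph φ u v) + ENNReal.ofReal (- ph φ v w) + ENNReal.ofReal (- ph φ w u))) =
        fun u v w => ENNReal.ofReal (- dl φ u v w) +
        (ENNReal.ofReal (ph φ u v) + ENNReal.ofReal (ph φ v w) + ENNReal.ofReal (ph φ w u)) := by
      funext u v w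
      exact main_pt _ _ _
    rw [this]
  have hX : D.T3 K₁ K₂ K₃ (fun u v _ => ENNReal.ofReal (- ph φ u v)) +
        D.T3 K₁ K₂ K₃ (fun _ v w => ENNReal.ofReal (- ph φ v w)) +
        D.T3 K₁ K₂ K₃ (fun u _ w => ENNReal.ofReal (- ph φ w u)) ≠ ∞ :=
    ENNReal.add_ne_top.2 ⟨ENNReal.add_ne_top.2 ⟨hfin _ (fun _ _ _ => ENNReal.ofReal_ne_top),
      hfin _ (fun _ _ _ => ENNReal.ofReal_ne_top)⟩, hfin _ (fun _ _ _ => ENNReal.ofReal_ne_top)⟩
  rw [← ENNReal.add_le_add_iff_right hX, esum]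
  refine (add_le_add_right (add_le_add (add_le_add ep eq) es) _).trans (le_of_eq ?_)
  ring

/-- **The main estimate**, abstract form. -/
theorem tmain (h1 : S_T3r P H) (h2 : S_finK P H) : S_main P H := by
  intro D hD φ _ K₁ K₂ K₃ m₁ m₂ m₃ E k1 k2 k3 hm1 hm2 hm3 b12 b23 b31
  refine ⟨main_half P H h1 h2 D hD φ K₁ K₂ K₃ m₁ m₂ m₃ E k1 k2 k3 hm1 hm2 hm3 b12 b23 b31, ?_⟩
  have hph : ∀ u v : D.Γ, ph (fun x => - φ x) u v = - ph φ u v := fun u v => rfl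
  have hdl : ∀ u v w : D.Γ, dl (fun x => - φ x) u v w = - dl φ u v w := by
    intro u v w
    unfold dl
    rw [hph, hph, hph]
    ring
  have hab : ∀ z : ℝ, ab (-z) = ab z := by
    intro z
    unfold ab
    rw [abs_neg]
  have key := main_half P H h1 h2 D hD (fun x => - φ x) K₁ K₂ K₃ m₁ m₂ m₃ E k1 k2 k3 hm1 hm2 hm3
    (by simp only [hph, neg_neg]; exact b12.symm) (by simp only [hph, neg_neg]; exact b23.symm)
    (by simp only [hph, neg_neg]; exact b31.symm)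
  simp only [hph, hdl, hab, neg_neg] at key
  exact key

end General

end Pool.Agent.MPEF
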