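import Pool.Agent.Lib.MP_ef3f0f_gt.III.Spec

set_option autoImplicit false

/-! MP_ef3f0f_gt, Part III, module mp: measure preservation of the flip. -/

namespace Pool.Agent.MPEF

open MeasureTheory Topology
open scoped ENNReal Pointwise

private noncomputable def mp_be : ℝ → ℝ≥0∞ :=
  (Set.Icc (-(1 / 2) : ℝ) (1 / 2)).indicator fun _ => 1

private theorem mp_be_meas : Measurable mp_be :=
  measurable_const.indicator measurableSet_Icc

private theorem mp_be_neg (s : ℝ) : mp_be (-s) = mp_be s := by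
  unfold mp_be
  by_cases h : s ∈ Set.Icc (-(1 / 2) : ℝ) (1 / 2)
  · have h' : -s ∈ Set.Icc (-(1 / 2) : ℝ) (1 / 2) := by
      rw [Set.mem_Icc] at h ⊢
      constructor <;> linarith
    rw [Set.indicator_of_mem h, Set.indicator_of_mem h']
  · have h' : -s ∉ Set.Icc (-(1 / 2) : ℝ) (1 / 2) := by
      intro h'
      apply h
      rw [Set.mem_Icc] at h' ⊢
      constructor <;> linarith
    rw [Set.indicator_of_notMem h, Set.indicator_of_notMem h']

private theorem mp_be_int (c : ℝ) : ∫⁻ s : ℝ, mp_be (c - s) = 1 := by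
  rw [lintegral_sub_left_eq_self (μ := (volume : Measure ℝ)) (fun s => mp_be s) c]
  unfold mp_be
  rw [lintegral_indicator measurableSet_Icc, setLIntegral_const, Real.volume_Icc]
  norm_num

private theorem mp_star {P : Type} [Group P] [MeasurableSpace P] [MeasurableMul₂ P] (μ : Measure P)
    [SFinite μ] [μ.IsMulLeftInvariant] (a : ℝ → P) (t : P → ℝ) (ha : Measurable a)
    (ht : Measurable t) (hta : ∀ s x, t (a s * x) = s + t x) (F : P → ℝ≥0∞) (hF : Measurable F) :
    ∫⁻ x, F x ∂μ = ∫⁻ x, mp_be (t x) * (∫⁻ s : ℝ, F (a s * x) ∂volume) ∂μ := by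
  have hm1 : Measurable (Function.uncurry fun (x : P) (s : ℝ) => mp_be (t x - s) * F x) :=
    (mp_be_meas.comp ((ht.comp measurable_fst).sub measurable_snd)).mul (hF.comp measurable_fst)
  have hm2 : Measurable (Function.uncurry fun (s : ℝ) (x : P) => mp_be (t x) * F (a s * x)) :=
    (mp_be_meas.comp (ht.comp measurable_snd)).mul
      (hF.comp ((ha.comp measurable_fst).mul measurable_snd))
  calc ∫⁻ x, F x ∂μ = ∫⁻ x, (∫⁻ s : ℝ, mp_be (t x - s) * F x ∂volume) ∂μ := by
        refine lintegral_congr fun x => ?_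
        have hm : Measurable fun s : ℝ => mp_be (t x - s) :=
          mp_be_meas.comp (measurable_const.sub measurable_id)
        rw [lintegral_mul_const _ hm, mp_be_int, one_mul]
    _ = ∫⁻ s : ℝ, (∫⁻ x, mp_be (t x - s) * F x ∂μ) ∂volume := lintegral_lintegral_swap hm1.aemeasurable
    _ = ∫⁻ s : ℝ, (∫⁻ x, mp_be (t x) * F (a s * x) ∂μ) ∂volume := by
        refine lintegral_congr fun s => ?_
        rw [← lintegral_mul_left_eq_self (μ := μ) (fun x => mp_be (t x - s) * F x) (a s)]
        refine lintegral_congr fun x => ?_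
        rw [hta, add_sub_cancel_left]
    _ = ∫⁻ x, (∫⁻ s : ℝ, mp_be (t x) * F (a s * x) ∂volume) ∂μ := lintegral_lintegral_swap hm2.aemeasurable
    _ = ∫⁻ x, mp_be (t x) * (∫⁻ s : ℝ, F (a s * x) ∂volume) ∂μ := by
        refine lintegral_congr fun x => ?_
        have hm : Measurable fun s : ℝ => F (a s * x) := hF.comp (ha.mul measurable_const)
        rw [lintegral_const_mul _ hm]

theorem tmp : S_mp := by
  intro P _ _ _ μ _ _ a J t ha haa hJ ht hta htJ f hf
  have hF : Measurable fun x : P => f (a (2 * t x) * J * x) :=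
    hf.comp (((ha.comp (ht.const_mul 2)).mul_const J).mul measurable_id)
  rw [mp_star μ a t ha ht hta _ hF]
  have h1 : ∀ x : P, ∫⁻ s : ℝ, f (a (2 * t (a s * x)) * J * (a s * x)) =
      ∫⁻ s : ℝ, f (a s * (J * x)) := by
    intro x
    have h2 : ∀ s : ℝ, a (2 * t (a s * x)) * J * (a s * x) = a (s + 2 * t x) * (J * x) := by
      intro s
      have h3 : a (2 * t (a s * x)) * a (-s) = a (s + 2 * t x) := by
        rw [← haa, hta]
        congr 1
        ring
      calc a (2 * t (a s * x)) * J * (a s * x) = a (2 * t (a s * x)) * (J * a s) * x := by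
            simp only [mul_assoc]
        _ = a (2 * t (a s * x)) * (a (-s) * J) * x := by rw [hJ]
        _ = (a (2 * t (a s * x)) * a (-s)) * (J * x) := by simp only [mul_assoc]
        _ = a (s + 2 * t x) * (J * x) := by rw [h3]
    calc ∫⁻ s : ℝ, f (a (2 * t (a s * x)) * J * (a s * x)) =
        ∫⁻ s : ℝ, f (a (s + 2 * t x) * (J * x)) := lintegral_congr fun s => by rw [h2 s]
      _ = ∫⁻ s : ℝ, f (a s * (J * x)) :=
        lintegral_add_right_eq_self (μ := (volume : Measure ℝ)) (fun s => f (a s * (J * x)))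
          (2 * t x)
  calc ∫⁻ x, mp_be (t x) * (∫⁻ s : ℝ, f (a (2 * t (a s * x)) * J * (a s * x)) ∂volume) ∂μ =
      ∫⁻ x, mp_be (t (J * x)) * (∫⁻ s : ℝ, f (a s * (J * x)) ∂volume) ∂μ := by
        refine lintegral_congr fun x => ?_
        rw [h1 x, htJ, mp_be_neg]
    _ = ∫⁻ x, mp_be (t x) * (∫⁻ s : ℝ, f (a s * x) ∂volume) ∂μ :=
        lintegral_mul_left_eq_self (μ := μ)
          (fun x => mp_be (t x) * ∫⁻ s : ℝ, f (a s * x)) J
    _ = ∫⁻ x, f x ∂μ := (mp_star μ a t ha ht hta f hf).symm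

end Pool.Agent.MPEF
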