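import Pool.Agent.Lib.MP_ef3f0f_gt.III.Spec

set_option autoImplicit false
set_option linter.unusedSectionVars false

/-!
# MP_ef3f0f_gt, Part III: exact balance for two edges (`S_pair`)
-/

namespace Pool.Agent.MPEF

open MeasureTheory Topology
open scoped ENNReal Pointwise

section General

variable (P H : Type) [Group P] [Group H] [TopologicalSpace P] [TopologicalSpace H]
  [IsTopologicalGroup P] [IsTopologicalGroup H] [LocallyCompactSpace P] [LocallyCompactSpace H]
  [T2Space P] [T2Space H] [SecondCountableTopology P] [SecondCountableTopology H]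
  [MeasurableSpace P] [MeasurableSpace H] [BorelSpace P] [BorelSpace H]

theorem tpair (h1 : S_wr P H) (h2 : S_ker P H) (h3 : S_six P H) : S_pair P H := by
  intro D hD G hG hB M ka kb hK a b hab φ hφ
  obtain ⟨hKB, -, hker⟩ := h2 D hD G hG M ka kb hK
  -- two lengths
  have key : ∀ k k' : P → ℝ≥0∞, (k = ka a ∨ k = kb a) → (k' = ka b ∨ k' = kb b) →
      Measurable k → Measurable k' → ∀ n m : ℕ, 1 ≤ n → 1 ≤ m →
      D.T2 (D.tk k n) (D.tk k' m) (fun u v => ENNReal.ofReal (ph φ u v)) =
        D.T2 (D.tk k n) (D.tk k' m) (fun u v => ENNReal.ofReal (- ph φ u v)) := by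
    intro k k' hk hk' hkm hkm' n m hn hm
    obtain ⟨hψ, hψ0⟩ := hker a b hab k k' hk hk'
    have s1 := h3 D hD k k' hkm hkm' n m hn hm (fun γ => ENNReal.ofReal (φ γ))
    have s2 := h3 D hD k k' hkm hkm' n m hn hm (fun γ => ENNReal.ofReal (- φ γ))
    have s3 := hB _ hψ.meas hψ.bdd hψ.supp hψ0 (n + m) (by omega)
      (fun γ => ENNReal.ofReal (φ γ)) (fun g x => by rw [hφ.conj])
    simp only [hφ.inv] at s3
    exact s1.trans (s3.trans s2.symm)
  refine ⟨?_, ?_⟩
  · intro r hr
    obtain ⟨-, -, -, w1, -⟩ := h1 D hD (ka a) (ka b) (hK.am a) (hK.am b) r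
    rw [w1, w1]
    refine Finset.sum_congr rfl fun n hn => Finset.sum_congr rfl fun m hm => ?_
    rw [Finset.mem_Icc] at hn hm
    exact key _ _ (Or.inl rfl) (Or.inl rfl) (hK.am a) (hK.am b) n m (by omega) (by omega)
  · intro n hn
    exact key _ _ (Or.inr rfl) (Or.inr rfl) (hK.bm a) (hK.bm b) n n hn hn

end General

end Pool.Agent.MPEF
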