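import Pool.Agent.Lib.MP_ef3f0f_gt.III.Spec

set_option autoImplicit false

/-! MP_ef3f0f_gt, Part III, module slflow: the flow in `SL₂(ℝ)`. -/

namespace Pool.Agent.MPEF

open MeasureTheory Topology
open scoped ENNReal Pointwise

private theorem slf_ext {g h : SL2} (h00 : g.1 0 0 = h.1 0 0) (h01 : g.1 0 1 = h.1 0 1)
    (h10 : g.1 1 0 = h.1 1 0) (h11 : g.1 1 1 = h.1 1 1) : g = h := by
  apply Subtype.ext
  ext i j
  fin_cases i <;> fin_cases j <;> assumption

private theorem slf_mul (g h : SL2) (i j : Fin 2) :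
    (g * h).1 i j = g.1 i 0 * h.1 0 j + g.1 i 1 * h.1 1 j := by
  rw [Matrix.SpecialLinearGroup.coe_mul, Matrix.mul_apply, Fin.sum_univ_two]

private theorem slf_det (g : SL2) : g.1 0 0 * g.1 1 1 - g.1 0 1 * g.1 1 0 = 1 := by
  have := g.2
  rwa [Matrix.det_fin_two] at this

private theorem slf_d00 (l : ℝ) (hl : l ≠ 0) : (dgl l hl).1 0 0 = l := rfl
private theorem slf_d01 (l : ℝ) (hl : l ≠ 0) : (dgl l hl).1 0 1 = 0 := rfl
private theorem slf_d10 (l : ℝ) (hl : l ≠ 0) : (dgl l hl).1 1 0 = 0 := rfl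
private theorem slf_d11 (l : ℝ) (hl : l ≠ 0) : (dgl l hl).1 1 1 = l⁻¹ := rfl

private noncomputable def slfJ : SL2 := ⟨!![0, -1; 1, 0], by simp [Matrix.det_fin_two_of]⟩

private theorem slf_J00 : slfJ.1 0 0 = 0 := rfl
private theorem slf_J01 : slfJ.1 0 1 = -1 := rfl
private theorem slf_J10 : slfJ.1 1 0 = 1 := rfl
private theorem slf_J11 : slfJ.1 1 1 = 0 := rfl

private theorem slf_dmul (l m : ℝ) (hl : l ≠ 0) (hm : m ≠ 0) :
    dgl l hl * dgl m hm = dgl (l * m) (mul_ne_zero hl hm) := by
  apply slf_ext <;> rw [slf_mul] <;>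
    simp only [slf_d00, slf_d01, slf_d10, slf_d11, mul_zero, zero_mul, add_zero, zero_add]
  rw [mul_inv]

private theorem slf_dcongr {l m : ℝ} (h : l = m) (hl : l ≠ 0) (hm : m ≠ 0) :
    dgl l hl = dgl m hm := by
  subst h
  rfl

private theorem slf_done : dgl 1 one_ne_zero = 1 := by
  apply slf_ext
  · rw [slf_d00]; simp
  · rw [slf_d01]; simp
  · rw [slf_d10]; simp
  · rw [slf_d11]; simp

private theorem slf_dinv (l : ℝ) (hl : l ≠ 0) : (dgl l hl)⁻¹ = dgl l⁻¹ (inv_ne_zero hl) := by
  rw [inv_eq_iff_mul_eq_one, slf_dmul, ← slf_done]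
  exact slf_dcongr (mul_inv_cancel₀ hl) _ _

private theorem slf_Jd (l : ℝ) (hl : l ≠ 0) :
    slfJ * dgl l hl = dgl l⁻¹ (inv_ne_zero hl) * slfJ := by
  apply slf_ext <;> rw [slf_mul, slf_mul] <;>
    simp only [slf_d00, slf_d01, slf_d10, slf_d11, slf_J00, slf_J01, slf_J10, slf_J11, mul_zero,
      zero_mul, add_zero, zero_add, inv_inv, one_mul, mul_one, neg_mul, mul_neg, neg_zero]

private noncomputable def slfa (s : ℝ) : SL2 := dgl (Real.exp s) (Real.exp_ne_zero s)

private noncomputable def slfR (x : SL2) (i : Fin 2) : ℝ := x.1 i 0 ^ 2 + x.1 i 1 ^ 2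

private noncomputable def slft (x : SL2) : ℝ := 4⁻¹ * Real.log (slfR x 0 / slfR x 1)

private theorem slf_Rpos (x : SL2) (i : Fin 2) : 0 < slfR x i := by
  have h := slf_det x
  rcases (add_nonneg (sq_nonneg (x.1 i 0)) (sq_nonneg (x.1 i 1))).lt_or_eq with h1 | h1
  · exact h1
  · exfalso
    have h2 : x.1 i 0 ^ 2 = 0 := by
      have := sq_nonneg (x.1 i 0)
      have := sq_nonneg (x.1 i 1)
      linarith
    have h3 : x.1 i 1 ^ 2 = 0 := by
      have := sq_nonneg (x.1 i 0)
      have := sq_nonneg (x.1 i 1)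
      linarith
    have h4 : x.1 i 0 = 0 := by simpa using h2
    have h5 : x.1 i 1 = 0 := by simpa using h3
    fin_cases i
    · have h4' : x.1 0 0 = 0 := h4
      have h5' : x.1 0 1 = 0 := h5
      rw [h4', h5'] at h
      simp at h
    · have h4' : x.1 1 0 = 0 := h4
      have h5' : x.1 1 1 = 0 := h5
      rw [h4', h5'] at h
      simp at h

private theorem slf_cent (i j : Fin 2) : Continuous fun x : SL2 => x.1 i j :=
  (continuous_apply j).comp ((continuous_apply i).comp continuous_subtype_val)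

private theorem slf_tcont : Continuous slft := by
  have h1 : ∀ i : Fin 2, Continuous fun x : SL2 => slfR x i := fun i =>
    ((slf_cent i 0).pow 2).add ((slf_cent i 1).pow 2)
  have h2 : Continuous fun x : SL2 => slfR x 0 / slfR x 1 :=
    (h1 0).div (h1 1) fun x => (slf_Rpos x 1).ne'
  exact continuous_const.mul (h2.log fun x => (div_pos (slf_Rpos x 0) (slf_Rpos x 1)).ne')

private theorem slf_acont : Continuous slfa := by
  refine Continuous.subtype_mk (continuous_pi fun i => continuous_pi fun j => ?_) _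
  fin_cases i <;> fin_cases j
  · exact Real.continuous_exp
  · exact continuous_const
  · exact continuous_const
  · exact Real.continuous_exp.inv₀ fun s => Real.exp_ne_zero s

private theorem slf_td (l : ℝ) (hl : l ≠ 0) (x : SL2) :
    slft (dgl l hl * x) = Real.log |l| + slft x := by
  have h0 : slfR (dgl l hl * x) 0 = l ^ 2 * slfR x 0 := by
    unfold slfR
    rw [slf_mul, slf_mul]
    simp only [slf_d00, slf_d01, zero_mul, add_zero]
    ring
  have h1 : slfR (dgl l hl * x) 1 = (l ^ 2)⁻¹ * slfR x 1 := by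
    unfold slfR
    rw [slf_mul, slf_mul]
    simp only [slf_d10, slf_d11, zero_mul, zero_add]
    rw [← inv_pow]
    ring
  have h2 : slfR (dgl l hl * x) 0 / slfR (dgl l hl * x) 1 = l ^ 4 * (slfR x 0 / slfR x 1) := by
    rw [h0, h1]
    have := (slf_Rpos x 1).ne'
    field_simp
  unfold slft
  rw [h2, Real.log_mul (pow_ne_zero 4 hl) (div_pos (slf_Rpos x 0) (slf_Rpos x 1)).ne',
    Real.log_pow, Real.log_abs]
  push_cast
  ring

private theorem slf_tJ (x : SL2) : slft (slfJ * x) = - slft x := by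
  have h0 : slfR (slfJ * x) 0 = slfR x 1 := by
    unfold slfR
    rw [slf_mul, slf_mul]
    simp only [slf_J00, slf_J01, zero_mul, zero_add]
    ring
  have h1 : slfR (slfJ * x) 1 = slfR x 0 := by
    unfold slfR
    rw [slf_mul, slf_mul]
    simp only [slf_J10, slf_J11, zero_mul, add_zero, one_mul]
  unfold slft
  rw [h0, h1, ← inv_div (slfR x 0), Real.log_inv]
  ring

theorem tslflow : S_slflow := by
  refine ⟨slfa, slfJ, slft, slf_acont, ?_, ?_, slf_tcont.measurable, ?_, slf_tJ, slf_td, ?_, ?_, ?_⟩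
  · intro s s'
    unfold slfa
    rw [slf_dmul]
    exact slf_dcongr (Real.exp_add s s') _ _
  · intro s
    unfold slfa
    rw [slf_Jd]
    congr 1
    exact slf_dcongr (Real.exp_neg s).symm _ _
  · intro s x
    unfold slfa
    rw [slf_td, abs_of_pos (Real.exp_pos s), Real.log_exp]
  · intro l hl
    refine ⟨?_, ?_, ?_⟩
    · rw [slf_Jd, slf_dinv]
    · rw [slf_dinv, slf_Jd]
      congr 1
      exact slf_dcongr (inv_inv l) _ _
    · unfold slfa
      rw [slf_dmul]
      apply slf_dcongr
      rw [two_mul, Real.exp_add, Real.exp_log (abs_pos.2 hl), abs_mul_abs_self]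
  · intro l hl s
    unfold slfa
    rw [slf_dmul, slf_dmul]
    exact slf_dcongr (mul_comm _ _) _ _
  · intro l l' hl hl' g h1 h1' hg
    have hg' : g * dgl l' hl' = dgl l hl * g := by
      rw [← hg]
      group
    have e00 : g.1 0 0 * l' = l * g.1 0 0 := by
      have := congrArg (fun x : SL2 => x.1 0 0) hg'
      simp only [slf_mul, slf_d00, slf_d10, slf_d01, mul_zero, add_zero, zero_mul] at this
      exact this
    have e01 : g.1 0 1 * l'⁻¹ = l * g.1 0 1 := by
      have := congrArg (fun x : SL2 => x.1 0 1) hg'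
      simp only [slf_mul, slf_d00, slf_d11, slf_d01, mul_zero, add_zero, zero_mul, zero_add] at this
      exact this
    have e10 : g.1 1 0 * l' = l⁻¹ * g.1 1 0 := by
      have := congrArg (fun x : SL2 => x.1 1 0) hg'
      simp only [slf_mul, slf_d00, slf_d11, slf_d10, mul_zero, add_zero, zero_mul, zero_add] at this
      exact this
    have hdet := slf_det g
    by_cases h00 : g.1 0 0 = 0
    · exfalso
      have h01 : g.1 0 1 ≠ 0 := by
        intro h
        rw [h00, h] at hdet
        simp at hdet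
      have h2 : l'⁻¹ = l := by
        have : g.1 0 1 * l'⁻¹ = g.1 0 1 * l := by rw [e01, mul_comm]
        exact mul_left_cancel₀ h01 this
      rw [← h2, abs_inv] at h1
      have h3 : |l'|⁻¹ < 1 := inv_lt_one_of_one_lt₀ h1'
      linarith
    · have hll : l' = l := by
        have : g.1 0 0 * l' = g.1 0 0 * l := by rw [e00, mul_comm]
        exact mul_left_cancel₀ h00 this
      have hne : l⁻¹ ≠ l := by
        intro h
        have h2 : |l|⁻¹ < 1 := inv_lt_one_of_one_lt₀ h1
        rw [← abs_inv, h] at h2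
        linarith
      have h01 : g.1 0 1 = 0 := by
        by_contra h
        apply hne
        rw [hll] at e01
        have : g.1 0 1 * l⁻¹ = g.1 0 1 * l := by rw [e01, mul_comm]
        exact mul_left_cancel₀ h this
      have h10 : g.1 1 0 = 0 := by
        by_contra h
        apply hne
        rw [hll] at e10
        have : g.1 1 0 * l⁻¹ = g.1 1 0 * l := by rw [e10, mul_comm]
        exact mul_left_cancel₀ h this
      refine ⟨hll.symm, g.1 0 0, h00, ?_⟩
      apply slf_ext
      · rw [slf_d00]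
      · rw [slf_d01, h01]
      · rw [slf_d10, h10]
      · rw [slf_d11]
        rw [h01, zero_mul, sub_zero] at hdet
        exact eq_inv_of_mul_eq_one_right hdet

end Pool.Agent.MPEF
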