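import Pool.Agent.Lib.MP_ef3f0f_gt.III.Spec

set_option autoImplicit false
set_option linter.unusedSectionVars false

/-!
# MP_ef3f0f_gt, Part III: the kernel `wr` is a sum (`S_wr`)
-/

namespace Pool.Agent.MPEF

open MeasureTheory Topology
open scoped ENNReal Pointwise

section General

variable (P H : Type) [Group P] [Group H] [TopologicalSpace P] [TopologicalSpace H]
  [IsTopologicalGroup P] [IsTopologicalGroup H] [LocallyCompactSpace P] [LocallyCompactSpace H]
  [T2Space P] [T2Space H] [SecondCountableTopology P] [SecondCountableTopology H]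
  [MeasurableSpace P] [MeasurableSpace H] [BorelSpace P] [BorelSpace H]

variable {P H} in
omit [TopologicalSpace P] [TopologicalSpace H]
  [IsTopologicalGroup P] [IsTopologicalGroup H] [LocallyCompactSpace P] [LocallyCompactSpace H]
  [T2Space P] [T2Space H] [SecondCountableTopology P] [SecondCountableTopology H]
  [BorelSpace P] [BorelSpace H] in
private theorem wr_eq (D : Dat P H) (k : P → ℝ≥0∞) (r : ℕ) (g : P × H) :
    D.wr k r g = ∑ n ∈ Finset.Icc r (4 * r), D.tk k n g := by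
  simp only [Dat.wr, Dat.tk, Finset.mul_sum]

variable {P H} in
omit [LocallyCompactSpace P] [LocallyCompactSpace H] [T2Space P] [T2Space H] in
private theorem wr_m (D : Dat P H) (hc : Countable D.Γ) (hχ : Measurable D.χ)
    (K₁ K₂ : P × H → ℝ≥0∞) (h₁ : Measurable K₁) (h₂ : Measurable K₂)
    (Φ : D.Γ → D.Γ → ℝ≥0∞) :
    Measurable fun q : (P × H) × (P × H) => D.χ q.2 * ∑' u : D.Γ, ∑' v : D.Γ,
      K₁ (q.1⁻¹ * (u : P × H) * q.2) * K₂ (q.1⁻¹ * (v : P × H) * q.2) * Φ u v := by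
  refine (hχ.comp measurable_snd).mul
    (Measurable.tsum fun u => Measurable.tsum fun v => ?_)
  refine ((h₁.comp ?_).mul (h₂.comp ?_)).mul_const _
  · exact (measurable_fst.inv.mul_const _).mul measurable_snd
  · exact (measurable_fst.inv.mul_const _).mul measurable_snd

variable {P H} in
omit [LocallyCompactSpace P] [LocallyCompactSpace H] [T2Space P] [T2Space H] in
private theorem wr_T2 (D : Dat P H) (hc : Countable D.Γ) (hχ : Measurable D.χ)
    (hμ : SigmaFinite D.μ) (k k' : P → ℝ≥0∞) (r : ℕ)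
    (hk : ∀ n, Measurable (D.tk k n)) (hk' : ∀ n, Measurable (D.tk k' n))
    (Φ : D.Γ → D.Γ → ℝ≥0∞) :
    D.T2 (D.wr k r) (D.wr k' r) Φ =
      ∑ n ∈ Finset.Icc r (4 * r), ∑ m ∈ Finset.Icc r (4 * r), D.T2 (D.tk k n) (D.tk k' m) Φ := by
  have e1 : ∀ x y : P × H, D.χ y * (∑' u : D.Γ, ∑' v : D.Γ,
      D.wr k r (x⁻¹ * (u : P × H) * y) * D.wr k' r (x⁻¹ * (v : P × H) * y) * Φ u v) =
      ∑ n ∈ Finset.Icc r (4 * r), ∑ m ∈ Finset.Icc r (4 * r),
        D.χ y * ∑' u : D.Γ, ∑' v : D.Γ,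
          D.tk k n (x⁻¹ * (u : P × H) * y) * D.tk k' m (x⁻¹ * (v : P × H) * y) * Φ u v := by
    intro x y
    have e2 : ∀ u v : D.Γ,
        D.wr k r (x⁻¹ * (u : P × H) * y) * D.wr k' r (x⁻¹ * (v : P × H) * y) * Φ u v =
        ∑ n ∈ Finset.Icc r (4 * r), ∑ m ∈ Finset.Icc r (4 * r),
          D.tk k n (x⁻¹ * (u : P × H) * y) * D.tk k' m (x⁻¹ * (v : P × H) * y) * Φ u v := by
      intro u v
      rw [wr_eq, wr_eq, Finset.sum_mul_sum, Finset.sum_mul]
      refine Finset.sum_congr rfl fun n _ => ?_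
      rw [Finset.sum_mul]
    simp only [e2]
    have e3 : ∀ u : D.Γ, (∑' v : D.Γ, ∑ n ∈ Finset.Icc r (4 * r), ∑ m ∈ Finset.Icc r (4 * r),
          D.tk k n (x⁻¹ * (u : P × H) * y) * D.tk k' m (x⁻¹ * (v : P × H) * y) * Φ u v) =
        ∑ n ∈ Finset.Icc r (4 * r), ∑ m ∈ Finset.Icc r (4 * r), ∑' v : D.Γ,
          D.tk k n (x⁻¹ * (u : P × H) * y) * D.tk k' m (x⁻¹ * (v : P × H) * y) * Φ u v := by
      intro u
      rw [Summable.tsum_finsetSum fun _ _ => ENNReal.summable]
      exact Finset.sum_congr rfl fun n _ =>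
        Summable.tsum_finsetSum fun _ _ => ENNReal.summable
    simp only [e3]
    rw [Summable.tsum_finsetSum fun _ _ => ENNReal.summable, Finset.mul_sum]
    refine Finset.sum_congr rfl fun n _ => ?_
    rw [Summable.tsum_finsetSum fun _ _ => ENNReal.summable, Finset.mul_sum]
  have e4 : ∀ x : P × H, D.χ x * D.IM (fun y => ∑' u : D.Γ, ∑' v : D.Γ,
      D.wr k r (x⁻¹ * (u : P × H) * y) * D.wr k' r (x⁻¹ * (v : P × H) * y) * Φ u v) =
      ∑ n ∈ Finset.Icc r (4 * r), ∑ m ∈ Finset.Icc r (4 * r),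
        D.χ x * D.IM (fun y => ∑' u : D.Γ, ∑' v : D.Γ,
          D.tk k n (x⁻¹ * (u : P × H) * y) * D.tk k' m (x⁻¹ * (v : P × H) * y) * Φ u v) := by
    intro x
    have hy : ∀ n m, Measurable fun y : P × H => D.χ y * ∑' u : D.Γ, ∑' v : D.Γ,
        D.tk k n (x⁻¹ * (u : P × H) * y) * D.tk k' m (x⁻¹ * (v : P × H) * y) * Φ u v :=
      fun n m => (wr_m D hc hχ _ _ (hk n) (hk' m) Φ).comp measurable_prodMk_left
    simp only [Dat.IM, e1]
    rw [lintegral_finsetSum _ fun n _ => Finset.measurable_fun_sum _ fun m _ => hy n m,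
      Finset.mul_sum]
    refine Finset.sum_congr rfl fun n _ => ?_
    rw [lintegral_finsetSum _ fun m _ => hy n m, Finset.mul_sum]
  have hx : ∀ n m, Measurable fun x : P × H => D.χ x * D.IM (fun y => ∑' u : D.Γ, ∑' v : D.Γ,
        D.tk k n (x⁻¹ * (u : P × H) * y) * D.tk k' m (x⁻¹ * (v : P × H) * y) * Φ u v) :=
    fun n m => hχ.mul (Measurable.lintegral_prod_right' (wr_m D hc hχ _ _ (hk n) (hk' m) Φ))
  unfold Dat.T2
  conv_lhs => rw [Dat.IM]
  simp only [e4]
  rw [lintegral_finsetSum _ fun n _ => Finset.measurable_fun_sum _ fun m _ => hx n m]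
  refine Finset.sum_congr rfl fun n _ => ?_
  rw [lintegral_finsetSum _ fun m _ => hx n m]
  rfl

theorem twr (h1 : S_inst P H) (h2 : S_nu P H) : S_wr P H := by
  intro D hD k k' hk hk' r
  obtain ⟨_, _, hσ, hc, -⟩ := h1 D hD
  obtain ⟨hn, -⟩ := h2 D hD
  have htk : ∀ (j : P → ℝ≥0∞), Measurable j → ∀ n, Measurable (D.tk j n) := fun j hj n =>
    (hj.comp measurable_fst).mul ((hn n).comp measurable_snd)
  refine ⟨?_, htk k hk, ?_, ?_, ?_⟩
  · exact (hk.comp measurable_fst).mul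
      (Finset.measurable_fun_sum _ fun n _ => (hn n).comp measurable_snd)
  · intro x y
    simp only [Dat.N, wr_eq]
    exact Summable.tsum_finsetSum fun _ _ => ENNReal.summable
  · exact wr_T2 D hc hD.χm hσ k k' r (htk k hk) (htk k' hk')
  · intro n hnr g
    rw [wr_eq]
    exact Finset.single_le_sum (f := fun n => D.tk k n g) (fun _ _ => zero_le) hnr

end General

end Pool.Agent.MPEF
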